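import Mathlib
import Pool.Agent.Lib.MP_da621d_pr.Basic
import Pool.Agent.Lib.SST.Rot

/-! Basic facts on Gaussian vectors and matrices for the theorem on the dependence on the centre. -/

set_option autoImplicit false

open MeasureTheory ProbabilityTheory Matrix
open scoped ENNReal

namespace Pool.Agent.SSZ

open Pool.Agent.Lib.MP_da621d_pr (gam gam2 phi c0 gam_eq phi_eq measurable_phi tr measurable_tr
  map_tr_gam2 phi_pos c0_pos)

/-! ### orthogonal matrices -/

theorem gam_orth {ι : Type*} [Fintype ι] [DecidableEq ι] (O : Matrix ι ι ℝ)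
    (hO : O ∈ Matrix.orthogonalGroup ι ℝ) :
    MeasurePreserving (fun x : ι → ℝ => O *ᵥ x) (gam ι) (gam ι) :=
  Pool.Agent.SST.pi_orthogonal O hO

theorem tr_preserving {ι κ : Type*} [Fintype ι] [Fintype κ] :
    MeasurePreserving (tr (ι := ι) (κ := κ)) (gam2 ι κ) (gam2 κ ι) :=
  ⟨measurable_tr, map_tr_gam2⟩

/-- left multiplication by an orthogonal matrix preserves the Gaussian matrix -/
theorem gam2_left {ι κ : Type*} [Fintype ι] [DecidableEq ι] [Fintype κ] (O : Matrix ι ι ℝ)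
    (hO : O ∈ Matrix.orthogonalGroup ι ℝ) :
    MeasurePreserving (fun (G : ι → κ → ℝ) (i : ι) (j : κ) => (O * (Matrix.of G)) i j)
      (gam2 ι κ) (gam2 ι κ) := by
  have h1 : MeasurePreserving (fun (G : κ → ι → ℝ) (j : κ) => O *ᵥ (G j)) (gam2 κ ι) (gam2 κ ι) :=
    measurePreserving_pi (fun _ : κ => gam ι) (fun _ : κ => gam ι) (fun _ => gam_orth O hO)
  have h2 := (tr_preserving (ι := κ) (κ := ι)).comp (h1.comp (tr_preserving (ι := ι) (κ := κ)))
  have h3 : (tr ∘ ((fun (G : κ → ι → ℝ) (j : κ) => O *ᵥ (G j)) ∘ tr) :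
      (ι → κ → ℝ) → (ι → κ → ℝ)) = fun G i j => (O * (Matrix.of G)) i j := by
    funext G i j
    simp only [Function.comp_apply, tr, Matrix.mulVec, Matrix.mul_apply, dotProduct, Matrix.of_apply]
  rw [h3] at h2
  exact h2

/-- Householder: an orthogonal matrix moving `h` to a multiple of the first basis vector -/
theorem exists_orth {n : ℕ} (h : Fin (n + 1) → ℝ) :
    ∃ O ∈ Matrix.orthogonalGroup (Fin (n + 1)) ℝ,
      O *ᵥ h = √(h ⬝ᵥ h) • (Pi.single 0 1 : Fin (n + 1) → ℝ) := by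
  set e : Fin (n + 1) → ℝ := Pi.single 0 1 with he
  set t : ℝ := √(h ⬝ᵥ h) with ht
  have ht2 : t ^ 2 = h ⬝ᵥ h := by
    rw [ht, Real.sq_sqrt]
    exact Finset.sum_nonneg fun i _ => mul_self_nonneg _
  by_cases hv : h = t • e
  · refine ⟨1, Submonoid.one_mem _, ?_⟩
    rw [Matrix.one_mulVec]; exact hv
  · set v : Fin (n + 1) → ℝ := h - t • e with hvd
    have hvne : v ≠ 0 := sub_ne_zero.mpr hv
    have hvv : 0 < v ⬝ᵥ v := by
      have h0 : 0 ≤ v ⬝ᵥ v := Finset.sum_nonneg fun i _ => mul_self_nonneg _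
      rcases h0.lt_or_eq with h1 | h1
      · exact h1
      · exact absurd (dotProduct_self_eq_zero.mp h1.symm) hvne
    have hee : e ⬝ᵥ e = 1 := by simp [he]
    have hcm : e ⬝ᵥ h = h ⬝ᵥ e := dotProduct_comm _ _
    have hvh : v ⬝ᵥ v = 2 * (v ⬝ᵥ h) := by
      simp only [hvd, sub_dotProduct, dotProduct_sub, smul_dotProduct, dotProduct_smul, smul_eq_mul,
        hee, hcm]
      nlinarith [ht2]
    set O : Matrix (Fin (n + 1)) (Fin (n + 1)) ℝ := 1 - (2 / (v ⬝ᵥ v)) • vecMulVec v v with hOd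
    have hOt : Oᵀ = O := by
      rw [hOd, transpose_sub, transpose_one, transpose_smul, transpose_vecMulVec]
    have hOO : O * O = 1 := by
      have h1 : vecMulVec v v * vecMulVec v v = (v ⬝ᵥ v) • vecMulVec v v := by
        rw [vecMulVec_mul_vecMulVec]
        ext i j; simp [vecMulVec_apply]; ring
      rw [hOd, sub_mul, mul_sub, mul_sub, one_mul, mul_one, smul_mul_smul_comm, h1, smul_smul,
        one_mul]
      have h2 : 2 / (v ⬝ᵥ v) * (2 / (v ⬝ᵥ v)) * (v ⬝ᵥ v) = 2 / (v ⬝ᵥ v) + 2 / (v ⬝ᵥ v) := by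
        field_simp; norm_num
      rw [h2, add_smul]
      abel
    refine ⟨O, ?_, ?_⟩
    · rw [Matrix.mem_orthogonalGroup_iff, hOt, hOO]
    · have h3 : 2 / (v ⬝ᵥ v) * (v ⬝ᵥ h) = 1 := by
        have : v ⬝ᵥ h = (v ⬝ᵥ v) / 2 := by linarith
        rw [this]; field_simp
      have h4 : (vecMulVec v v) *ᵥ h = (v ⬝ᵥ h) • v := by
        ext i
        simp only [mulVec, dotProduct, vecMulVec_apply, Pi.smul_apply, smul_eq_mul]
        rw [Finset.sum_mul]
        exact Finset.sum_congr rfl fun j _ => by ring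
      rw [hOd, sub_mulVec, one_mulVec, smul_mulVec, h4, smul_smul, h3, one_smul, hvd]
      abel

/-! ### splitting off the first coordinate, shifts, linear changes of variables -/

theorem lintegral_cons {n : ℕ} (F : (Fin (n + 1) → ℝ) → ℝ≥0∞) (hF : Measurable F) :
    ∫⁻ g, F g ∂(gam (Fin (n + 1))) =
      ∫⁻ u, ∫⁻ h, F (Fin.cons u h) ∂(gam (Fin n)) ∂(gaussianReal 0 1) := by
  unfold gam
  have h := measurePreserving_piFinSuccAbove (fun _ : Fin (n + 1) => gaussianReal 0 1) 0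
  have h2 := h.symm
  have hsn : ∀ p : ℝ × (Fin n → ℝ),
      (MeasurableEquiv.piFinSuccAbove (fun _ : Fin (n + 1) => ℝ) 0).symm p =
        Fin.cons p.1 p.2 := by
    intro p
    exact Fin.insertNth_zero' _ _
  rw [← h2.lintegral_comp hF]
  have hm : Measurable (fun p : ℝ × (Fin n → ℝ) =>
      F ((MeasurableEquiv.piFinSuccAbove (fun _ : Fin (n + 1) => ℝ) 0).symm p)) :=
    hF.comp (MeasurableEquiv.measurable _)
  rw [lintegral_prod _ hm.aemeasurable]
  simp only [hsn]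

theorem lintegral_cons2 {n m : ℕ} (F : (Fin (n + 1) → Fin m → ℝ) → ℝ≥0∞) (hF : Measurable F) :
    ∫⁻ G, F G ∂(gam2 (Fin (n + 1)) (Fin m)) =
      ∫⁻ R, ∫⁻ r, F (Fin.cons r R) ∂(gam (Fin m)) ∂(gam2 (Fin n) (Fin m)) := by
  unfold gam2
  have h := measurePreserving_piFinSuccAbove (fun _ : Fin (n + 1) => gam (Fin m)) 0
  have h2 := h.symm
  have hsn : ∀ p : (Fin m → ℝ) × (Fin n → Fin m → ℝ),
      (MeasurableEquiv.piFinSuccAbove (fun _ : Fin (n + 1) => Fin m → ℝ) 0).symm p =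
        Fin.cons p.1 p.2 := by
    intro p
    exact Fin.insertNth_zero' _ _
  rw [← h2.lintegral_comp hF]
  have hm : Measurable (fun p : (Fin m → ℝ) × (Fin n → Fin m → ℝ) =>
      F ((MeasurableEquiv.piFinSuccAbove (fun _ : Fin (n + 1) => Fin m → ℝ) 0).symm p)) :=
    hF.comp (MeasurableEquiv.measurable _)
  rw [lintegral_prod_symm _ hm.aemeasurable]
  simp only [hsn]

theorem lintegral_vol_cons {n : ℕ} (F : (Fin (n + 1) → ℝ) → ℝ≥0∞) (hF : Measurable F) :
    ∫⁻ y, F y = ∫⁻ t : ℝ, ∫⁻ d : Fin n → ℝ, F (Fin.cons t d) := by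
  have h := volume_preserving_piFinSuccAbove (fun _ : Fin (n + 1) => ℝ) 0
  have h2 := h.symm
  have hsn : ∀ p : ℝ × (Fin n → ℝ),
      (MeasurableEquiv.piFinSuccAbove (fun _ : Fin (n + 1) => ℝ) 0).symm p =
        Fin.cons p.1 p.2 := by
    intro p
    exact Fin.insertNth_zero' _ _
  rw [← h2.lintegral_comp hF]
  have hm : Measurable (fun p : ℝ × (Fin n → ℝ) =>
      F ((MeasurableEquiv.piFinSuccAbove (fun _ : Fin (n + 1) => ℝ) 0).symm p)) :=
    hF.comp (MeasurableEquiv.measurable _)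
  rw [Measure.volume_eq_prod, lintegral_prod _ hm.aemeasurable]
  simp only [hsn]

theorem lintegral_gam {ι : Type*} [Fintype ι] (F : (ι → ℝ) → ℝ≥0∞) (hF : Measurable F) :
    ∫⁻ g, F g ∂(gam ι) = ∫⁻ r, ENNReal.ofReal (phi r) * F r := by
  rw [gam_eq, lintegral_withDensity_eq_lintegral_mul _ measurable_phi.ennreal_ofReal hF]
  rfl

theorem lintegral_shift {ι : Type*} [Fintype ι] (b : ι → ℝ) (F : (ι → ℝ) → ℝ≥0∞)
    (hF : Measurable F) :
    ∫⁻ g, F (b + g) ∂(gam ι) = ∫⁻ r, ENNReal.ofReal (phi (r - b)) * F r := by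
  rw [lintegral_gam (fun g => F (b + g)) (hF.comp (measurable_const_add b))]
  have h := lintegral_add_left_eq_self (μ := (volume : Measure (ι → ℝ)))
    (fun r => ENNReal.ofReal (phi (r - b)) * F r) b
  rw [← h]
  simp

/-- linear change of variables -/
theorem lintegral_vecMul {n : ℕ} (A : Matrix (Fin n) (Fin n) ℝ) (hA : A.det ≠ 0)
    (F : (Fin n → ℝ) → ℝ≥0∞) (hF : Measurable F) :
    ∫⁻ r, F r = ENNReal.ofReal |A.det| * ∫⁻ y, F (y ᵥ* A) := by
  have hd : (Aᵀ).det ≠ 0 := by rwa [det_transpose]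
  have h := Real.map_matrix_volume_pi_eq_smul_volume_pi hd
  have hm : Measurable (fun y : Fin n → ℝ => Matrix.toLin' Aᵀ y) :=
    (LinearMap.continuous_of_finiteDimensional (Matrix.toLin' Aᵀ)).measurable
  have h1 : ∫⁻ y, F (y ᵥ* A) = ∫⁻ r, F r ∂(Measure.map (Matrix.toLin' Aᵀ) volume) := by
    rw [lintegral_map hF hm]
    apply lintegral_congr
    intro y
    rw [Matrix.toLin'_apply, mulVec_transpose]
  rw [h1, h, lintegral_smul_measure, smul_eq_mul, ← mul_assoc, ← ENNReal.ofReal_mul (abs_nonneg _),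
    det_transpose, ← abs_mul, mul_inv_cancel₀ hA]
  simp

end Pool.Agent.SSZ
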