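import Pool.Agent.Lib.SSZ.Phi

/-! The deterministic part: the two conditions `Reg` and `Cap`. -/

set_option autoImplicit false

open MeasureTheory ProbabilityTheory Matrix Set
open scoped ENNReal

namespace Pool.Agent.SSZ

/-- `h` lies, up to the factor `c`, in the direction of `S h` and `|S|` is large in the direction
`h`, where `S = M⁻ᵀ M⁻¹` -/
def Reg {n : ℕ} (c T : ℝ) (M : Matrix (Fin n) (Fin n) ℝ) (h : Fin n → ℝ) : Prop :=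
  c ^ 2 * (h ⬝ᵥ h) * (((M⁻¹ *ᵥ h) ᵥ* M⁻¹) ⬝ᵥ ((M⁻¹ *ᵥ h) ᵥ* M⁻¹)) ≤
      ((M⁻¹ *ᵥ h) ⬝ᵥ (M⁻¹ *ᵥ h)) ^ 2 ∧
    c ^ 2 * (h ⬝ᵥ h) ≤ T ^ 2 * ((M⁻¹ *ᵥ h) ⬝ᵥ (M⁻¹ *ᵥ h))

/-- `h` lies, up to the factor `c`, in the direction of `M⁻ᵀ g` -/
def Cap {n : ℕ} (c : ℝ) (M : Matrix (Fin n) (Fin n) ℝ) (h g : Fin n → ℝ) : Prop :=
  0 < (g ᵥ* M⁻¹) ⬝ᵥ (g ᵥ* M⁻¹) ∧
    c ^ 2 * (h ⬝ᵥ h) * ((g ᵥ* M⁻¹) ⬝ᵥ (g ᵥ* M⁻¹)) ≤ (h ⬝ᵥ (g ᵥ* M⁻¹)) ^ 2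

theorem cs {ι : Type*} [Fintype ι] (x y : ι → ℝ) : (x ⬝ᵥ y) ^ 2 ≤ (x ⬝ᵥ x) * (y ⬝ᵥ y) := by
  have h := Finset.sum_mul_sq_le_sq_mul_sq Finset.univ x y
  simpa only [dotProduct, pow_two] using h

theorem isCompact_sph {n : ℕ} : IsCompact {u : Fin n → ℝ | u ⬝ᵥ u = 1} := by
  apply Metric.isCompact_of_isClosed_isBounded
  · exact isClosed_eq (by unfold dotProduct; fun_prop) continuous_const
  · rw [isBounded_iff_forall_norm_le]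
    refine ⟨1, fun u hu => ?_⟩
    rw [pi_norm_le_iff_of_nonneg zero_le_one]
    intro i
    have h1 := sq_le_dot u i
    have h2 : u ⬝ᵥ u = 1 := hu
    rw [h2] at h1
    rw [Real.norm_eq_abs]
    exact abs_le_one_iff_mul_self_le_one.mpr (by nlinarith)

theorem exists_max {n : ℕ} (K : Matrix (Fin (n + 1)) (Fin (n + 1)) ℝ) :
    ∃ u : Fin (n + 1) → ℝ, u ⬝ᵥ u = 1 ∧
      ∀ v : Fin (n + 1) → ℝ, (K *ᵥ v) ⬝ᵥ (K *ᵥ v) ≤ ((K *ᵥ u) ⬝ᵥ (K *ᵥ u)) * (v ⬝ᵥ v) := by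
  have hne : {u : Fin (n + 1) → ℝ | u ⬝ᵥ u = 1}.Nonempty :=
    ⟨Pi.single 0 1, by simp⟩
  have hc : ContinuousOn (fun u : Fin (n + 1) → ℝ => (K *ᵥ u) ⬝ᵥ (K *ᵥ u))
      {u : Fin (n + 1) → ℝ | u ⬝ᵥ u = 1} := by
    apply Continuous.continuousOn
    unfold Matrix.mulVec dotProduct
    fun_prop
  obtain ⟨u, hu, hmax⟩ := isCompact_sph.exists_isMaxOn hne hc
  refine ⟨u, hu, fun v => ?_⟩
  rcases (dot_self_nonneg v).lt_or_eq with h1 | h1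
  · set t : ℝ := √(v ⬝ᵥ v) with ht
    have ht0 : 0 < t := Real.sqrt_pos.mpr h1
    have ht2 : t ^ 2 = v ⬝ᵥ v := Real.sq_sqrt h1.le
    have h2 : (t⁻¹ • v) ⬝ᵥ (t⁻¹ • v) = 1 := by
      rw [smul_dotProduct, dotProduct_smul, smul_eq_mul, smul_eq_mul, ← ht2]
      field_simp
    have h3 : (K *ᵥ (t⁻¹ • v)) ⬝ᵥ (K *ᵥ (t⁻¹ • v)) ≤ (K *ᵥ u) ⬝ᵥ (K *ᵥ u) := hmax h2
    simp only [mulVec_smul, smul_dotProduct, dotProduct_smul, smul_eq_mul] at h3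
    rw [← ht2]
    have h4 : t⁻¹ * (t⁻¹ * ((K *ᵥ v) ⬝ᵥ (K *ᵥ v))) ≤ (K *ᵥ u) ⬝ᵥ (K *ᵥ u) := h3
    calc (K *ᵥ v) ⬝ᵥ (K *ᵥ v) = (t⁻¹ * (t⁻¹ * ((K *ᵥ v) ⬝ᵥ (K *ᵥ v)))) * t ^ 2 := by
          field_simp
      _ ≤ _ := mul_le_mul_of_nonneg_right h4 (sq_nonneg t)
  · have h2 : v = 0 := dotProduct_self_eq_zero.mp h1.symm
    rw [h2]; simp

theorem det_i {n : ℕ} (M : Matrix (Fin (n + 1)) (Fin (n + 1)) ℝ) (T : ℝ)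
    (v : Fin (n + 1) → ℝ) (hv : v ⬝ᵥ v ≤ 1) (hx : 1 ≤ T ^ 2 * ((M⁻¹ *ᵥ v) ⬝ᵥ (M⁻¹ *ᵥ v))) :
    ∃ u : Fin (n + 1) → ℝ, u ⬝ᵥ u = 1 ∧
      ∀ (c : ℝ) (h : Fin (n + 1) → ℝ), c ^ 2 * (h ⬝ᵥ h) ≤ (h ⬝ᵥ u) ^ 2 → Reg c T M h := by
  set K := M⁻¹ with hK
  obtain ⟨u, hu, hmax⟩ := exists_max K
  set Λ := (K *ᵥ u) ⬝ᵥ (K *ᵥ u) with hΛ
  have hΛ0 : 0 ≤ Λ := dot_self_nonneg _
  have hΛ1 : 1 ≤ T ^ 2 * Λ := by
    refine hx.trans ?_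
    apply mul_le_mul_of_nonneg_left _ (sq_nonneg T)
    refine (hmax v).trans ?_
    nlinarith
  have hΛp : 0 < Λ := by
    rcases hΛ0.lt_or_eq with h | h
    · exact h
    · rw [← h] at hΛ1; norm_num at hΛ1
  have htr : ∀ y : Fin (n + 1) → ℝ, (y ᵥ* K) ⬝ᵥ (y ᵥ* K) ≤ Λ * (y ⬝ᵥ y) := by
    intro y
    set z := y ᵥ* K with hz
    have h1 : z ⬝ᵥ z = y ⬝ᵥ (K *ᵥ z) := by
      rw [dotProduct_mulVec]
    have h2 : (z ⬝ᵥ z) ^ 2 ≤ (y ⬝ᵥ y) * (Λ * (z ⬝ᵥ z)) := by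
      rw [h1]
      refine (cs _ _).trans ?_
      rw [← h1]
      exact mul_le_mul_of_nonneg_left (hmax z) (dot_self_nonneg y)
    rcases (dot_self_nonneg z).lt_or_eq with h3 | h3
    · have h4 : (z ⬝ᵥ z) * (z ⬝ᵥ z) ≤ (Λ * (y ⬝ᵥ y)) * (z ⬝ᵥ z) := by nlinarith
      exact le_of_mul_le_mul_right h4 h3
    · rw [← h3]; exact mul_nonneg hΛ0 (dot_self_nonneg y)
  set l := (K *ᵥ u) ᵥ* K with hl
  have hlu : ∀ h : Fin (n + 1) → ℝ, l ⬝ᵥ h = (K *ᵥ u) ⬝ᵥ (K *ᵥ h) := by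
    intro h
    rw [dotProduct_mulVec]
  have hll : l ⬝ᵥ l ≤ Λ * Λ := htr (K *ᵥ u)
  have hlΛ : l = Λ • u := by
    have h1 : (l - Λ • u) ⬝ᵥ (l - Λ • u) ≤ 0 := by
      have h2 : l ⬝ᵥ u = Λ := hlu u
      have h3 : u ⬝ᵥ l = Λ := by rw [dotProduct_comm]; exact h2
      simp only [sub_dotProduct, dotProduct_sub, smul_dotProduct, dotProduct_smul, smul_eq_mul, h2,
        h3, hu]
      nlinarith
    have h2 : (l - Λ • u) ⬝ᵥ (l - Λ • u) = 0 := le_antisymm h1 (dot_self_nonneg _)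
    exact sub_eq_zero.mp (dotProduct_self_eq_zero.mp h2)
  refine ⟨u, hu, fun c h hch => ?_⟩
  have h1 : Λ * (h ⬝ᵥ u) ^ 2 ≤ (K *ᵥ h) ⬝ᵥ (K *ᵥ h) := by
    have h2 : Λ * (h ⬝ᵥ u) = (K *ᵥ u) ⬝ᵥ (K *ᵥ h) := by
      rw [← hlu h, hlΛ, smul_dotProduct, smul_eq_mul, dotProduct_comm u h]
    have h3 : (Λ * (h ⬝ᵥ u)) ^ 2 ≤ Λ * ((K *ᵥ h) ⬝ᵥ (K *ᵥ h)) := by
      rw [h2]; exact cs _ _
    have h4 : Λ * (Λ * (h ⬝ᵥ u) ^ 2) ≤ Λ * ((K *ᵥ h) ⬝ᵥ (K *ᵥ h)) := by nlinarith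
    exact le_of_mul_le_mul_left h4 hΛp
  have h5 := htr (K *ᵥ h)
  set k := (K *ᵥ h) ⬝ᵥ (K *ᵥ h) with hk
  have hk0 : 0 ≤ k := dot_self_nonneg _
  constructor
  · calc c ^ 2 * (h ⬝ᵥ h) * (((K *ᵥ h) ᵥ* K) ⬝ᵥ ((K *ᵥ h) ᵥ* K)) ≤
        (h ⬝ᵥ u) ^ 2 * (Λ * k) := mul_le_mul hch h5 (dot_self_nonneg _) (sq_nonneg _)
      _ = (Λ * (h ⬝ᵥ u) ^ 2) * k := by ring
      _ ≤ k * k := mul_le_mul_of_nonneg_right h1 hk0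
      _ = k ^ 2 := by ring
  · calc c ^ 2 * (h ⬝ᵥ h) ≤ (h ⬝ᵥ u) ^ 2 := hch
      _ ≤ (T ^ 2 * Λ) * (h ⬝ᵥ u) ^ 2 := le_mul_of_one_le_left (sq_nonneg _) hΛ1
      _ = T ^ 2 * (Λ * (h ⬝ᵥ u) ^ 2) := by ring
      _ ≤ T ^ 2 * k := mul_le_mul_of_nonneg_left h1 (sq_nonneg T)

theorem not_reg_of_det {n : ℕ} {c T : ℝ} (hc : 0 < c) {M : Matrix (Fin n) (Fin n) ℝ}
    (hM : M.det = 0) {h : Fin n → ℝ} (hh : 0 < h ⬝ᵥ h) : ¬ Reg c T M h := by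
  intro hr
  have h1 : M⁻¹ = 0 := Matrix.nonsing_inv_apply_not_isUnit M (by rw [hM]; exact not_isUnit_zero)
  have h2 := hr.2
  rw [h1] at h2
  simp only [zero_mulVec, dotProduct_zero, mul_zero] at h2
  have : 0 < c ^ 2 * (h ⬝ᵥ h) := by positivity
  linarith

section rot

variable {n : ℕ} {O : Matrix (Fin n) (Fin n) ℝ} (hO : O ∈ Matrix.orthogonalGroup (Fin n) ℝ)

include hO

theorem orth_inv : O⁻¹ = Oᵀ :=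
  Matrix.inv_eq_left_inv ((Matrix.mem_orthogonalGroup_iff' (Fin n) ℝ).mp hO)

theorem inv_rot_mulVec (M : Matrix (Fin n) (Fin n) ℝ) (h : Fin n → ℝ) :
    (O * M)⁻¹ *ᵥ (O *ᵥ h) = M⁻¹ *ᵥ h := by
  have h1 : Oᵀ * O = 1 := (Matrix.mem_orthogonalGroup_iff' (Fin n) ℝ).mp hO
  rw [Matrix.mul_inv_rev, orth_inv hO, mulVec_mulVec, Matrix.mul_assoc, h1, Matrix.mul_one]

theorem vecMul_inv_rot (M : Matrix (Fin n) (Fin n) ℝ) (g : Fin n → ℝ) :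
    g ᵥ* (O * M)⁻¹ = O *ᵥ (g ᵥ* M⁻¹) := by
  rw [Matrix.mul_inv_rev, orth_inv hO, ← vecMul_vecMul, vecMul_transpose]

theorem reg_rot (c T : ℝ) (M : Matrix (Fin n) (Fin n) ℝ) (h : Fin n → ℝ) :
    Reg c T (O * M) (O *ᵥ h) ↔ Reg c T M h := by
  unfold Reg
  rw [inv_rot_mulVec hO, vecMul_inv_rot hO, orth_dot hO, orth_dot hO]

theorem cap_rot (c : ℝ) (M : Matrix (Fin n) (Fin n) ℝ) (h g : Fin n → ℝ) :
    Cap c (O * M) (O *ᵥ h) g ↔ Cap c M h g := by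
  unfold Cap
  rw [vecMul_inv_rot hO, orth_dot hO, orth_dot hO, orth_dot hO]

end rot

theorem reg_smul {n : ℕ} (c T : ℝ) (M : Matrix (Fin n) (Fin n) ℝ) (h : Fin n → ℝ) {t : ℝ}
    (ht : t ≠ 0) : Reg c T M (t • h) ↔ Reg c T M h := by
  unfold Reg
  simp only [mulVec_smul, smul_vecMul, smul_dotProduct, dotProduct_smul, smul_eq_mul]
  have ht2 : 0 < t ^ 2 := by positivity
  have ht4 : 0 < t ^ 4 := by positivity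
  constructor
  · rintro ⟨h1, h2⟩
    constructor
    · apply le_of_mul_le_mul_left _ ht4
      calc _ = _ := by ring
        _ ≤ _ := h1
        _ = _ := by ring
    · apply le_of_mul_le_mul_left _ ht2
      calc _ = _ := by ring
        _ ≤ _ := h2
        _ = _ := by ring
  · rintro ⟨h1, h2⟩
    constructor
    · calc _ = t ^ 4 * _ := by ring
        _ ≤ t ^ 4 * _ := mul_le_mul_of_nonneg_left h1 ht4.le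
        _ = _ := by ring
    · calc _ = t ^ 2 * _ := by ring
        _ ≤ t ^ 2 * _ := mul_le_mul_of_nonneg_left h2 ht2.le
        _ = _ := by ring

theorem cap_smul {n : ℕ} (c : ℝ) (M : Matrix (Fin n) (Fin n) ℝ) (h g : Fin n → ℝ) {t : ℝ}
    (ht : t ≠ 0) : Cap c M (t • h) g ↔ Cap c M h g := by
  unfold Cap
  simp only [smul_dotProduct, dotProduct_smul, smul_eq_mul]
  have ht2 : 0 < t ^ 2 := by positivity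
  constructor
  · rintro ⟨h0, h1⟩
    refine ⟨h0, ?_⟩
    apply le_of_mul_le_mul_left _ ht2
    calc _ = _ := by ring
      _ ≤ _ := h1
      _ = _ := by ring
  · rintro ⟨h0, h1⟩
    refine ⟨h0, ?_⟩
    calc _ = t ^ 2 * _ := by ring
      _ ≤ t ^ 2 * _ := mul_le_mul_of_nonneg_left h1 ht2.le
      _ = _ := by ring

theorem transpose_bound {n : ℕ} (B : Matrix (Fin n) (Fin n) ℝ) (s : ℝ)
    (hB : ∀ v, s ^ 2 * (v ⬝ᵥ v) ≤ (B *ᵥ v) ⬝ᵥ (B *ᵥ v)) (y : Fin n → ℝ) :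
    s ^ 2 * (y ⬝ᵥ y) ≤ (y ᵥ* B) ⬝ᵥ (y ᵥ* B) := by
  by_cases hs : s = 0
  · rw [hs]; simpa using dot_self_nonneg (y ᵥ* B)
  · have hs2 : 0 < s ^ 2 := by positivity
    have hd : B.det ≠ 0 := by
      intro hd
      obtain ⟨v, hv, hv0⟩ := Matrix.exists_mulVec_eq_zero_iff.mpr hd
      have h1 := hB v
      rw [hv0] at h1
      have h2 : 0 < v ⬝ᵥ v := by
        rcases (dot_self_nonneg v).lt_or_eq with h3 | h3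
        · exact h3
        · exact absurd (dotProduct_self_eq_zero.mp h3.symm) hv
      have h3 : 0 < s ^ 2 * (v ⬝ᵥ v) := by positivity
      simp only [dotProduct_zero] at h1
      linarith
    set v := B⁻¹ *ᵥ y with hv
    have hBv : B *ᵥ v = y := by
      rw [hv, mulVec_mulVec, Matrix.mul_nonsing_inv _ (isUnit_iff_ne_zero.mpr hd), one_mulVec]
    have h1 : y ⬝ᵥ y = (y ᵥ* B) ⬝ᵥ v := by
      conv_lhs => rw [← hBv]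
      rw [hBv, ← dotProduct_mulVec, hBv]
    have h2 : (y ⬝ᵥ y) ^ 2 ≤ ((y ᵥ* B) ⬝ᵥ (y ᵥ* B)) * (v ⬝ᵥ v) := by
      rw [h1]; exact cs _ _
    have h3 := hB v
    rw [hBv] at h3
    rcases (dot_self_nonneg y).lt_or_eq with h4 | h4
    · have h5 : (s ^ 2 * (y ⬝ᵥ y)) * (y ⬝ᵥ y) ≤ ((y ᵥ* B) ⬝ᵥ (y ᵥ* B)) * (y ⬝ᵥ y) := by
        calc (s ^ 2 * (y ⬝ᵥ y)) * (y ⬝ᵥ y) = s ^ 2 * (y ⬝ᵥ y) ^ 2 := by ring
          _ ≤ s ^ 2 * (((y ᵥ* B) ⬝ᵥ (y ᵥ* B)) * (v ⬝ᵥ v)) :=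
            mul_le_mul_of_nonneg_left h2 hs2.le
          _ = ((y ᵥ* B) ⬝ᵥ (y ᵥ* B)) * (s ^ 2 * (v ⬝ᵥ v)) := by ring
          _ ≤ _ := mul_le_mul_of_nonneg_left h3 (dot_self_nonneg _)
      exact le_of_mul_le_mul_right h5 h4
    · rw [← h4, mul_zero]; exact dot_self_nonneg _

end Pool.Agent.SSZ
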