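import Pool.Agent.Lib.SSZ.Phi

/-! The inequality `(E)`: the rank-one Gaussian integral against the spherical mean. -/

set_option autoImplicit false

open MeasureTheory ProbabilityTheory Matrix Set
open scoped ENNReal

namespace Pool.Agent.SSZ

open Pool.Agent.Lib.MP_da621d_pr (gam gam2 phi c0 gam_eq phi_eq measurable_phi tr measurable_tr
  map_tr_gam2 phi_pos c0_pos)

theorem lintegral_g1_neg (F : ℝ → ℝ≥0∞) (hF : Measurable F) :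
    ∫⁻ v, F (-v) ∂(gaussianReal 0 1) = ∫⁻ v, F v ∂(gaussianReal 0 1) := by
  rw [lintegral_g1 (fun v => F (-v)) (by fun_prop), lintegral_g1 F hF,
    ← lintegral_neg_eq_self (fun v => ENNReal.ofReal (c0 * Real.exp (-(v ^ 2) / 2)) * F v)]
  simp only [neg_sq]

theorem pt (a b D u v r : ℝ) (h : r ^ 2 = u ^ 2 + v ^ 2) :
    Real.exp ((a ^ 2 * u ^ 2 + (a * v + b) ^ 2) / D) +
      Real.exp ((a ^ 2 * u ^ 2 + (a * (-v) + b) ^ 2) / D) ≤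
    Real.exp ((a * r + b) ^ 2 / D) + Real.exp ((a * (-r) + b) ^ 2 / D) := by
  have hv : |v| ≤ |r| := by
    apply sq_le_sq.mp
    nlinarith [sq_nonneg u]
  set X : ℝ := (a ^ 2 * r ^ 2 + b ^ 2) / D with hX
  set Y : ℝ := 2 * a * b * v / D with hY
  set Z : ℝ := 2 * a * b * r / D with hZ
  have e1 : (a ^ 2 * u ^ 2 + (a * v + b) ^ 2) / D = X + Y := by
    rw [hX, hY, ← add_div]; congr 1; rw [h]; ring
  have e2 : (a ^ 2 * u ^ 2 + (a * (-v) + b) ^ 2) / D = X + -Y := by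
    rw [hX, hY, ← sub_eq_add_neg, ← sub_div]; congr 1; rw [h]; ring
  have e3 : (a * r + b) ^ 2 / D = X + Z := by
    rw [hX, hZ, ← add_div]; congr 1; ring
  have e4 : (a * (-r) + b) ^ 2 / D = X + -Z := by
    rw [hX, hZ, ← sub_eq_add_neg, ← sub_div]; congr 1; ring
  rw [e1, e2, e3, e4, Real.exp_add, Real.exp_add, Real.exp_add, Real.exp_add, ← mul_add, ← mul_add]
  apply mul_le_mul_of_nonneg_left _ (Real.exp_pos X).le
  have h1 : Real.cosh Y ≤ Real.cosh Z := by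
    rw [Real.cosh_le_cosh, hY, hZ, abs_div, abs_div, abs_mul, abs_mul (2 * a * b) r]
    exact div_le_div_of_nonneg_right (mul_le_mul_of_nonneg_left hv (abs_nonneg _)) (abs_nonneg _)
  rw [Real.cosh_eq, Real.cosh_eq] at h1
  linarith

theorem slice (a b m : ℝ) :
    2 * ∫⁻ u, ∫⁻ v, ENNReal.ofReal (Real.exp ((a ^ 2 * u ^ 2 + (a * v + b) ^ 2) /
        (2 * (u ^ 2 + (v ^ 2 + m))))) ∂(gaussianReal 0 1) ∂(gaussianReal 0 1) ≤
      ∫⁻ u, ∫⁻ v, ((fun x : ℝ => ENNReal.ofReal (Real.exp ((a * x + b) ^ 2 / (2 * (x ^ 2 + m)))))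
          (√(u ^ 2 + v ^ 2)) +
        (fun x : ℝ => ENNReal.ofReal (Real.exp ((a * x + b) ^ 2 / (2 * (x ^ 2 + m)))))
          (-√(u ^ 2 + v ^ 2))) ∂(gaussianReal 0 1) ∂(gaussianReal 0 1) := by
  rw [two_mul, ← lintegral_add_left (by
    apply Measurable.lintegral_prod_right' (f := fun p : ℝ × ℝ => ENNReal.ofReal (Real.exp
      ((a ^ 2 * p.1 ^ 2 + (a * p.2 + b) ^ 2) / (2 * (p.1 ^ 2 + (p.2 ^ 2 + m))))))
    fun_prop)]
  apply lintegral_mono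
  intro u
  simp only
  set Ft : ℝ → ℝ≥0∞ := fun v => ENNReal.ofReal (Real.exp ((a ^ 2 * u ^ 2 + (a * v + b) ^ 2) /
        (2 * (u ^ 2 + (v ^ 2 + m))))) with hFt
  have hFm : Measurable Ft := by rw [hFt]; fun_prop
  have h1 : (∫⁻ v, Ft v ∂(gaussianReal 0 1)) + ∫⁻ v, Ft v ∂(gaussianReal 0 1) =
      ∫⁻ v, (Ft v + Ft (-v)) ∂(gaussianReal 0 1) := by
    rw [lintegral_add_left hFm, lintegral_g1_neg Ft hFm]
  rw [h1]
  apply lintegral_mono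
  intro v
  have hs : √(u ^ 2 + v ^ 2) ^ 2 = u ^ 2 + v ^ 2 := Real.sq_sqrt (by positivity)
  simp only [hFt]
  rw [← ENNReal.ofReal_add (Real.exp_pos _).le (Real.exp_pos _).le,
    ← ENNReal.ofReal_add (Real.exp_pos _).le (Real.exp_pos _).le]
  apply ENNReal.ofReal_le_ofReal
  have h2 := pt a b (2 * (u ^ 2 + (v ^ 2 + m))) u v _ hs
  simp only [neg_sq, hs, add_assoc] at h2 ⊢
  exact h2

theorem E_step1 {n : ℕ} (q : Fin (n + 1) → ℝ) :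
    ENNReal.ofReal (2 * c0) * ∫⁻ u, ∫⁻ x, ENNReal.ofReal (Real.exp
      (((q 0) ^ 2 * u ^ 2 + (q ⬝ᵥ x) ^ 2) / (2 * (u ^ 2 + x ⬝ᵥ x)))) ∂(gam (Fin (n + 1)))
        ∂(gaussianReal 0 1) ≤
    ∫⁻ g, ENNReal.ofReal |g 0| * ENNReal.ofReal (Real.exp ((q ⬝ᵥ g) ^ 2 / (2 * (g ⬝ᵥ g))))
      ∂(gam (Fin (n + 1))) := by
  obtain ⟨a, q', rfl⟩ : ∃ (a : ℝ) (q' : Fin n → ℝ), q = Fin.cons a q' :=
    ⟨q 0, Fin.tail q, (Fin.cons_self_tail q).symm⟩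
  have hm1 : Measurable (fun p : (Fin n → ℝ) × (ℝ × ℝ) => ENNReal.ofReal (Real.exp
      ((a ^ 2 * p.2.1 ^ 2 + (a * p.2.2 + q' ⬝ᵥ p.1) ^ 2) /
        (2 * (p.2.1 ^ 2 + (p.2.2 ^ 2 + p.1 ⬝ᵥ p.1)))))) := by
    unfold dotProduct; fun_prop
  -- the left side
  have hL : ∫⁻ u, ∫⁻ x, ENNReal.ofReal (Real.exp
      (((Fin.cons a q' : Fin (n + 1) → ℝ) 0 ^ 2 * u ^ 2 +
        ((Fin.cons a q' : Fin (n + 1) → ℝ) ⬝ᵥ x) ^ 2) / (2 * (u ^ 2 + x ⬝ᵥ x))))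
        ∂(gam (Fin (n + 1))) ∂(gaussianReal 0 1) =
      ∫⁻ h, ∫⁻ u, ∫⁻ v, ENNReal.ofReal (Real.exp ((a ^ 2 * u ^ 2 + (a * v + q' ⬝ᵥ h) ^ 2) /
        (2 * (u ^ 2 + (v ^ 2 + h ⬝ᵥ h))))) ∂(gaussianReal 0 1) ∂(gaussianReal 0 1)
        ∂(gam (Fin n)) := by
    rw [lintegral_lintegral_swap (μ := gam (Fin n)) (ν := gaussianReal 0 1)
      (f := fun h u => ∫⁻ v, ENNReal.ofReal (Real.exp ((a ^ 2 * u ^ 2 + (a * v + q' ⬝ᵥ h) ^ 2) /
        (2 * (u ^ 2 + (v ^ 2 + h ⬝ᵥ h))))) ∂(gaussianReal 0 1))]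
    · apply lintegral_congr
      intro u
      rw [lintegral_cons _ (by unfold dotProduct; fun_prop),
        lintegral_lintegral_swap (by unfold dotProduct Function.uncurry; fun_prop)]
      apply lintegral_congr
      intro h
      apply lintegral_congr
      intro v
      simp only [Fin.cons_zero, cons_dot, pow_two]
    · apply Measurable.aemeasurable
      apply Measurable.lintegral_prod_right' (f := fun p : ((Fin n → ℝ) × ℝ) × ℝ =>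
        ENNReal.ofReal (Real.exp
      ((a ^ 2 * p.1.2 ^ 2 + (a * p.2 + q' ⬝ᵥ p.1.1) ^ 2) /
        (2 * (p.1.2 ^ 2 + (p.2 ^ 2 + p.1.1 ⬝ᵥ p.1.1))))))
      unfold dotProduct; fun_prop
  have hR : ∫⁻ g, ENNReal.ofReal |g 0| * ENNReal.ofReal (Real.exp
      (((Fin.cons a q' : Fin (n + 1) → ℝ) ⬝ᵥ g) ^ 2 / (2 * (g ⬝ᵥ g)))) ∂(gam (Fin (n + 1))) =
      ∫⁻ h, ∫⁻ v, ENNReal.ofReal |v| * (fun x : ℝ => ENNReal.ofReal (Real.exp
        ((a * x + q' ⬝ᵥ h) ^ 2 / (2 * (x ^ 2 + h ⬝ᵥ h))))) v ∂(gaussianReal 0 1)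
        ∂(gam (Fin n)) := by
    rw [lintegral_cons _ (by unfold dotProduct; fun_prop),
      lintegral_lintegral_swap (by unfold dotProduct Function.uncurry; fun_prop)]
    apply lintegral_congr
    intro h
    apply lintegral_congr
    intro v
    simp only [Fin.cons_zero, cons_dot, pow_two]
  rw [hL, hR, ← lintegral_const_mul' _ _ ENNReal.ofReal_ne_top]
  apply lintegral_mono
  intro h
  simp only
  rw [abs_split (fun x : ℝ => ENNReal.ofReal (Real.exp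
        ((a * x + q' ⬝ᵥ h) ^ 2 / (2 * (x ^ 2 + h ⬝ᵥ h))))) (by fun_prop),
    show (2 : ℝ) * c0 = c0 * 2 by ring, ENNReal.ofReal_mul c0_pos.le, mul_assoc]
  apply mul_le_mul_right
  have := slice a (q' ⬝ᵥ h) (h ⬝ᵥ h)
  simpa using this

theorem exists_orth' {n : ℕ} (h : Fin (n + 1) → ℝ) :
    ∃ O ∈ Matrix.orthogonalGroup (Fin (n + 1)) ℝ,
      ∀ x, h ⬝ᵥ x = √(h ⬝ᵥ h) * (O *ᵥ x) 0 := by
  obtain ⟨O, hO, h1⟩ := exists_orth h
  refine ⟨O, hO, fun x => ?_⟩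
  rw [← orth_dot hO h x, h1, smul_dotProduct, single_dotProduct, one_mul, smul_eq_mul]

theorem E_step2 {n : ℕ} (q : Fin (n + 1) → ℝ) (A u : ℝ) :
    ∫⁻ x, ENNReal.ofReal (Real.exp ((A * u ^ 2 + (q ⬝ᵥ x) ^ 2) / (2 * (u ^ 2 + x ⬝ᵥ x))))
      ∂(gam (Fin (n + 1))) =
    ∫⁻ x, ENNReal.ofReal (Real.exp ((A * u ^ 2 + (q ⬝ᵥ q) * x 0 ^ 2) / (2 * (u ^ 2 + x ⬝ᵥ x))))
      ∂(gam (Fin (n + 1))) := by
  obtain ⟨O, hO, h1⟩ := exists_orth' q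
  rw [← (gam_orth O hO).lintegral_comp (f := fun x => ENNReal.ofReal (Real.exp
    ((A * u ^ 2 + (q ⬝ᵥ q) * x 0 ^ 2) / (2 * (u ^ 2 + x ⬝ᵥ x)))))
    (by unfold dotProduct; fun_prop)]
  apply lintegral_congr
  intro x
  simp only [orth_dot hO]
  rw [h1 x, mul_pow, Real.sq_sqrt (dot_self_nonneg q)]

theorem gam_perm {ι : Type*} [Fintype ι] (σ : ι ≃ ι) :
    MeasurePreserving (fun (z : ι → ℝ) (i : ι) => z (σ i)) (gam ι) (gam ι) := by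
  have h := measurePreserving_piCongrLeft (fun _ : ι => gaussianReal 0 1) σ.symm
  have h2 : (⇑(MeasurableEquiv.piCongrLeft (fun _ : ι => ℝ) σ.symm) : (ι → ℝ) → (ι → ℝ)) =
      fun (z : ι → ℝ) (i : ι) => z (σ i) := by
    funext z i
    have h3 := MeasurableEquiv.piCongrLeft_apply_apply (β := fun _ : ι => ℝ) σ.symm z (σ i)
    rw [Equiv.symm_apply_apply] at h3
    exact h3
  rw [h2] at h
  exact h

theorem perm_dot {ι : Type*} [Fintype ι] (σ : ι ≃ ι) (z : ι → ℝ) :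
    (fun i => z (σ i)) ⬝ᵥ (fun i => z (σ i)) = z ⬝ᵥ z := by
  unfold dotProduct
  exact Equiv.sum_comp σ (fun i => z i * z i)

theorem E_step3 {n : ℕ} (A P : ℝ) (j : Fin (n + 1)) :
    ∫⁻ u, ∫⁻ x, ENNReal.ofReal (Real.exp ((A * u ^ 2 + P * x 0 ^ 2) / (2 * (u ^ 2 + x ⬝ᵥ x))))
      ∂(gam (Fin (n + 1))) ∂(gaussianReal 0 1) =
    ∫⁻ z, ENNReal.ofReal (Real.exp ((A * z j.succ ^ 2 + P * z 0 ^ 2) / (2 * (z ⬝ᵥ z))))
      ∂(gam (Fin (n + 2))) := by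
  have h1 : ∫⁻ u, ∫⁻ x, ENNReal.ofReal (Real.exp
      ((A * u ^ 2 + P * x 0 ^ 2) / (2 * (u ^ 2 + x ⬝ᵥ x))))
      ∂(gam (Fin (n + 1))) ∂(gaussianReal 0 1) =
      ∫⁻ z, ENNReal.ofReal (Real.exp ((A * z 0 ^ 2 + P * z 1 ^ 2) / (2 * (z ⬝ᵥ z))))
      ∂(gam (Fin (n + 2))) := by
    rw [lintegral_cons _ (by unfold dotProduct; fun_prop)]
    apply lintegral_congr
    intro u
    apply lintegral_congr
    intro x
    rw [cons_dot]
    simp only [Fin.cons_zero, pow_two]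
    rfl
  set σ : Fin (n + 2) ≃ Fin (n + 2) := (Equiv.swap 0 1).trans (Equiv.swap 1 j.succ) with hσ
  have hs0 : σ 0 = j.succ := by
    simp [hσ]
  have hs1 : σ 1 = 0 := by
    simp only [hσ, Equiv.trans_apply, Equiv.swap_apply_right]
    exact Equiv.swap_apply_of_ne_of_ne (by simp) (Fin.succ_ne_zero j).symm
  rw [h1, ← (gam_perm σ).lintegral_comp (f := fun z => ENNReal.ofReal (Real.exp
    ((A * z 0 ^ 2 + P * z 1 ^ 2) / (2 * (z ⬝ᵥ z))))) (by unfold dotProduct; fun_prop)]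
  apply lintegral_congr
  intro z
  simp only [perm_dot, hs0, hs1]

theorem ae_dot_pos {n : ℕ} : ∀ᵐ z ∂(gam (Fin (n + 1))), 0 < z ⬝ᵥ z := by
  have h1 : (gam (Fin (n + 1))) {0} = 0 := by
    rw [gam_eq]
    exact withDensity_absolutelyContinuous _ _ (measure_singleton 0)
  have h2 : ∀ᵐ z ∂(gam (Fin (n + 1))), z ≠ 0 := by
    rw [ae_iff]; simpa using h1
  filter_upwards [h2] with z hz
  rcases (dot_self_nonneg z).lt_or_eq with h3 | h3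
  · exact h3
  · exact absurd (dotProduct_self_eq_zero.mp h3.symm) hz

theorem mean_exp {n : ℕ} (x : Fin (n + 1) → ℝ) (m : ℝ) (hm : ∑ j, x j = (n + 1 : ℕ) * m) :
    (n + 1 : ℕ) * Real.exp m ≤ ∑ j, Real.exp (x j) := by
  have h1 : ∀ j ∈ Finset.univ, Real.exp m * (x j - m + 1) ≤ Real.exp (x j) := by
    intro j _
    have h2 := Real.add_one_le_exp (x j - m)
    have h3 : Real.exp (x j) = Real.exp m * Real.exp (x j - m) := by
      rw [← Real.exp_add]; congr 1; ring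
    rw [h3]
    exact mul_le_mul_of_nonneg_left h2 (Real.exp_pos m).le
  have h4 := Finset.sum_le_sum h1
  rw [← Finset.mul_sum, Finset.sum_add_distrib, Finset.sum_sub_distrib, hm, Finset.sum_const,
    Finset.card_univ, Fintype.card_fin, Finset.sum_const, Finset.card_univ, Fintype.card_fin,
    nsmul_eq_mul, nsmul_eq_mul] at h4
  calc _ = _ := by ring
    _ ≤ _ := h4

theorem E_step4 {n : ℕ} (A P : ℝ) :
    ENNReal.ofReal (Real.exp (A / (2 * (n + 1 : ℕ)))) * Ph n (P - A / (n + 1 : ℕ)) ≤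
    ∫⁻ u, ∫⁻ x, ENNReal.ofReal (Real.exp ((A * u ^ 2 + P * x 0 ^ 2) / (2 * (u ^ 2 + x ⬝ᵥ x))))
      ∂(gam (Fin (n + 1))) ∂(gaussianReal 0 1) := by
  set I := ∫⁻ u, ∫⁻ x, ENNReal.ofReal (Real.exp ((A * u ^ 2 + P * x 0 ^ 2) /
    (2 * (u ^ 2 + x ⬝ᵥ x)))) ∂(gam (Fin (n + 1))) ∂(gaussianReal 0 1) with hI
  have hN : (0 : ℝ) < (n + 1 : ℕ) := by positivity
  have h1 : ((n + 1 : ℕ) : ℝ≥0∞) * I = ∫⁻ z, ∑ j : Fin (n + 1), ENNReal.ofReal (Real.exp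
      ((A * z j.succ ^ 2 + P * z 0 ^ 2) / (2 * (z ⬝ᵥ z)))) ∂(gam (Fin (n + 2))) := by
    rw [lintegral_finsetSum _ (fun j _ => by unfold dotProduct; fun_prop)]
    rw [← Finset.sum_congr rfl (fun j _ => E_step3 A P j), ← hI]
    simp
  have h2 : ((n + 1 : ℕ) : ℝ≥0∞) * (ENNReal.ofReal (Real.exp (A / (2 * (n + 1 : ℕ)))) *
      Ph n (P - A / (n + 1 : ℕ))) ≤ ((n + 1 : ℕ) : ℝ≥0∞) * I := by
    rw [h1, Ph, ← lintegral_const_mul' _ _ ENNReal.ofReal_ne_top,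
      ← lintegral_const_mul' _ _ (ENNReal.natCast_ne_top _)]
    apply lintegral_mono_ae
    filter_upwards [ae_dot_pos (n := n + 1)] with z hz
    rw [← ENNReal.ofReal_mul (Real.exp_pos _).le, ← Real.exp_add,
      ← ENNReal.ofReal_sum_of_nonneg (fun _ _ => (Real.exp_pos _).le),
      ← ENNReal.ofReal_natCast, ← ENNReal.ofReal_mul hN.le]
    apply ENNReal.ofReal_le_ofReal
    apply mean_exp
    rw [← Finset.sum_div, Finset.sum_add_distrib, ← Finset.mul_sum]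
    have h3 : z ⬝ᵥ z = z 0 ^ 2 + ∑ j : Fin (n + 1), z j.succ ^ 2 := by
      unfold dotProduct
      rw [Fin.sum_univ_succ]
      simp only [pow_two]
    have h4 : ∑ j : Fin (n + 1), z j.succ ^ 2 = z ⬝ᵥ z - z 0 ^ 2 := by linarith
    rw [h4]
    unfold qt
    simp only [Finset.sum_const, Finset.card_univ, Fintype.card_fin, nsmul_eq_mul]
    field_simp
    ring
  exact (ENNReal.mul_le_mul_iff_right (by positivity) (ENNReal.natCast_ne_top _)).mp h2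

theorem E_ineq {n : ℕ} (w p : Fin (n + 1) → ℝ) (hw : w ⬝ᵥ w = 1) :
    ENNReal.ofReal (2 * c0) * (ENNReal.ofReal (Real.exp ((p ⬝ᵥ w) ^ 2 / (2 * (n + 1 : ℕ)))) *
      Ph n ((1 - 1 / (n + 1 : ℕ)) * (p ⬝ᵥ p))) ≤
    ∫⁻ g, ENNReal.ofReal |g ⬝ᵥ w| * ENNReal.ofReal (Real.exp ((p ⬝ᵥ g) ^ 2 / (2 * (g ⬝ᵥ g))))
      ∂(gam (Fin (n + 1))) := by
  obtain ⟨O, hO, h1⟩ := exists_orth' w
  rw [hw, Real.sqrt_one] at h1
  set q := O *ᵥ p with hq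
  have hqa : q 0 = p ⬝ᵥ w := by
    rw [dotProduct_comm, h1 p, one_mul]
  have hqq : q ⬝ᵥ q = p ⬝ᵥ p := orth_dot hO p p
  have h2 : ∫⁻ g, ENNReal.ofReal |g ⬝ᵥ w| * ENNReal.ofReal (Real.exp ((p ⬝ᵥ g) ^ 2 /
      (2 * (g ⬝ᵥ g)))) ∂(gam (Fin (n + 1))) =
      ∫⁻ g, ENNReal.ofReal |g 0| * ENNReal.ofReal (Real.exp ((q ⬝ᵥ g) ^ 2 / (2 * (g ⬝ᵥ g))))
      ∂(gam (Fin (n + 1))) := by
    rw [← (gam_orth O hO).lintegral_comp (f := fun g => ENNReal.ofReal |g 0| *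
      ENNReal.ofReal (Real.exp ((q ⬝ᵥ g) ^ 2 / (2 * (g ⬝ᵥ g)))))
      (by unfold dotProduct; fun_prop)]
    apply lintegral_congr
    intro g
    simp only [hq, orth_dot hO]
    rw [dotProduct_comm g w, h1 g, one_mul]
  rw [h2]
  refine le_trans ?_ (E_step1 q)
  apply mul_le_mul_right
  simp_rw [E_step2 q (q 0 ^ 2)]
  refine le_trans ?_ (E_step4 (q 0 ^ 2) (q ⬝ᵥ q))
  rw [hqa, hqq]
  apply mul_le_mul_right
  apply Ph_mono
  have h3 : (p ⬝ᵥ w) ^ 2 ≤ p ⬝ᵥ p := by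
    rw [← hqa, ← hqq]; exact sq_le_dot q 0
  have h4 : (p ⬝ᵥ w) ^ 2 / (n + 1 : ℕ) ≤ (p ⬝ᵥ p) / (n + 1 : ℕ) :=
    div_le_div_of_nonneg_right h3 (by positivity)
  calc (1 - 1 / ((n + 1 : ℕ) : ℝ)) * (p ⬝ᵥ p) = p ⬝ᵥ p - (p ⬝ᵥ p) / (n + 1 : ℕ) := by ring
    _ ≤ _ := by linarith

end Pool.Agent.SSZ
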