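import Pool.Agent.Lib.SSZ.Main4

/-! The final form. -/

set_option autoImplicit false

open MeasureTheory ProbabilityTheory Matrix Set Filter Topology
open scoped ENNReal

namespace Pool.Agent.SSZ

open Pool.Agent.Lib.MP_da621d_pr (gam gam2 phi c0 gam_eq gam2_eq phi_eq measurable_phi tr
  measurable_tr map_tr_gam2 phi_pos c0_pos volume_dt_zero dt)

variable {n : ℕ}

theorem lint_ys (i : Fin (n + 2)) (t : ℝ) :
    ∫⁻ z : Fin (n + 2) → ℝ, ENNReal.ofReal (Real.exp (t * ys i z / 2)) ∂(gam (Fin (n + 2))) =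
      Ph n t := by
  set σ : Fin (n + 2) ≃ Fin (n + 2) := Equiv.swap 0 i with hσ
  have hs0 : σ 0 = i := by rw [hσ, Equiv.swap_apply_left]
  have h1 : Ph n t = ∫⁻ z : Fin (n + 2) → ℝ, ENNReal.ofReal (Real.exp (t * ys 0 z / 2))
      ∂(gam (Fin (n + 2))) := by
    unfold Ph
    apply lintegral_congr
    intro z
    congr 1
    exact exp_half t z
  rw [h1, ← (gam_perm σ).lintegral_comp (f := fun z => ENNReal.ofReal (Real.exp (t * ys 0 z / 2)))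
    (measurable_exp_ys t).ennreal_ofReal]
  simp only [ys_perm, hs0]

theorem Ph_jensen (n : ℕ) (t : ℝ) :
    ENNReal.ofReal (Real.exp (t / (2 * (n + 2)))) ≤ Ph n t := by
  have h1 : ((n + 1 + 1 : ℕ) : ℝ≥0∞) * Ph n t = ∫⁻ z : Fin (n + 2) → ℝ,
      ∑ i : Fin (n + 2), ENNReal.ofReal (Real.exp (t * ys i z / 2)) ∂(gam (Fin (n + 2))) := by
    rw [lintegral_finsetSum _ (fun i _ =>
      (((measurable_ys i).const_mul t).div_const 2).exp.ennreal_ofReal),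
      Finset.sum_congr rfl fun i _ => lint_ys i t]
    simp [add_assoc, one_add_one_eq_two]
  have h2 : ((n + 1 + 1 : ℕ) : ℝ≥0∞) * ENNReal.ofReal (Real.exp (t / (2 * (n + 2)))) ≤
      ((n + 1 + 1 : ℕ) : ℝ≥0∞) * Ph n t := by
    rw [h1]
    have h3 : ((n + 1 + 1 : ℕ) : ℝ≥0∞) * ENNReal.ofReal (Real.exp (t / (2 * (n + 2)))) =
        ∫⁻ _ : Fin (n + 2) → ℝ, ((n + 1 + 1 : ℕ) : ℝ≥0∞) *
          ENNReal.ofReal (Real.exp (t / (2 * (n + 2)))) ∂(gam (Fin (n + 2))) := by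
      rw [lintegral_const, measure_univ, mul_one]
    rw [h3]
    apply lintegral_mono_ae
    filter_upwards [ae_dot_pos (n := n + 1)] with z hz
    rw [← ENNReal.ofReal_sum_of_nonneg (fun _ _ => (Real.exp_pos _).le),
      ← ENNReal.ofReal_natCast, ← ENNReal.ofReal_mul (by positivity)]
    apply ENNReal.ofReal_le_ofReal
    apply mean_exp (n := n + 1)
    have h4 : ∑ i : Fin (n + 1 + 1), ys i z = 1 := by
      rw [Fin.sum_univ_succ]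
      exact sum_ys z hz
    rw [← Finset.sum_div, ← Finset.mul_sum, h4]
    push_cast
    field_simp
    ring
  exact (ENNReal.mul_le_mul_iff_right (by positivity) (ENNReal.natCast_ne_top _)).mp h2

theorem lint_sq : ∫⁻ x, ENNReal.ofReal (x ^ 2) ∂(gaussianReal 0 1) = 1 := by
  have hmem : MemLp (id : ℝ → ℝ) 2 (gaussianReal 0 1) := memLp_id_gaussianReal 2
  have h1 : Var[(id : ℝ → ℝ); gaussianReal 0 1] = 1 := by
    rw [variance_id_gaussianReal]; rfl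
  have h2 : ∫ x, (id x : ℝ) ∂(gaussianReal 0 1) = 0 := integral_id_gaussianReal
  rw [variance_eq_sub hmem, h2] at h1
  have h3 : ∫ x : ℝ, x ^ 2 ∂(gaussianReal 0 1) = 1 := by
    have : ∫ x : ℝ, ((id : ℝ → ℝ) ^ 2) x ∂(gaussianReal 0 1) = ∫ x : ℝ, x ^ 2 ∂(gaussianReal 0 1) :=
      rfl
    rw [this] at h1
    linarith
  have h4 : Integrable (fun x : ℝ => x ^ 2) (gaussianReal 0 1) := hmem.integrable_sq
  rw [← ofReal_integral_eq_lintegral_ofReal h4 (ae_of_all _ fun x => sq_nonneg x), h3]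
  simp

theorem lint_dot (n : ℕ) : ∫⁻ g, ENNReal.ofReal (g ⬝ᵥ g) ∂(gam (Fin n)) = (n : ℝ≥0∞) := by
  have h1 : ∀ g : Fin n → ℝ, ENNReal.ofReal (g ⬝ᵥ g) = ∑ i, ENNReal.ofReal (g i ^ 2) := by
    intro g
    rw [← ENNReal.ofReal_sum_of_nonneg (fun _ _ => sq_nonneg _)]
    simp only [dotProduct, pow_two]
  simp_rw [h1]
  rw [lintegral_finsetSum _ (fun i _ => by fun_prop)]
  have h2 : ∀ i : Fin n, ∫⁻ g : Fin n → ℝ, ENNReal.ofReal (g i ^ 2) ∂(gam (Fin n)) = 1 := by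
    intro i
    have h3 := (measurePreserving_eval (fun _ : Fin n => gaussianReal 0 1) i).lintegral_comp
      (f := fun x => ENNReal.ofReal (x ^ 2)) (by fun_prop)
    rw [lint_sq] at h3
    exact h3
  rw [Finset.sum_congr rfl fun i _ => h2 i]
  simp

theorem lint_norm (n : ℕ) : ∫⁻ g, ENNReal.ofReal (√(g ⬝ᵥ g)) ∂(gam (Fin (n + 1))) ≤
    ENNReal.ofReal (√(n + 1)) := by
  set r : ℝ := √((n : ℝ) + 1) with hr
  have hr0 : 0 < r := Real.sqrt_pos.mpr (by positivity)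
  have hr2 : r ^ 2 = n + 1 := Real.sq_sqrt (by positivity)
  calc ∫⁻ g, ENNReal.ofReal (√(g ⬝ᵥ g)) ∂(gam (Fin (n + 1))) ≤
      ∫⁻ g, (ENNReal.ofReal (1 / (2 * r)) * ENNReal.ofReal (g ⬝ᵥ g) + ENNReal.ofReal (r / 2))
        ∂(gam (Fin (n + 1))) := by
        apply lintegral_mono
        intro g
        simp only
        have hg := dot_self_nonneg g
        rw [← ENNReal.ofReal_mul (by positivity), ← ENNReal.ofReal_add (by positivity)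
          (by positivity)]
        apply ENNReal.ofReal_le_ofReal
        set y := √(g ⬝ᵥ g) with hy
        have hy2 : y ^ 2 = g ⬝ᵥ g := Real.sq_sqrt hg
        rw [← hy2, ← sub_nonneg]
        have : 1 / (2 * r) * y ^ 2 + r / 2 - y = (y - r) ^ 2 / (2 * r) := by
          field_simp
          ring
        rw [this]
        positivity
    _ = ENNReal.ofReal (1 / (2 * r)) * ((n + 1 : ℕ) : ℝ≥0∞) + ENNReal.ofReal (r / 2) := by
        rw [lintegral_add_right _ measurable_const, lintegral_const_mul' _ _ ENNReal.ofReal_ne_top,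
          lint_dot, lintegral_const, measure_univ, mul_one]
    _ = ENNReal.ofReal r := by
        rw [← ENNReal.ofReal_natCast, ← ENNReal.ofReal_mul (by positivity),
          ← ENNReal.ofReal_add (by positivity) (by positivity)]
        congr 1
        push_cast
        rw [← hr2]
        field_simp
        ring

theorem lint_norm_eq (n : ℕ) : ∫⁻ g, ENNReal.ofReal (√(g ⬝ᵥ g)) ∂(gam (Fin (n + 1))) =
    ENNReal.ofReal (∫ z : Fin (n + 1) → ℝ, √(∑ i, z i ^ 2)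
      ∂(Measure.pi fun _ : Fin (n + 1) => gaussianReal 0 1)) := by
  have h1 : ∀ z : Fin (n + 1) → ℝ, √(∑ i, z i ^ 2) = √(z ⬝ᵥ z) := by
    intro z
    simp only [dotProduct, pow_two]
  simp_rw [h1]
  have hm : Measurable (fun z : Fin (n + 1) → ℝ => √(z ⬝ᵥ z)) := measurable_dot.sqrt
  rw [ofReal_integral_eq_lintegral_ofReal]
  · rfl
  · refine ⟨hm.aestronglyMeasurable, ?_⟩
    rw [hasFiniteIntegral_iff_ofReal (ae_of_all _ fun z => Real.sqrt_nonneg _)]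
    exact (lint_norm n).trans_lt ENNReal.ofReal_lt_top
  · exact ae_of_all _ fun z => Real.sqrt_nonneg _

/-- the event for `A + σ G`, and for `σ⁻¹ A + G` -/
theorem event_eq (A : Matrix (Fin (n + 1)) (Fin (n + 1)) ℝ) {σ x : ℝ} (hσ : 0 < σ) (hx : 0 < x) :
    {G : Fin (n + 1) → Fin (n + 1) → ℝ | ∃ u : Fin (n + 1) → ℝ, ∑ i, u i ^ 2 = 1 ∧
      x ^ 2 * ∑ i, ((A + σ • Matrix.of G).mulVec u) i ^ 2 ≤ 1} =
    {G : Fin (n + 1) → Fin (n + 1) → ℝ | ∃ u : Fin (n + 1) → ℝ, u ⬝ᵥ u = 1 ∧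
      ((σ⁻¹ • A + Matrix.of G) *ᵥ u) ⬝ᵥ ((σ⁻¹ • A + Matrix.of G) *ᵥ u) ≤
        (1 / (x * σ)) ^ 2} := by
  ext G
  change (∃ u : Fin (n + 1) → ℝ, ∑ i, u i ^ 2 = 1 ∧
      x ^ 2 * ∑ i, ((A + σ • Matrix.of G).mulVec u) i ^ 2 ≤ 1) ↔
    (∃ u : Fin (n + 1) → ℝ, u ⬝ᵥ u = 1 ∧
      ((σ⁻¹ • A + Matrix.of G) *ᵥ u) ⬝ᵥ ((σ⁻¹ • A + Matrix.of G) *ᵥ u) ≤
        (1 / (x * σ)) ^ 2)
  apply exists_congr
  intro u
  have e1 : ∑ i, u i ^ 2 = u ⬝ᵥ u := by simp only [dotProduct, pow_two]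
  have e2 : A + σ • Matrix.of G = σ • (σ⁻¹ • A + Matrix.of G) := by
    rw [smul_add, smul_smul, mul_inv_cancel₀ hσ.ne', one_smul]
  have e3 : ∑ i, ((A + σ • Matrix.of G).mulVec u) i ^ 2 =
      σ ^ 2 * (((σ⁻¹ • A + Matrix.of G) *ᵥ u) ⬝ᵥ ((σ⁻¹ • A + Matrix.of G) *ᵥ u)) := by
    rw [e2, smul_mulVec]
    simp only [dotProduct, Pi.smul_apply, smul_eq_mul, Finset.mul_sum]
    exact Finset.sum_congr rfl fun i _ => by ring
  rw [e1, e3, div_pow, one_pow, le_div_iff₀ (by positivity)]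
  apply and_congr Iff.rfl
  have e4 : ∀ a : ℝ, x ^ 2 * (σ ^ 2 * a) ≤ 1 ↔ a * (x * σ) ^ 2 ≤ 1 := by
    intro a
    rw [show x ^ 2 * (σ ^ 2 * a) = a * (x * σ) ^ 2 by ring]
  exact e4 _

theorem Ph_eq_int (n : ℕ) (t : ℝ) : Ph n t = ENNReal.ofReal
    (∫ z : Fin (n + 2) → ℝ, Real.exp (t * (z 0 ^ 2 / (2 * ∑ i, z i ^ 2)))
      ∂(Measure.pi fun _ : Fin (n + 2) => gaussianReal 0 1)) := by
  rw [Ph_eq_ofReal]
  unfold qt gam
  simp only [dotProduct, pow_two]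

theorem int_pos (n : ℕ) {t : ℝ} (ht : 0 ≤ t) :
    0 < ∫ z : Fin (n + 2) → ℝ, Real.exp (t * (z 0 ^ 2 / (2 * ∑ i, z i ^ 2)))
      ∂(Measure.pi fun _ : Fin (n + 2) => gaussianReal 0 1) := by
  have h1 := one_le_Ph n ht
  rw [Ph_eq_int, ENNReal.one_le_ofReal] at h1
  linarith

theorem final_form {θ : ℝ} (hθ : 0 ≤ θ) (A : Matrix (Fin (n + 1)) (Fin (n + 1)) ℝ) {σ x s : ℝ}
    (hσ : 0 < σ) (hx : 0 < x) (hs : 0 ≤ s)
    (hA : ∀ v : Fin (n + 1) → ℝ, s ^ 2 * ∑ i, v i ^ 2 ≤ ∑ i, (A.mulVec v) i ^ 2)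
    (hHQ : ∀ c : ℕ → ℝ, (∀ k, 0 < c k) → Tendsto c atTop (𝓝 1) →
      ∀ᶠ k in atTop, ∀ q, 0 ≤ q → q ≤ (s / σ) ^ 2 →
        HQ n ((1 / (x * σ)) / c k) q (Ph n (θ * q))) :
    (Measure.pi fun _ : Fin (n + 1) => Measure.pi fun _ : Fin (n + 1) => gaussianReal 0 1)
      {G : Fin (n + 1) → Fin (n + 1) → ℝ | ∃ u : Fin (n + 1) → ℝ, ∑ i, u i ^ 2 = 1 ∧
        x ^ 2 * ∑ i, ((A + σ • Matrix.of G).mulVec u) i ^ 2 ≤ 1} ≤
      ENNReal.ofReal ((∫ z : Fin (n + 1) → ℝ, √(∑ i, z i ^ 2)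
        ∂(Measure.pi fun _ : Fin (n + 1) => gaussianReal 0 1)) / (x * σ) /
        ∫ z : Fin (n + 2) → ℝ, Real.exp (θ * (s / σ) ^ 2 * (z 0 ^ 2 / (2 * ∑ i, z i ^ 2)))
          ∂(Measure.pi fun _ : Fin (n + 2) => gaussianReal 0 1)) := by
  have hxσ : 0 < x * σ := by positivity
  have hT : 0 < 1 / (x * σ) := by positivity
  have hB : ∀ v : Fin (n + 1) → ℝ, (s / σ) ^ 2 * (v ⬝ᵥ v) ≤
      ((σ⁻¹ • A) *ᵥ v) ⬝ᵥ ((σ⁻¹ • A) *ᵥ v) := by
    intro v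
    have h1 := hA v
    have e1 : ∑ i, v i ^ 2 = v ⬝ᵥ v := by simp only [dotProduct, pow_two]
    have e2 : ∑ i, (A.mulVec v) i ^ 2 = (A *ᵥ v) ⬝ᵥ (A *ᵥ v) := by
      simp only [dotProduct, pow_two]
    rw [e1, e2] at h1
    rw [smul_mulVec, smul_dotProduct, dotProduct_smul, smul_eq_mul, smul_eq_mul]
    calc (s / σ) ^ 2 * (v ⬝ᵥ v) = (σ⁻¹) ^ 2 * (s ^ 2 * (v ⬝ᵥ v)) := by
          field_simp
      _ ≤ (σ⁻¹) ^ 2 * ((A *ᵥ v) ⬝ᵥ (A *ᵥ v)) := mul_le_mul_of_nonneg_left h1 (sq_nonneg _)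
      _ = _ := by ring
  have h2 := main_sing hθ (div_nonneg hs hσ.le) hT hHQ (σ⁻¹ • A) hB
  rw [event_eq A hσ hx]
  refine h2.trans (le_of_eq ?_)
  have ht : 0 ≤ θ * (s / σ) ^ 2 := by positivity
  have hp := int_pos n ht
  rw [lint_norm_eq, Ph_eq_int, ← ENNReal.ofReal_inv_of_pos hp]
  have hE0 : 0 ≤ ∫ z : Fin (n + 1) → ℝ, √(∑ i, z i ^ 2)
        ∂(Measure.pi fun _ : Fin (n + 1) => gaussianReal 0 1) :=
    integral_nonneg fun z => Real.sqrt_nonneg _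
  rw [← ENNReal.ofReal_mul hE0, ← ENNReal.ofReal_mul hT.le]
  congr 1
  field_simp

theorem final_jensen {θ : ℝ} (hθ : 0 ≤ θ) {σ x s : ℝ} (hσ : 0 < σ) (hx : 0 < x) :
    (∫ z : Fin (n + 1) → ℝ, √(∑ i, z i ^ 2)
        ∂(Measure.pi fun _ : Fin (n + 1) => gaussianReal 0 1)) / (x * σ) /
        (∫ z : Fin (n + 2) → ℝ, Real.exp (θ * (s / σ) ^ 2 * (z 0 ^ 2 / (2 * ∑ i, z i ^ 2)))
          ∂(Measure.pi fun _ : Fin (n + 2) => gaussianReal 0 1)) ≤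
      √(n + 1) / (x * σ) * Real.exp (-(θ * (s / σ) ^ 2 / (2 * (n + 2)))) := by
  have ht : 0 ≤ θ * (s / σ) ^ 2 := by positivity
  have h1 := Ph_jensen n (θ * (s / σ) ^ 2)
  rw [Ph_eq_int, ENNReal.ofReal_le_ofReal_iff (int_pos n ht).le] at h1
  have h2 := lint_norm n
  rw [lint_norm_eq, ENNReal.ofReal_le_ofReal_iff (Real.sqrt_nonneg _)] at h2
  have hxσ : 0 < x * σ := by positivity
  set I := ∫ z : Fin (n + 2) → ℝ, Real.exp (θ * (s / σ) ^ 2 * (z 0 ^ 2 / (2 * ∑ i, z i ^ 2)))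
          ∂(Measure.pi fun _ : Fin (n + 2) => gaussianReal 0 1) with hI
  have hI0 : 0 < I := int_pos n ht
  rw [Real.exp_neg, ← div_eq_mul_inv]
  apply div_le_div₀ (by positivity) _ (Real.exp_pos _) h1
  exact div_le_div_of_nonneg_right h2 hxσ.le

end Pool.Agent.SSZ
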