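import Pool.Agent.Lib.SSZ.Final

/-! Exponential growth of the spherical mean. -/

set_option autoImplicit false

open MeasureTheory ProbabilityTheory Matrix Set
open scoped ENNReal

namespace Pool.Agent.SSZ

open Pool.Agent.Lib.MP_da621d_pr (gam gam2 phi c0 gam_eq gam2_eq phi_eq measurable_phi tr
  measurable_tr map_tr_gam2 phi_pos c0_pos)

theorem lint_exp_one {t : ℝ} (ht : 0 ≤ t) :
    ∫⁻ x, ENNReal.ofReal (Real.exp (-(t * x ^ 2 / 2))) ∂(gaussianReal 0 1) =
      ENNReal.ofReal ((√(1 + t))⁻¹) := by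
  rw [lintegral_g1 _ (by fun_prop)]
  have h1 : ∀ x : ℝ, ENNReal.ofReal (c0 * Real.exp (-(x ^ 2) / 2)) *
      ENNReal.ofReal (Real.exp (-(t * x ^ 2 / 2))) =
      ENNReal.ofReal c0 * ENNReal.ofReal (Real.exp (-((1 + t) / 2) * x ^ 2)) := by
    intro x
    rw [← ENNReal.ofReal_mul (by have := c0_pos; positivity), ← ENNReal.ofReal_mul c0_pos.le,
      mul_assoc, ← Real.exp_add]
    congr 3
    ring
  simp_rw [h1]
  rw [lintegral_const_mul' _ _ ENNReal.ofReal_ne_top,
    ← ofReal_integral_eq_lintegral_ofReal (integrable_exp_neg_mul_sq (by positivity))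
      (ae_of_all _ fun _ => (Real.exp_pos _).le), integral_gaussian, ← ENNReal.ofReal_mul c0_pos.le]
  congr 1
  unfold c0
  have h2 : Real.pi / ((1 + t) / 2) = (2 * Real.pi) / (1 + t) := by field_simp
  rw [h2, Real.sqrt_div' _ (by positivity)]
  have h3 : √(2 * Real.pi) ≠ 0 := (Real.sqrt_pos.mpr (by positivity)).ne'
  field_simp

theorem lint_exp_dot {t : ℝ} (ht : 0 ≤ t) (m : ℕ) :
    ∫⁻ h, ENNReal.ofReal (Real.exp (-(t * (h ⬝ᵥ h) / 2))) ∂(gam (Fin m)) =
      ENNReal.ofReal ((√(1 + t))⁻¹ ^ m) := by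
  induction m with
  | zero =>
    have h1 : ∀ h : Fin 0 → ℝ, h ⬝ᵥ h = 0 := fun h => by simp [dotProduct]
    simp only [h1]
    simp
  | succ m ih =>
    rw [lintegral_cons _ (by unfold dotProduct; fun_prop)]
    have h1 : ∀ (u : ℝ) (h : Fin m → ℝ), ENNReal.ofReal (Real.exp (-(t *
        ((Fin.cons u h : Fin (m + 1) → ℝ) ⬝ᵥ (Fin.cons u h : Fin (m + 1) → ℝ)) / 2))) =
        ENNReal.ofReal (Real.exp (-(t * u ^ 2 / 2))) *
          ENNReal.ofReal (Real.exp (-(t * (h ⬝ᵥ h) / 2))) := by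
      intro u h
      rw [cons_dot, ← ENNReal.ofReal_mul (Real.exp_pos _).le, ← Real.exp_add]
      congr 2
      ring
    simp_rw [h1]
    have h2 : ∀ u : ℝ, ∫⁻ h : Fin m → ℝ, ENNReal.ofReal (Real.exp (-(t * u ^ 2 / 2))) *
          ENNReal.ofReal (Real.exp (-(t * (h ⬝ᵥ h) / 2))) ∂(gam (Fin m)) =
        ENNReal.ofReal (Real.exp (-(t * u ^ 2 / 2))) * ENNReal.ofReal ((√(1 + t))⁻¹ ^ m) := by
      intro u
      rw [lintegral_const_mul' _ _ ENNReal.ofReal_ne_top, ih]
    simp_rw [h2]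
    rw [lintegral_mul_const' _ _ ENNReal.ofReal_ne_top, lint_exp_one ht,
      ← ENNReal.ofReal_mul (by positivity), pow_succ, mul_comm]

theorem two_c0 : 2 * c0 ≤ 4 / 5 := by
  unfold c0
  have h1 : (5 / 2 : ℝ) ≤ √(2 * Real.pi) := by
    apply Real.le_sqrt_of_sq_le
    have := Real.pi_gt_d2
    norm_num
    linarith
  have h2 : (√(2 * Real.pi))⁻¹ ≤ (5 / 2 : ℝ)⁻¹ := inv_anti₀ (by norm_num) h1
  calc 2 * (√(2 * Real.pi))⁻¹ ≤ 2 * (5 / 2 : ℝ)⁻¹ := by linarith
    _ = 4 / 5 := by norm_num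

theorem out_one : ENNReal.ofReal (1 / 5) ≤ gaussianReal 0 1 (Ioo (-1 : ℝ) 1)ᶜ := by
  have h1 : gaussianReal 0 1 (Ioo (-1 : ℝ) 1) ≤ ENNReal.ofReal (4 / 5) := by
    rw [← lintegral_indicator_one measurableSet_Ioo,
      lintegral_g1 _ (measurable_one.indicator measurableSet_Ioo)]
    calc ∫⁻ u : ℝ, ENNReal.ofReal (c0 * Real.exp (-(u ^ 2) / 2)) *
          (Ioo (-1 : ℝ) 1).indicator 1 u ≤
        ∫⁻ u : ℝ, (Ioo (-1 : ℝ) 1).indicator (fun _ => ENNReal.ofReal c0) u := by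
          apply lintegral_mono
          intro u
          simp only
          by_cases hu : u ∈ Ioo (-1 : ℝ) 1
          · rw [indicator_of_mem hu, indicator_of_mem hu, Pi.one_apply, mul_one]
            apply ENNReal.ofReal_le_ofReal
            apply mul_le_of_le_one_right c0_pos.le
            apply Real.exp_le_one_iff.mpr
            nlinarith [sq_nonneg u]
          · rw [indicator_of_notMem hu, indicator_of_notMem hu, mul_zero]
      _ = ENNReal.ofReal (2 * c0) := by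
          rw [lintegral_indicator measurableSet_Ioo, lintegral_const,
            Measure.restrict_apply MeasurableSet.univ, univ_inter, Real.volume_Ioo,
            ← ENNReal.ofReal_mul c0_pos.le]
          congr 1
          ring
      _ ≤ _ := ENNReal.ofReal_le_ofReal two_c0
  have h2 := measure_add_measure_compl (μ := gaussianReal 0 1) (measurableSet_Ioo (a := (-1 : ℝ))
    (b := 1))
  rw [measure_univ] at h2
  have h3 : (1 : ℝ≥0∞) = ENNReal.ofReal (4 / 5) + ENNReal.ofReal (1 / 5) := by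
    rw [← ENNReal.ofReal_add (by norm_num) (by norm_num)]
    norm_num
  have h4 : ENNReal.ofReal (4 / 5) + ENNReal.ofReal (1 / 5) ≤
      ENNReal.ofReal (4 / 5) + gaussianReal 0 1 (Ioo (-1 : ℝ) 1)ᶜ := by
    rw [← h3, ← h2]
    gcongr
  exact (ENNReal.add_le_add_iff_left ENNReal.ofReal_ne_top).mp h4

theorem Ph_growth (n : ℕ) {t : ℝ} (ht : 0 ≤ t) :
    ENNReal.ofReal (Real.exp (t / 2) * (√(1 + t))⁻¹ ^ (n + 1) * (1 / 5)) ≤ Ph n t := by
  unfold Ph
  rw [lintegral_cons _ (((measurable_qt (n := n)).const_mul t).exp.ennreal_ofReal)]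
  set C := ENNReal.ofReal (Real.exp (t / 2) * (√(1 + t))⁻¹ ^ (n + 1)) with hC
  have h1 : ∀ u : ℝ, (Ioo (-1 : ℝ) 1)ᶜ.indicator (fun _ => C) u ≤
      ∫⁻ h, ENNReal.ofReal (Real.exp (t * qt (Fin.cons u h : Fin (n + 2) → ℝ)))
        ∂(gam (Fin (n + 1))) := by
    intro u
    by_cases hu : u ∈ (Ioo (-1 : ℝ) 1)ᶜ
    · rw [indicator_of_mem hu]
      have hu2 : 1 ≤ u ^ 2 := by
        by_contra hlt
        push Not at hlt
        apply hu
        have := abs_lt.mp ((sq_lt_one_iff_abs_lt_one u).mp hlt)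
        exact this
      have h2 : C = ∫⁻ h, ENNReal.ofReal (Real.exp (t / 2)) *
          ENNReal.ofReal (Real.exp (-(t * (h ⬝ᵥ h) / 2))) ∂(gam (Fin (n + 1))) := by
        rw [lintegral_const_mul' _ _ ENNReal.ofReal_ne_top, lint_exp_dot ht,
          ← ENNReal.ofReal_mul (Real.exp_pos _).le]
      rw [h2]
      apply lintegral_mono
      intro h
      simp only
      rw [← ENNReal.ofReal_mul (Real.exp_pos _).le, ← Real.exp_add]
      apply ENNReal.ofReal_le_ofReal
      apply Real.exp_le_exp.mpr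
      unfold qt
      rw [cons_dot, Fin.cons_zero]
      have hH := dot_self_nonneg h
      set H := h ⬝ᵥ h with hHd
      have hpos : 0 < u * u + H := by nlinarith
      have h3 : u ^ 2 / (2 * (u * u + H)) = 1 / 2 - H / (2 * (u * u + H)) := by
        field_simp
        ring
      rw [h3]
      have h4 : H / (2 * (u * u + H)) ≤ H / 2 := by
        apply div_le_div_of_nonneg_left hH (by norm_num)
        nlinarith
      have := mul_le_mul_of_nonneg_left h4 ht
      linarith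
    · rw [indicator_of_notMem hu]
      exact zero_le
  calc ENNReal.ofReal (Real.exp (t / 2) * (√(1 + t))⁻¹ ^ (n + 1) * (1 / 5)) =
      C * ENNReal.ofReal (1 / 5) := by
        rw [hC, ← ENNReal.ofReal_mul (by positivity)]
    _ ≤ C * gaussianReal 0 1 (Ioo (-1 : ℝ) 1)ᶜ := by
        gcongr
        exact out_one
    _ = ∫⁻ u, (Ioo (-1 : ℝ) 1)ᶜ.indicator (fun _ => C) u ∂(gaussianReal 0 1) := by
        rw [lintegral_indicator measurableSet_Ioo.compl, lintegral_const,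
          Measure.restrict_apply MeasurableSet.univ, univ_inter]
    _ ≤ _ := lintegral_mono h1

theorem final_growth {n : ℕ} {σ x s : ℝ} (hσ : 0 < σ) (hx : 0 < x) :
    (∫ z : Fin (n + 1) → ℝ, √(∑ i, z i ^ 2)
        ∂(Measure.pi fun _ : Fin (n + 1) => gaussianReal 0 1)) / (x * σ) /
        (∫ z : Fin (n + 2) → ℝ, Real.exp ((s / σ) ^ 2 * (z 0 ^ 2 / (2 * ∑ i, z i ^ 2)))
          ∂(Measure.pi fun _ : Fin (n + 2) => gaussianReal 0 1)) ≤
      √(n + 1) / (x * σ) * (5 * √(1 + (s / σ) ^ 2) ^ (n + 1) *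
        Real.exp (-((s / σ) ^ 2 / 2))) := by
  have ht : 0 ≤ (s / σ) ^ 2 := sq_nonneg _
  have h1 := Ph_growth n ht
  rw [Ph_eq_int, ENNReal.ofReal_le_ofReal_iff (int_pos n ht).le] at h1
  have h2 := lint_norm n
  rw [lint_norm_eq, ENNReal.ofReal_le_ofReal_iff (Real.sqrt_nonneg _)] at h2
  have hxσ : 0 < x * σ := by positivity
  set I := ∫ z : Fin (n + 2) → ℝ, Real.exp ((s / σ) ^ 2 * (z 0 ^ 2 / (2 * ∑ i, z i ^ 2)))
          ∂(Measure.pi fun _ : Fin (n + 2) => gaussianReal 0 1) with hI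
  have hI0 : 0 < I := int_pos n ht
  have hr : 0 < √(1 + (s / σ) ^ 2) := Real.sqrt_pos.mpr (by positivity)
  have h3 : √(n + 1) / (x * σ) * (5 * √(1 + (s / σ) ^ 2) ^ (n + 1) *
        Real.exp (-((s / σ) ^ 2 / 2))) = √(n + 1) / (x * σ) /
        (Real.exp ((s / σ) ^ 2 / 2) * (√(1 + (s / σ) ^ 2))⁻¹ ^ (n + 1) * (1 / 5)) := by
    rw [Real.exp_neg, inv_pow]
    field_simp
  rw [h3]
  apply div_le_div₀ (by positivity) _ (by positivity) h1
  exact div_le_div_of_nonneg_right h2 hxσ.le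

end Pool.Agent.SSZ
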