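import Pool.Agent.Lib.SSZ.Rows2

/-! The inequality for a fixed direction. -/

set_option autoImplicit false

open MeasureTheory ProbabilityTheory Matrix Set
open scoped ENNReal

namespace Pool.Agent.SSZ

open Pool.Agent.Lib.MP_da621d_pr (gam gam2 phi c0 gam_eq phi_eq measurable_phi tr measurable_tr
  map_tr_gam2 phi_pos c0_pos)

variable {n : ℕ}

/-- squared Frobenius norm -/
noncomputable def nsq {m k : ℕ} (G : Fin m → Fin k → ℝ) : ℝ := ∑ i, G i ⬝ᵥ G i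

theorem nsq_nonneg {m k : ℕ} (G : Fin m → Fin k → ℝ) : 0 ≤ nsq G :=
  Finset.sum_nonneg fun i _ => dot_self_nonneg (G i)

theorem nsq_cons {m k : ℕ} (r : Fin k → ℝ) (R : Fin m → Fin k → ℝ) :
    nsq (Fin.cons r R : Fin (m + 1) → Fin k → ℝ) = r ⬝ᵥ r + nsq R := by
  simp [nsq, Fin.sum_univ_succ]

theorem measurable_nsq {m k : ℕ} : Measurable (nsq (m := m) (k := k)) := by
  unfold nsq dotProduct; fun_prop

theorem nsq_rot {m : ℕ} {O : Matrix (Fin m) (Fin m) ℝ} (hO : O ∈ Matrix.orthogonalGroup (Fin m) ℝ)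
    {k : ℕ} (G : Fin m → Fin k → ℝ) : nsq (fun i j => (O * Matrix.of G) i j) = nsq G := by
  have h1 : ∀ H : Fin m → Fin k → ℝ, nsq H = ∑ j, (fun i => H i j) ⬝ᵥ (fun i => H i j) := by
    intro H
    unfold nsq dotProduct
    exact Finset.sum_comm
  rw [h1, h1]
  apply Finset.sum_congr rfl
  intro j _
  have h2 : (fun i => (O * Matrix.of G) i j) = O *ᵥ (fun i => G i j) := by
    funext i
    simp [Matrix.mul_apply, Matrix.mulVec, dotProduct]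
  rw [h2, orth_dot hO]

theorem tri {ι : Type*} [Fintype ι] (x y : ι → ℝ) :
    √(x ⬝ᵥ x) ≤ √((x - y) ⬝ᵥ (x - y)) + √(y ⬝ᵥ y) := by
  set A := √((x - y) ⬝ᵥ (x - y)) with hA
  set B := √(y ⬝ᵥ y) with hB
  have hA0 : 0 ≤ A := Real.sqrt_nonneg _
  have hB0 : 0 ≤ B := Real.sqrt_nonneg _
  have hA2 : A ^ 2 = (x - y) ⬝ᵥ (x - y) := Real.sq_sqrt (dot_self_nonneg _)
  have hB2 : B ^ 2 = y ⬝ᵥ y := Real.sq_sqrt (dot_self_nonneg _)
  rw [Real.sqrt_le_left (by positivity)]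
  have h1 : x ⬝ᵥ x = (x - y) ⬝ᵥ (x - y) + 2 * ((x - y) ⬝ᵥ y) + y ⬝ᵥ y := by
    simp only [sub_dotProduct, dotProduct_sub, dotProduct_comm y x]
    ring
  have h2 : (x - y) ⬝ᵥ y ≤ A * B := by
    apply le_of_sq_le_sq _ (by positivity)
    have := cs (x - y) y
    rw [← hA2, ← hB2] at this
    linarith
  rw [h1, ← hA2, ← hB2]
  linarith

theorem vecMul_le {m k : ℕ} (d : Fin m → ℝ) (R : Fin m → Fin k → ℝ) :
    (d ᵥ* Matrix.of R) ⬝ᵥ (d ᵥ* Matrix.of R) ≤ (d ⬝ᵥ d) * nsq R := by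
  have h1 : nsq R = ∑ j, (fun i => R i j) ⬝ᵥ (fun i => R i j) := by
    unfold nsq dotProduct
    exact Finset.sum_comm
  rw [h1, Finset.mul_sum]
  unfold dotProduct
  apply Finset.sum_le_sum
  intro j _
  have h2 := cs d (fun i => R i j)
  have h3 : (d ᵥ* Matrix.of R) j = d ⬝ᵥ (fun i => R i j) := rfl
  rw [h3, ← pow_two]
  exact h2

/-- the lower bound for the distance -/
noncomputable def lo (c s x : ℝ) : ℝ := (max (s - √(1 / c ^ 2 - 1) * √x) 0) ^ 2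

theorem lo_anti {c s x y : ℝ} (h : x ≤ y) : lo c s y ≤ lo c s x := by
  unfold lo
  apply pow_le_pow_left₀ (le_max_right _ _)
  apply max_le_max_right
  have := Real.sqrt_le_sqrt h
  nlinarith [Real.sqrt_nonneg (1 / c ^ 2 - 1)]

theorem lo_le {c s : ℝ} (hc : 0 < c) (B : Matrix (Fin (n + 1)) (Fin (n + 1)) ℝ)
    (hB : ∀ y, s ^ 2 * (y ⬝ᵥ y) ≤ (y ᵥ* B) ⬝ᵥ (y ᵥ* B)) (R : Fin n → Fin (n + 1) → ℝ)
    (d : Fin n → ℝ) (hd : c ^ 2 * (1 + d ⬝ᵥ d) ≤ 1) :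
    lo c s (nsq R) ≤ (B 0 - d ᵥ* Matrix.of (fun i j => B i.succ j + R i j)) ⬝ᵥ
      (B 0 - d ᵥ* Matrix.of (fun i j => B i.succ j + R i j)) := by
  set p := B 0 - d ᵥ* Matrix.of (fun i j => B i.succ j + R i j) with hp
  set x := (Fin.cons 1 (-d) : Fin (n + 1) → ℝ) ᵥ* B with hx
  have hpx : p = x - d ᵥ* Matrix.of R := by
    funext j
    simp only [hp, hx, Pi.sub_apply, Matrix.vecMul, dotProduct, Fin.sum_univ_succ, Fin.cons_zero,
      Fin.cons_succ, Matrix.of_apply, Pi.neg_apply, mul_add, Finset.sum_add_distrib, one_mul,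
      neg_mul, Finset.sum_neg_distrib]
    ring
  have h1 := hB (Fin.cons 1 (-d))
  rw [cons_dot, neg_dotProduct_neg, ← hx] at h1
  have h2 : s ≤ √(x ⬝ᵥ x) := by
    apply Real.le_sqrt_of_sq_le
    have := dot_self_nonneg d
    nlinarith [sq_nonneg s]
  have h3 := tri x (d ᵥ* Matrix.of R)
  rw [← hpx] at h3
  have h4 : √((d ᵥ* Matrix.of R) ⬝ᵥ (d ᵥ* Matrix.of R)) ≤ √(1 / c ^ 2 - 1) * √(nsq R) := by
    rw [← Real.sqrt_mul' _ (nsq_nonneg R)]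
    apply Real.sqrt_le_sqrt
    refine (vecMul_le d R).trans ?_
    apply mul_le_mul_of_nonneg_right _ (nsq_nonneg R)
    rw [le_sub_iff_add_le, le_div_iff₀ (by positivity)]
    linarith
  have h5 : max (s - √(1 / c ^ 2 - 1) * √(nsq R)) 0 ≤ √(p ⬝ᵥ p) :=
    max_le (by linarith) (Real.sqrt_nonneg _)
  unfold lo
  calc _ ≤ √(p ⬝ᵥ p) ^ 2 := pow_le_pow_left₀ (le_max_right _ _) h5 2
    _ = _ := Real.sq_sqrt (dot_self_nonneg _)

/-- the weight -/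
noncomputable def wt (n : ℕ) (θ c s x : ℝ) : ℝ≥0∞ :=
  (Ph n (θ * lo c s x))⁻¹

theorem lo_nonneg (c s x : ℝ) : 0 ≤ lo c s x := by unfold lo; positivity

theorem lo_le_sq {c s x : ℝ} (hs : 0 ≤ s) : lo c s x ≤ s ^ 2 := by
  unfold lo
  apply pow_le_pow_left₀ (le_max_right _ _)
  apply max_le _ hs
  have : 0 ≤ √(1 / c ^ 2 - 1) * √x := by positivity
  linarith

theorem wt_mono {θ c s x y : ℝ} (hθ : 0 ≤ θ) (h : x ≤ y) : wt n θ c s x ≤ wt n θ c s y := by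
  unfold wt
  apply ENNReal.inv_le_inv.mpr
  apply Ph_mono
  exact mul_le_mul_of_nonneg_left (lo_anti h) hθ

theorem wt_le_one {θ c s x : ℝ} (hθ : 0 ≤ θ) : wt n θ c s x ≤ 1 := by
  unfold wt
  rw [ENNReal.inv_le_one]
  exact one_le_Ph n (mul_nonneg hθ (lo_nonneg _ _ _))

theorem measurable_wt {θ c s : ℝ} (hθ : 0 ≤ θ) : Measurable (wt n θ c s) :=
  Monotone.measurable fun _ _ h => wt_mono hθ h

end Pool.Agent.SSZ
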