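import Pool.Agent.Lib.SSZ.Main1

/-! The inequality for a fixed direction. -/

set_option autoImplicit false

open MeasureTheory ProbabilityTheory Matrix Set
open scoped ENNReal

namespace Pool.Agent.SSZ

open Pool.Agent.Lib.MP_da621d_pr (gam gam2 phi c0 gam_eq phi_eq measurable_phi tr measurable_tr
  map_tr_gam2 phi_pos c0_pos)

variable {n : ℕ}

theorem add_cons (B : Matrix (Fin (n + 1)) (Fin (n + 1)) ℝ) (r : Fin (n + 1) → ℝ)
    (R : Fin n → Fin (n + 1) → ℝ) :
    B + Matrix.of (Fin.cons r R : Fin (n + 1) → Fin (n + 1) → ℝ) =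
      cm (B 0 + r) (fun i j => B i.succ j + R i j) := by
  ext i j
  refine Fin.cases ?_ (fun i => ?_) i
  · simp [cm]
  · simp [cm]

theorem meas_reg_add {α : Type*} [MeasurableSpace α] (B : Matrix (Fin n) (Fin n) ℝ)
    {G : α → Fin n → Fin n → ℝ} (hG : Measurable G) {h : α → Fin n → ℝ} (hh : Measurable h)
    (c T : ℝ) : MeasurableSet {a | Reg c T (B + Matrix.of (G a)) (h a)} := by
  have h1 : Measurable (fun a => (fun i j => B i j + G a i j : Fin n → Fin n → ℝ)) := by
    fun_prop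
  exact meas_reg h1 hh c T

theorem meas_cap_add {α : Type*} [MeasurableSpace α] (B : Matrix (Fin n) (Fin n) ℝ)
    {G : α → Fin n → Fin n → ℝ} (hG : Measurable G) {h g : α → Fin n → ℝ} (hh : Measurable h)
    (hg : Measurable g) (c : ℝ) : MeasurableSet {a | Cap c (B + Matrix.of (G a)) (h a) (g a)} := by
  have h1 : Measurable (fun a => (fun i j => B i j + G a i j : Fin n → Fin n → ℝ)) := by
    fun_prop
  exact meas_cap h1 hh hg c

theorem measurable_cons2 : Measurable (fun q : (Fin n → Fin (n + 1) → ℝ) × (Fin (n + 1) → ℝ) =>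
    (Fin.cons q.2 q.1 : Fin (n + 1) → Fin (n + 1) → ℝ)) := by
  apply measurable_pi_lambda
  intro i
  refine Fin.cases ?_ (fun i => ?_) i
  · simp only [Fin.cons_zero]
    exact measurable_snd
  · simp only [Fin.cons_succ]
    exact (measurable_pi_apply i).comp measurable_fst

theorem main_e0 {θ c s T : ℝ} (hθ : 0 ≤ θ) (hc : 0 < c) (hs : 0 ≤ s)
    (hHQ : ∀ q, 0 ≤ q → q ≤ s ^ 2 → HQ n (T / c) q (Ph n (θ * q)))
    (B : Matrix (Fin (n + 1)) (Fin (n + 1)) ℝ)
    (hB : ∀ y, s ^ 2 * (y ⬝ᵥ y) ≤ (y ᵥ* B) ⬝ᵥ (y ᵥ* B)) :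
    ∫⁻ G, {G | Reg c T (B + Matrix.of G) (Pi.single 0 1)}.indicator 1 G
        ∂(gam2 (Fin (n + 1)) (Fin (n + 1))) ≤
      ENNReal.ofReal (T / c) * ∫⁻ g, ENNReal.ofReal (√(g ⬝ᵥ g)) *
        (∫⁻ G, wt n θ c s (nsq G) *
          {G | Cap c (B + Matrix.of G) (Pi.single 0 1) g}.indicator 1 G
          ∂(gam2 (Fin (n + 1)) (Fin (n + 1)))) ∂(gam (Fin (n + 1))) := by
  have hmR : Measurable (fun G : Fin (n + 1) → Fin (n + 1) → ℝ =>
      {G | Reg c T (B + Matrix.of G) (Pi.single 0 1)}.indicator (1 : (Fin (n + 1) → Fin (n + 1) → ℝ) → ℝ≥0∞) G) :=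
    measurable_one.indicator (meas_reg_add B measurable_id measurable_const c T)
  have hmC : ∀ g : Fin (n + 1) → ℝ, Measurable (fun G : Fin (n + 1) → Fin (n + 1) → ℝ =>
      wt n θ c s (nsq G) *
      {G | Cap c (B + Matrix.of G) (Pi.single 0 1) g}.indicator (1 : (Fin (n + 1) → Fin (n + 1) → ℝ) → ℝ≥0∞) G) := by
    intro g
    exact ((measurable_wt hθ).comp measurable_nsq).mul
      (measurable_one.indicator (meas_cap_add B measurable_id measurable_const measurable_const c))
  rw [lintegral_cons2 _ hmR]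
  simp_rw [lintegral_cons2 _ (hmC _)]
  -- fixed rows
  have key : ∀ R : Fin n → Fin (n + 1) → ℝ,
      ∫⁻ r, {G | Reg c T (B + Matrix.of G) (Pi.single 0 1)}.indicator (1 : (Fin (n + 1) → Fin (n + 1) → ℝ) → ℝ≥0∞)
        (Fin.cons r R : Fin (n + 1) → Fin (n + 1) → ℝ) ∂(gam (Fin (n + 1))) ≤
      ENNReal.ofReal (T / c) * ∫⁻ g, ENNReal.ofReal (√(g ⬝ᵥ g)) *
        (∫⁻ r, wt n θ c s (nsq (Fin.cons r R : Fin (n + 1) → Fin (n + 1) → ℝ)) *
          {G | Cap c (B + Matrix.of G) (Pi.single 0 1) g}.indicator (1 : (Fin (n + 1) → Fin (n + 1) → ℝ) → ℝ≥0∞)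
          (Fin.cons r R : Fin (n + 1) → Fin (n + 1) → ℝ) ∂(gam (Fin (n + 1))))
          ∂(gam (Fin (n + 1))) := by
    intro R
    set R' : Fin n → Fin (n + 1) → ℝ := fun i j => B i.succ j + R i j with hR'
    have h1 : ∫⁻ r, {G | Reg c T (B + Matrix.of G) (Pi.single 0 1)}.indicator (1 : (Fin (n + 1) → Fin (n + 1) → ℝ) → ℝ≥0∞)
        (Fin.cons r R : Fin (n + 1) → Fin (n + 1) → ℝ) ∂(gam (Fin (n + 1))) =
        ∫⁻ r, ENNReal.ofReal (phi (r - B 0)) *
          {r | Reg c T (cm r R') (Pi.single 0 1)}.indicator 1 r := by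
      rw [← lintegral_shift (B 0) _ (measurable_one.indicator (meas_reg_row R' c T _))]
      apply lintegral_congr
      intro r
      by_cases hr : Reg c T (cm (B 0 + r) R') (Pi.single 0 1)
      · rw [indicator_of_mem (show B 0 + r ∈ {r | Reg c T (cm r R') (Pi.single 0 1)} from hr),
          indicator_of_mem]
        · rfl
        · change Reg c T (B + Matrix.of (Fin.cons r R : Fin (n + 1) → Fin (n + 1) → ℝ)) _
          rw [add_cons]; exact hr
      · rw [indicator_of_notMem (show B 0 + r ∉ {r | Reg c T (cm r R') (Pi.single 0 1)} from hr),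
          indicator_of_notMem]
        change ¬ Reg c T (B + Matrix.of (Fin.cons r R : Fin (n + 1) → Fin (n + 1) → ℝ)) _
        rw [add_cons]; exact hr
    have h2 : ∀ g : Fin (n + 1) → ℝ, ∫⁻ r, ENNReal.ofReal (phi (r - B 0)) *
          {r | Cap c (cm r R') (Pi.single 0 1) g}.indicator 1 r =
        ∫⁻ r, {G | Cap c (B + Matrix.of G) (Pi.single 0 1) g}.indicator (1 : (Fin (n + 1) → Fin (n + 1) → ℝ) → ℝ≥0∞)
        (Fin.cons r R : Fin (n + 1) → Fin (n + 1) → ℝ) ∂(gam (Fin (n + 1))) := by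
      intro g
      rw [← lintegral_shift (B 0) _ (measurable_one.indicator (meas_cap_row R' c _ _))]
      apply lintegral_congr
      intro r
      by_cases hr : Cap c (cm (B 0 + r) R') (Pi.single 0 1) g
      · rw [indicator_of_mem (show B 0 + r ∈ {r | Cap c (cm r R') (Pi.single 0 1) g} from hr),
          indicator_of_mem]
        · rfl
        · change Cap c (B + Matrix.of (Fin.cons r R : Fin (n + 1) → Fin (n + 1) → ℝ)) _ _
          rw [add_cons]; exact hr
      · rw [indicator_of_notMem (show B 0 + r ∉ {r | Cap c (cm r R') (Pi.single 0 1) g} from hr),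
          indicator_of_notMem]
        change ¬ Cap c (B + Matrix.of (Fin.cons r R : Fin (n + 1) → Fin (n + 1) → ℝ)) _ _
        rw [add_cons]; exact hr
    have h3 := rows R' (B 0) hc (Ph_ne_top n (θ * lo c s (nsq R)))
      (hHQ _ (lo_nonneg _ _ _) (lo_le_sq hs)) (fun d hd => lo_le hc B hB R d hd)
    rw [h1]
    set Φ := Ph n (θ * lo c s (nsq R)) with hΦ
    have hΦ1 : 1 ≤ Φ := one_le_Ph n (mul_nonneg hθ (lo_nonneg _ _ _))
    have hΦ0 : Φ ≠ 0 := (zero_lt_one.trans_le hΦ1).ne'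
    have hΦt : Φ ≠ ⊤ := Ph_ne_top _ _
    have hw : Φ⁻¹ = wt n θ c s (nsq R) := rfl
    calc ∫⁻ r, ENNReal.ofReal (phi (r - B 0)) *
          {r | Reg c T (cm r R') (Pi.single 0 1)}.indicator 1 r =
        Φ⁻¹ * (Φ * ∫⁻ r, ENNReal.ofReal (phi (r - B 0)) *
          {r | Reg c T (cm r R') (Pi.single 0 1)}.indicator 1 r) := by
          rw [← mul_assoc, ENNReal.inv_mul_cancel hΦ0 hΦt, one_mul]
      _ ≤ Φ⁻¹ * (ENNReal.ofReal (T / c) * ∫⁻ g, ENNReal.ofReal (√(g ⬝ᵥ g)) *
          (∫⁻ r, ENNReal.ofReal (phi (r - B 0)) *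
          {r | Cap c (cm r R') (Pi.single 0 1) g}.indicator 1 r) ∂(gam (Fin (n + 1)))) := by
          gcongr
      _ = ENNReal.ofReal (T / c) * ∫⁻ g, ENNReal.ofReal (√(g ⬝ᵥ g)) *
          (∫⁻ r, Φ⁻¹ * {G | Cap c (B + Matrix.of G) (Pi.single 0 1) g}.indicator (1 : (Fin (n + 1) → Fin (n + 1) → ℝ) → ℝ≥0∞)
          (Fin.cons r R : Fin (n + 1) → Fin (n + 1) → ℝ) ∂(gam (Fin (n + 1))))
          ∂(gam (Fin (n + 1))) := by
          rw [mul_left_comm]
          congr 1
          have hinv : Φ⁻¹ ≠ ⊤ := ENNReal.inv_ne_top.mpr hΦ0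
          rw [← lintegral_const_mul' _ _ hinv]
          apply lintegral_congr
          intro g
          rw [lintegral_const_mul' _ _ hinv, h2 g]
          ring
      _ ≤ _ := by
          apply mul_le_mul_right
          apply lintegral_mono
          intro g
          apply mul_le_mul_right
          apply lintegral_mono
          intro r
          simp only
          apply mul_le_mul_left
          rw [hw]
          apply wt_mono hθ
          rw [nsq_cons]
          linarith [dot_self_nonneg r]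
  refine (lintegral_mono key).trans ?_
  rw [lintegral_const_mul' _ _ ENNReal.ofReal_ne_top]
  apply mul_le_mul_right
  rw [lintegral_lintegral_swap]
  · apply lintegral_mono
    intro g
    simp only
    rw [lintegral_const_mul' _ _ ENNReal.ofReal_ne_top]
  · apply Measurable.aemeasurable
    unfold Function.uncurry
    simp only
    apply Measurable.mul
    · exact ((measurable_dot.comp measurable_snd).sqrt).ennreal_ofReal
    · apply Measurable.lintegral_prod_right' (f := fun q : ((Fin n → Fin (n + 1) → ℝ) ×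
        (Fin (n + 1) → ℝ)) × (Fin (n + 1) → ℝ) =>
        wt n θ c s (nsq (Fin.cons q.2 q.1.1 : Fin (n + 1) → Fin (n + 1) → ℝ)) *
          {G | Cap c (B + Matrix.of G) (Pi.single 0 1) q.1.2}.indicator (1 : (Fin (n + 1) → Fin (n + 1) → ℝ) → ℝ≥0∞)
          (Fin.cons q.2 q.1.1 : Fin (n + 1) → Fin (n + 1) → ℝ))
      have hmc : Measurable (fun q : ((Fin n → Fin (n + 1) → ℝ) ×
        (Fin (n + 1) → ℝ)) × (Fin (n + 1) → ℝ) =>
        (Fin.cons q.2 q.1.1 : Fin (n + 1) → Fin (n + 1) → ℝ)) :=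
        measurable_cons2.comp ((measurable_fst.comp measurable_fst).prodMk measurable_snd)
      apply Measurable.mul
      · exact ((measurable_wt hθ).comp measurable_nsq).comp hmc
      · have hms := meas_cap_add B hmc (measurable_const (a := (Pi.single 0 1 : Fin (n + 1) → ℝ)))
          (measurable_snd.comp (measurable_fst (α := (Fin n → Fin (n + 1) → ℝ) ×
            (Fin (n + 1) → ℝ)) (β := Fin (n + 1) → ℝ))) c
        exact measurable_one.indicator hms

end Pool.Agent.SSZ
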