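import Pool.Agent.Lib.SSZ.Main2

/-! All directions, and the integration over the direction. -/

set_option autoImplicit false

open MeasureTheory ProbabilityTheory Matrix Set
open scoped ENNReal

namespace Pool.Agent.SSZ

open Pool.Agent.Lib.MP_da621d_pr (gam gam2 phi c0 gam_eq phi_eq measurable_phi tr measurable_tr
  map_tr_gam2 phi_pos c0_pos)

variable {n : ℕ}

theorem rot_bound {s : ℝ} {O : Matrix (Fin (n + 1)) (Fin (n + 1)) ℝ}
    (hO : O ∈ Matrix.orthogonalGroup (Fin (n + 1)) ℝ) (B : Matrix (Fin (n + 1)) (Fin (n + 1)) ℝ)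
    (hB : ∀ y, s ^ 2 * (y ⬝ᵥ y) ≤ (y ᵥ* B) ⬝ᵥ (y ᵥ* B)) (y : Fin (n + 1) → ℝ) :
    s ^ 2 * (y ⬝ᵥ y) ≤ (y ᵥ* (O * B)) ⬝ᵥ (y ᵥ* (O * B)) := by
  have h1 := hB (y ᵥ* O)
  have hO' : Oᵀ ∈ Matrix.orthogonalGroup (Fin (n + 1)) ℝ := by
    rw [Matrix.mem_orthogonalGroup_iff, transpose_transpose]
    exact (Matrix.mem_orthogonalGroup_iff' (Fin (n + 1)) ℝ).mp hO
  have h2 : (y ᵥ* O) ⬝ᵥ (y ᵥ* O) = y ⬝ᵥ y := by
    rw [← mulVec_transpose, orth_dot hO']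
  rw [h2, vecMul_vecMul] at h1
  exact h1

theorem main_h {θ c s T : ℝ} (hθ : 0 ≤ θ) (hc : 0 < c) (hs : 0 ≤ s)
    (hHQ : ∀ q, 0 ≤ q → q ≤ s ^ 2 → HQ n (T / c) q (Ph n (θ * q)))
    (B : Matrix (Fin (n + 1)) (Fin (n + 1)) ℝ)
    (hB : ∀ y, s ^ 2 * (y ⬝ᵥ y) ≤ (y ᵥ* B) ⬝ᵥ (y ᵥ* B)) (h : Fin (n + 1) → ℝ)
    (hh : 0 < h ⬝ᵥ h) :
    ∫⁻ G, {G | Reg c T (B + Matrix.of G) h}.indicator 1 G
        ∂(gam2 (Fin (n + 1)) (Fin (n + 1))) ≤
      ENNReal.ofReal (T / c) * ∫⁻ g, ENNReal.ofReal (√(g ⬝ᵥ g)) *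
        (∫⁻ G, wt n θ c s (nsq G) * {G | Cap c (B + Matrix.of G) h g}.indicator 1 G
          ∂(gam2 (Fin (n + 1)) (Fin (n + 1)))) ∂(gam (Fin (n + 1))) := by
  obtain ⟨O, hO, hOh⟩ := exists_orth h
  have ht : √(h ⬝ᵥ h) ≠ 0 := (Real.sqrt_pos.mpr hh).ne'
  have hadd : ∀ G : Fin (n + 1) → Fin (n + 1) → ℝ,
      O * B + Matrix.of (fun i j => (O * Matrix.of G) i j) = O * (B + Matrix.of G) := by
    intro G
    rw [Matrix.mul_add]
    rfl
  have h1 : ∫⁻ G, {G | Reg c T (B + Matrix.of G) h}.indicator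
      (1 : (Fin (n + 1) → Fin (n + 1) → ℝ) → ℝ≥0∞) G ∂(gam2 (Fin (n + 1)) (Fin (n + 1))) =
      ∫⁻ G, {G | Reg c T (O * B + Matrix.of G) (Pi.single 0 1)}.indicator
      (1 : (Fin (n + 1) → Fin (n + 1) → ℝ) → ℝ≥0∞) G
        ∂(gam2 (Fin (n + 1)) (Fin (n + 1))) := by
    rw [← (gam2_left O hO).lintegral_comp (f := fun G =>
      {G | Reg c T (O * B + Matrix.of G) (Pi.single 0 1)}.indicator
      (1 : (Fin (n + 1) → Fin (n + 1) → ℝ) → ℝ≥0∞) G)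
      (measurable_one.indicator (meas_reg_add (O * B) measurable_id measurable_const c T))]
    apply lintegral_congr
    intro G
    have e1 : Reg c T (O * B + Matrix.of (fun i j => (O * Matrix.of G) i j)) (Pi.single 0 1) ↔
        Reg c T (B + Matrix.of G) h := by
      rw [hadd G, ← reg_smul c T _ (Pi.single 0 1) ht, ← hOh, reg_rot hO]
    by_cases hr : Reg c T (B + Matrix.of G) h
    · rw [indicator_of_mem (show G ∈ {G | Reg c T (B + Matrix.of G) h} from hr),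
        indicator_of_mem (show (fun i j => (O * Matrix.of G) i j) ∈
          {G | Reg c T (O * B + Matrix.of G) (Pi.single 0 1)} from e1.mpr hr)]
      rfl
    · rw [indicator_of_notMem (show G ∉ {G | Reg c T (B + Matrix.of G) h} from hr),
        indicator_of_notMem (show (fun i j => (O * Matrix.of G) i j) ∉
          {G | Reg c T (O * B + Matrix.of G) (Pi.single 0 1)} from fun hh => hr (e1.mp hh))]
  have h2 : ∀ g : Fin (n + 1) → ℝ, ∫⁻ G, wt n θ c s (nsq G) *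
      {G | Cap c (B + Matrix.of G) h g}.indicator
      (1 : (Fin (n + 1) → Fin (n + 1) → ℝ) → ℝ≥0∞) G ∂(gam2 (Fin (n + 1)) (Fin (n + 1))) =
      ∫⁻ G, wt n θ c s (nsq G) * {G | Cap c (O * B + Matrix.of G) (Pi.single 0 1) g}.indicator
      (1 : (Fin (n + 1) → Fin (n + 1) → ℝ) → ℝ≥0∞) G
        ∂(gam2 (Fin (n + 1)) (Fin (n + 1))) := by
    intro g
    rw [← (gam2_left O hO).lintegral_comp (f := fun G => wt n θ c s (nsq G) *
      {G | Cap c (O * B + Matrix.of G) (Pi.single 0 1) g}.indicator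
      (1 : (Fin (n + 1) → Fin (n + 1) → ℝ) → ℝ≥0∞) G)
      (((measurable_wt hθ).comp measurable_nsq).mul (measurable_one.indicator
        (meas_cap_add (O * B) measurable_id measurable_const measurable_const c)))]
    apply lintegral_congr
    intro G
    have e1 : Cap c (O * B + Matrix.of (fun i j => (O * Matrix.of G) i j)) (Pi.single 0 1) g ↔
        Cap c (B + Matrix.of G) h g := by
      rw [hadd G, ← cap_smul c _ (Pi.single 0 1) g ht, ← hOh, cap_rot hO]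
    rw [nsq_rot hO]
    by_cases hr : Cap c (B + Matrix.of G) h g
    · rw [indicator_of_mem (show G ∈ {G | Cap c (B + Matrix.of G) h g} from hr),
        indicator_of_mem (show (fun i j => (O * Matrix.of G) i j) ∈
          {G | Cap c (O * B + Matrix.of G) (Pi.single 0 1) g} from e1.mpr hr)]
      rfl
    · rw [indicator_of_notMem (show G ∉ {G | Cap c (B + Matrix.of G) h g} from hr),
        indicator_of_notMem (show (fun i j => (O * Matrix.of G) i j) ∉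
          {G | Cap c (O * B + Matrix.of G) (Pi.single 0 1) g} from fun hh => hr (e1.mp hh))]
  rw [h1]
  simp_rw [h2]
  exact main_e0 hθ hc hs hHQ (O * B) (rot_bound hO B hB)

/-- probability of a cap -/
noncomputable def kap (n : ℕ) (c : ℝ) : ℝ≥0∞ :=
  gam (Fin (n + 1)) {h | c ^ 2 * (h ⬝ᵥ h) ≤ (h 0) ^ 2}

theorem kap_eq (c : ℝ) (u : Fin (n + 1) → ℝ) (hu : 0 < u ⬝ᵥ u) :
    gam (Fin (n + 1)) {h | c ^ 2 * (h ⬝ᵥ h) * (u ⬝ᵥ u) ≤ (h ⬝ᵥ u) ^ 2} = kap n c := by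
  obtain ⟨O, hO, hOu⟩ := exists_orth' u
  have hm : MeasurableSet {h : Fin (n + 1) → ℝ | c ^ 2 * (h ⬝ᵥ h) ≤ (h 0) ^ 2} :=
    measurableSet_le (measurable_dot.const_mul _) ((measurable_pi_apply 0).pow_const 2)
  rw [kap, ← (gam_orth O hO).measure_preimage hm.nullMeasurableSet]
  congr 1
  ext h
  change c ^ 2 * (h ⬝ᵥ h) * (u ⬝ᵥ u) ≤ (h ⬝ᵥ u) ^ 2 ↔
    c ^ 2 * ((O *ᵥ h) ⬝ᵥ (O *ᵥ h)) ≤ ((O *ᵥ h) 0) ^ 2
  rw [orth_dot hO, dotProduct_comm h u, hOu h, mul_pow, Real.sq_sqrt hu.le, mul_comm (u ⬝ᵥ u),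
    mul_le_mul_iff_left₀ hu]

theorem kap_pos {c : ℝ} (hc : 0 < c) (hc1 : c < 1) : 0 < kap n c := by
  have hop : IsOpen {h : Fin (n + 1) → ℝ | c ^ 2 * (h ⬝ᵥ h) < (h 0) ^ 2} := by
    apply isOpen_lt
    · unfold dotProduct; fun_prop
    · fun_prop
  have hne : {h : Fin (n + 1) → ℝ | c ^ 2 * (h ⬝ᵥ h) < (h 0) ^ 2}.Nonempty := by
    refine ⟨Pi.single 0 1, ?_⟩
    change c ^ 2 * _ < _
    simp only [dotProduct_single, Pi.single_eq_same, mul_one, one_pow]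
    nlinarith
  have hg : (gaussianReal 0 1).IsOpenPosMeasure :=
    (gaussianReal_absolutelyContinuous' 0 (one_ne_zero)).isOpenPosMeasure
  have h1 : 0 < gam (Fin (n + 1)) {h : Fin (n + 1) → ℝ | c ^ 2 * (h ⬝ᵥ h) < (h 0) ^ 2} := by
    unfold gam
    exact hop.measure_pos _ hne
  refine h1.trans_le (measure_mono ?_)
  intro h hh
  exact le_of_lt (show c ^ 2 * (h ⬝ᵥ h) < (h 0) ^ 2 from hh)

theorem kap_ne_top (c : ℝ) : kap n c ≠ ⊤ := measure_ne_top _ _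

theorem cap_le (c : ℝ) (M : Matrix (Fin (n + 1)) (Fin (n + 1)) ℝ) (g : Fin (n + 1) → ℝ) :
    gam (Fin (n + 1)) {h | Cap c M h g} ≤ kap n c := by
  by_cases hy : 0 < (g ᵥ* M⁻¹) ⬝ᵥ (g ᵥ* M⁻¹)
  · rw [← kap_eq c _ hy]
    apply measure_mono
    intro h hh
    exact (show Cap c M h g from hh).2
  · have : {h | Cap c M h g} = ∅ := by
      ext h
      constructor
      · intro hh; exact absurd (show Cap c M h g from hh).1 hy
      · intro hh; exact absurd hh (by simp)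
    rw [this, measure_empty]
    exact zero_le

theorem reg_ge (c T : ℝ) (M : Matrix (Fin (n + 1)) (Fin (n + 1)) ℝ)
    (v : Fin (n + 1) → ℝ) (hv : v ⬝ᵥ v ≤ 1) (hx : 1 ≤ T ^ 2 * ((M⁻¹ *ᵥ v) ⬝ᵥ (M⁻¹ *ᵥ v))) :
    kap n c ≤ gam (Fin (n + 1)) {h | Reg c T M h} := by
  obtain ⟨u, hu, h1⟩ := det_i M T v hv hx
  rw [← kap_eq c u (by rw [hu]; norm_num)]
  apply measure_mono
  intro h hh
  have h2 : c ^ 2 * (h ⬝ᵥ h) * (u ⬝ᵥ u) ≤ (h ⬝ᵥ u) ^ 2 := hh
  rw [hu, mul_one] at h2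
  exact h1 c h h2

theorem main_c {θ c s T : ℝ} (hθ : 0 ≤ θ) (hc : 0 < c) (hc1 : c < 1) (hs : 0 ≤ s)
    (hHQ : ∀ q, 0 ≤ q → q ≤ s ^ 2 → HQ n (T / c) q (Ph n (θ * q)))
    (B : Matrix (Fin (n + 1)) (Fin (n + 1)) ℝ)
    (hB : ∀ y, s ^ 2 * (y ⬝ᵥ y) ≤ (y ᵥ* B) ⬝ᵥ (y ᵥ* B)) :
    gam2 (Fin (n + 1)) (Fin (n + 1)) {G | ∃ v : Fin (n + 1) → ℝ, v ⬝ᵥ v ≤ 1 ∧
      1 ≤ T ^ 2 * (((B + Matrix.of G)⁻¹ *ᵥ v) ⬝ᵥ ((B + Matrix.of G)⁻¹ *ᵥ v))} ≤
    ENNReal.ofReal (T / c) * ((∫⁻ g, ENNReal.ofReal (√(g ⬝ᵥ g)) ∂(gam (Fin (n + 1)))) *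
      ∫⁻ G, wt n θ c s (nsq G) ∂(gam2 (Fin (n + 1)) (Fin (n + 1)))) := by
  set μ := gam2 (Fin (n + 1)) (Fin (n + 1)) with hμ
  set γ := gam (Fin (n + 1)) with hγ
  have hk0 : kap n c ≠ 0 := (kap_pos hc hc1).ne'
  have hkt : kap n c ≠ ⊤ := kap_ne_top c
  -- joint measurability
  have hjR : MeasurableSet {q : (Fin (n + 1) → Fin (n + 1) → ℝ) × (Fin (n + 1) → ℝ) |
      Reg c T (B + Matrix.of q.1) q.2} := meas_reg_add B measurable_fst measurable_snd c T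
  have hfm : Measurable (fun G : Fin (n + 1) → Fin (n + 1) → ℝ =>
      γ {h | Reg c T (B + Matrix.of G) h}) := measurable_measure_prodMk_left hjR
  have hE : μ {G | ∃ v : Fin (n + 1) → ℝ, v ⬝ᵥ v ≤ 1 ∧
      1 ≤ T ^ 2 * (((B + Matrix.of G)⁻¹ *ᵥ v) ⬝ᵥ ((B + Matrix.of G)⁻¹ *ᵥ v))} ≤
      μ {G | kap n c ≤ γ {h | Reg c T (B + Matrix.of G) h}} := by
    apply measure_mono
    rintro G ⟨v, hv, hx⟩
    exact reg_ge c T _ v hv hx
  have h1 : kap n c * μ {G | ∃ v : Fin (n + 1) → ℝ, v ⬝ᵥ v ≤ 1 ∧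
      1 ≤ T ^ 2 * (((B + Matrix.of G)⁻¹ *ᵥ v) ⬝ᵥ ((B + Matrix.of G)⁻¹ *ᵥ v))} ≤
      ∫⁻ G, γ {h | Reg c T (B + Matrix.of G) h} ∂μ :=
    (mul_le_mul_right hE _).trans (mul_meas_ge_le_lintegral hfm _)
  have h2 : ∫⁻ G, γ {h | Reg c T (B + Matrix.of G) h} ∂μ =
      ∫⁻ h, ∫⁻ G, {G | Reg c T (B + Matrix.of G) h}.indicator 1 G ∂μ ∂γ := by
    have e1 : ∫⁻ G, γ {h | Reg c T (B + Matrix.of G) h} ∂μ =
        ∫⁻ G, ∫⁻ h, {q : (Fin (n + 1) → Fin (n + 1) → ℝ) × (Fin (n + 1) → ℝ) |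
          Reg c T (B + Matrix.of q.1) q.2}.indicator 1 (G, h) ∂γ ∂μ := by
      apply lintegral_congr
      intro G
      have hms : MeasurableSet {h | Reg c T (B + Matrix.of G) h} :=
        meas_reg_add B measurable_const measurable_id c T
      rw [← lintegral_indicator_one hms]
      rfl
    rw [e1, lintegral_lintegral_swap (μ := μ) (ν := γ)
      (f := fun G h => {q : (Fin (n + 1) → Fin (n + 1) → ℝ) × (Fin (n + 1) → ℝ) |
          Reg c T (B + Matrix.of q.1) q.2}.indicator 1 (G, h))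
      (measurable_one.indicator hjR).aemeasurable]
    rfl
  have hjC : MeasurableSet {q : ((Fin (n + 1) → ℝ) × (Fin (n + 1) → ℝ)) ×
      (Fin (n + 1) → Fin (n + 1) → ℝ) | Cap c (B + Matrix.of q.2) q.1.1 q.1.2} :=
    meas_cap_add B measurable_snd (measurable_fst.comp measurable_fst)
      (measurable_snd.comp measurable_fst) c
  have h3 : ∫⁻ h, ∫⁻ G, {G | Reg c T (B + Matrix.of G) h}.indicator 1 G ∂μ ∂γ ≤
      ∫⁻ h, ENNReal.ofReal (T / c) * ∫⁻ g, ENNReal.ofReal (√(g ⬝ᵥ g)) *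
        (∫⁻ G, wt n θ c s (nsq G) * {G | Cap c (B + Matrix.of G) h g}.indicator 1 G
          ∂μ) ∂γ ∂γ := by
    apply lintegral_mono_ae
    filter_upwards [ae_dot_pos (n := n)] with h hh
    exact main_h hθ hc hs hHQ B hB h hh
  have h4 : ∫⁻ h, ENNReal.ofReal (T / c) * ∫⁻ g, ENNReal.ofReal (√(g ⬝ᵥ g)) *
        (∫⁻ G, wt n θ c s (nsq G) * {G | Cap c (B + Matrix.of G) h g}.indicator 1 G
          ∂μ) ∂γ ∂γ =
      ENNReal.ofReal (T / c) * ∫⁻ g, ENNReal.ofReal (√(g ⬝ᵥ g)) *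
        (∫⁻ G, wt n θ c s (nsq G) * γ {h | Cap c (B + Matrix.of G) h g} ∂μ) ∂γ := by
    have hmm : Measurable (fun q : ((Fin (n + 1) → ℝ) × (Fin (n + 1) → ℝ)) ×
        (Fin (n + 1) → Fin (n + 1) → ℝ) => wt n θ c s (nsq q.2) *
        {q : ((Fin (n + 1) → ℝ) × (Fin (n + 1) → ℝ)) ×
          (Fin (n + 1) → Fin (n + 1) → ℝ) | Cap c (B + Matrix.of q.2) q.1.1 q.1.2}.indicator
          1 q) :=
      (((measurable_wt hθ).comp measurable_nsq).comp measurable_snd).mul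
        (measurable_one.indicator hjC)
    have hmm2 : Measurable (Function.uncurry (fun h g : Fin (n + 1) → ℝ =>
        ENNReal.ofReal (√(g ⬝ᵥ g)) *
        (∫⁻ G, wt n θ c s (nsq G) * {G | Cap c (B + Matrix.of G) h g}.indicator 1 G
          ∂μ))) := by
      unfold Function.uncurry
      simp only
      apply Measurable.mul
      · exact ((measurable_dot.comp measurable_snd).sqrt).ennreal_ofReal
      · exact Measurable.lintegral_prod_right' hmm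
    rw [lintegral_const_mul' _ _ ENNReal.ofReal_ne_top]
    congr 1
    rw [lintegral_lintegral_swap hmm2.aemeasurable]
    apply lintegral_congr
    intro g
    rw [lintegral_const_mul' _ _ ENNReal.ofReal_ne_top]
    congr 1
    have hmm3 : Measurable (Function.uncurry (fun (h : Fin (n + 1) → ℝ)
        (G : Fin (n + 1) → Fin (n + 1) → ℝ) => wt n θ c s (nsq G) *
        {G | Cap c (B + Matrix.of G) h g}.indicator
          (1 : (Fin (n + 1) → Fin (n + 1) → ℝ) → ℝ≥0∞) G)) := by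
      have h7 : MeasurableSet {q : (Fin (n + 1) → ℝ) × (Fin (n + 1) → Fin (n + 1) → ℝ) |
          Cap c (B + Matrix.of q.2) q.1 g} :=
        meas_cap_add B measurable_snd measurable_fst measurable_const c
      exact (((measurable_wt hθ).comp measurable_nsq).comp measurable_snd).mul
        (measurable_one.indicator h7)
    rw [lintegral_lintegral_swap hmm3.aemeasurable]
    apply lintegral_congr
    intro G
    have hwt : wt n θ c s (nsq G) ≠ ⊤ := ne_top_of_le_ne_top ENNReal.one_ne_top (wt_le_one hθ)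
    rw [lintegral_const_mul' _ _ hwt]
    congr 1
    have hms : MeasurableSet {h | Cap c (B + Matrix.of G) h g} :=
      meas_cap_add B measurable_const measurable_id measurable_const c
    rw [← lintegral_indicator_one hms]
    rfl
  have h5 : ∫⁻ g, ENNReal.ofReal (√(g ⬝ᵥ g)) *
        (∫⁻ G, wt n θ c s (nsq G) * γ {h | Cap c (B + Matrix.of G) h g} ∂μ) ∂γ ≤
      kap n c * ((∫⁻ g, ENNReal.ofReal (√(g ⬝ᵥ g)) ∂γ) * ∫⁻ G, wt n θ c s (nsq G) ∂μ) := by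
    calc ∫⁻ g, ENNReal.ofReal (√(g ⬝ᵥ g)) *
        (∫⁻ G, wt n θ c s (nsq G) * γ {h | Cap c (B + Matrix.of G) h g} ∂μ) ∂γ ≤
        ∫⁻ g, ENNReal.ofReal (√(g ⬝ᵥ g)) * (∫⁻ G, wt n θ c s (nsq G) * kap n c ∂μ) ∂γ := by
          apply lintegral_mono
          intro g
          apply mul_le_mul_right
          apply lintegral_mono
          intro G
          apply mul_le_mul_right
          exact cap_le c _ g
      _ = _ := by
          have hIt : (∫⁻ G, wt n θ c s (nsq G) * kap n c ∂μ) ≠ ⊤ := by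
            rw [lintegral_mul_const' _ _ hkt]
            apply ENNReal.mul_ne_top _ hkt
            have : ∫⁻ G, wt n θ c s (nsq G) ∂μ ≤ ∫⁻ _, 1 ∂μ := lintegral_mono fun _ =>
              wt_le_one hθ
            refine ne_top_of_le_ne_top ?_ this
            simp [hμ]
          rw [lintegral_mul_const' _ _ hIt, lintegral_mul_const' _ _ hkt]
          ring
  have h6 : kap n c * μ {G | ∃ v : Fin (n + 1) → ℝ, v ⬝ᵥ v ≤ 1 ∧
      1 ≤ T ^ 2 * (((B + Matrix.of G)⁻¹ *ᵥ v) ⬝ᵥ ((B + Matrix.of G)⁻¹ *ᵥ v))} ≤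
      kap n c * (ENNReal.ofReal (T / c) * ((∫⁻ g, ENNReal.ofReal (√(g ⬝ᵥ g)) ∂γ) *
        ∫⁻ G, wt n θ c s (nsq G) ∂μ)) := by
    calc _ ≤ _ := h1
      _ = _ := h2
      _ ≤ _ := h3
      _ = _ := h4
      _ ≤ ENNReal.ofReal (T / c) * (kap n c * ((∫⁻ g, ENNReal.ofReal (√(g ⬝ᵥ g)) ∂γ) *
          ∫⁻ G, wt n θ c s (nsq G) ∂μ)) := mul_le_mul_right h5 _
      _ = _ := by ring
  exact (ENNReal.mul_le_mul_iff_right hk0 hkt).mp h6

end Pool.Agent.SSZ
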