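import Pool.Agent.Lib.SSZ.Main3
import Pool.Agent.Lib.MP_da621d_pr.Sym

/-! The limit of small caps, and the statement for the smallest singular value. -/

set_option autoImplicit false

open MeasureTheory ProbabilityTheory Matrix Set Filter Topology
open scoped ENNReal

namespace Pool.Agent.SSZ

open Pool.Agent.Lib.MP_da621d_pr (gam gam2 phi c0 gam_eq gam2_eq phi_eq measurable_phi tr
  measurable_tr map_tr_gam2 phi_pos c0_pos volume_dt_zero dt)

variable {n : ℕ}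

theorem continuous_Ph (n : ℕ) : Continuous (Ph n) := by
  rw [continuous_iff_continuousAt]
  intro t0
  have hexp : Tendsto (fun t : ℝ => ENNReal.ofReal (Real.exp (|t - t0| / 2)) * Ph n t0) (𝓝 t0)
      (𝓝 (Ph n t0)) := by
    have h1 : Tendsto (fun t : ℝ => ENNReal.ofReal (Real.exp (|t - t0| / 2))) (𝓝 t0)
        (𝓝 (ENNReal.ofReal (Real.exp (|t0 - t0| / 2)))) := by
      apply ENNReal.tendsto_ofReal
      apply Continuous.tendsto
      fun_prop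
    have h2 := ENNReal.Tendsto.mul_const (b := Ph n t0) h1 (Or.inr (Ph_ne_top n t0))
    simpa using h2
  have hexp' : Tendsto (fun t : ℝ => ENNReal.ofReal (Real.exp (-(|t - t0| / 2))) * Ph n t0) (𝓝 t0)
      (𝓝 (Ph n t0)) := by
    have h1 : Tendsto (fun t : ℝ => ENNReal.ofReal (Real.exp (-(|t - t0| / 2)))) (𝓝 t0)
        (𝓝 (ENNReal.ofReal (Real.exp (-(|t0 - t0| / 2))))) := by
      apply ENNReal.tendsto_ofReal
      apply Continuous.tendsto
      fun_prop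
    have h2 := ENNReal.Tendsto.mul_const (b := Ph n t0) h1 (Or.inr (Ph_ne_top n t0))
    simpa using h2
  have hgen : ∀ a b : ℝ, Ph n a ≤ ENNReal.ofReal (Real.exp (|a - b| / 2)) * Ph n b := by
    intro a b
    rcases le_total b a with h | h
    · have := Ph_le n h
      rwa [abs_of_nonneg (sub_nonneg.mpr h)]
    · refine (Ph_mono n h).trans ?_
      apply le_mul_of_one_le_left zero_le
      rw [ENNReal.one_le_ofReal]
      apply Real.one_le_exp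
      positivity
  refine tendsto_of_tendsto_of_tendsto_of_le_of_le hexp' hexp ?_ ?_
  · intro t
    have h1 := hgen t0 t
    rw [abs_sub_comm] at h1
    calc ENNReal.ofReal (Real.exp (-(|t - t0| / 2))) * Ph n t0 ≤
        ENNReal.ofReal (Real.exp (-(|t - t0| / 2))) *
          (ENNReal.ofReal (Real.exp (|t - t0| / 2)) * Ph n t) := by gcongr
      _ = Ph n t := by
        rw [← mul_assoc, ← ENNReal.ofReal_mul (Real.exp_pos _).le, ← Real.exp_add]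
        simp
  · intro t
    exact hgen t t0

theorem main_lim {θ s T : ℝ} (hθ : 0 ≤ θ) (hs : 0 ≤ s) (hT : 0 < T)
    (hHQ : ∀ c : ℕ → ℝ, (∀ k, 0 < c k) → Tendsto c atTop (𝓝 1) →
      ∀ᶠ k in atTop, ∀ q, 0 ≤ q → q ≤ s ^ 2 → HQ n (T / c k) q (Ph n (θ * q)))
    (B : Matrix (Fin (n + 1)) (Fin (n + 1)) ℝ)
    (hB : ∀ y, s ^ 2 * (y ⬝ᵥ y) ≤ (y ᵥ* B) ⬝ᵥ (y ᵥ* B)) :
    gam2 (Fin (n + 1)) (Fin (n + 1)) {G | ∃ v : Fin (n + 1) → ℝ, v ⬝ᵥ v ≤ 1 ∧
      1 ≤ T ^ 2 * (((B + Matrix.of G)⁻¹ *ᵥ v) ⬝ᵥ ((B + Matrix.of G)⁻¹ *ᵥ v))} ≤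
    ENNReal.ofReal T * ((∫⁻ g, ENNReal.ofReal (√(g ⬝ᵥ g)) ∂(gam (Fin (n + 1)))) *
      (Ph n (θ * s ^ 2))⁻¹) := by
  set μ := gam2 (Fin (n + 1)) (Fin (n + 1)) with hμ
  set c : ℕ → ℝ := fun k => 1 - 1 / ((k : ℝ) + 2) with hc
  have hc0 : ∀ k, 0 < c k := by
    intro k
    have : (1 : ℝ) / ((k : ℝ) + 2) < 1 := by
      rw [div_lt_one (by positivity)]
      have := (Nat.cast_nonneg k : (0 : ℝ) ≤ k)
      linarith
    simp only [hc]; linarith
  have hc1 : ∀ k, c k < 1 := by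
    intro k
    have : (0 : ℝ) < 1 / ((k : ℝ) + 2) := by positivity
    simp only [hc]; linarith
  have hclim : Tendsto c atTop (𝓝 1) := by
    have h1 : Tendsto (fun k : ℕ => 1 / ((k : ℝ) + 2)) atTop (𝓝 0) := by
      have h2 := (tendsto_one_div_add_atTop_nhds_zero_nat (𝕜 := ℝ)).comp (tendsto_add_atTop_nat 1)
      refine h2.congr fun k => ?_
      simp only [Function.comp_apply]
      push_cast
      ring_nf
    have h3 := h1.const_sub 1
    rw [sub_zero] at h3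
    exact h3
  have hwt : ∀ x : ℝ, Tendsto (fun k => wt n θ (c k) s x) atTop
      (𝓝 (Ph n (θ * s ^ 2))⁻¹) := by
    intro x
    unfold wt
    apply tendsto_inv_iff.mpr
    have h1 : Tendsto (fun k => lo (c k) s x) atTop (𝓝 (lo 1 s x)) := by
      have h2 : ContinuousAt (fun a : ℝ => s - √(1 / a ^ 2 - 1) * √x) 1 := by
        apply ContinuousAt.sub continuousAt_const
        apply ContinuousAt.mul _ continuousAt_const
        apply ContinuousAt.sqrt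
        apply ContinuousAt.sub _ continuousAt_const
        apply ContinuousAt.div continuousAt_const (by fun_prop) (by norm_num)
      unfold lo
      exact (((h2.tendsto.comp hclim).max tendsto_const_nhds).pow 2)
    have h3 : lo 1 s x = s ^ 2 := by
      unfold lo
      simp [hs]
    rw [h3] at h1
    exact ((continuous_Ph n).tendsto _).comp (h1.const_mul _)
  have hI : Tendsto (fun k => ∫⁻ G, wt n θ (c k) s (nsq G) ∂μ) atTop
      (𝓝 (∫⁻ _, (Ph n (θ * s ^ 2))⁻¹ ∂μ)) := by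
    apply tendsto_lintegral_of_dominated_convergence (fun _ => 1)
    · intro k
      exact (measurable_wt hθ).comp measurable_nsq
    · intro k
      exact ae_of_all _ fun G => wt_le_one hθ
    · simp [hμ]
    · exact ae_of_all _ fun G => hwt (nsq G)
  rw [lintegral_const, measure_univ, mul_one] at hI
  have hTt : Tendsto (fun k => ENNReal.ofReal (T / c k)) atTop (𝓝 (ENNReal.ofReal T)) := by
    apply ENNReal.tendsto_ofReal
    have h1 := hclim.inv₀ one_ne_zero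
    have h2 := h1.const_mul T
    simpa [div_eq_mul_inv] using h2
  have hT0 : ENNReal.ofReal T ≠ 0 := (ENNReal.ofReal_pos.mpr hT).ne'
  have hlim : Tendsto (fun k => ENNReal.ofReal (T / c k) *
      ((∫⁻ g, ENNReal.ofReal (√(g ⬝ᵥ g)) ∂(gam (Fin (n + 1)))) *
        ∫⁻ G, wt n θ (c k) s (nsq G) ∂μ)) atTop
      (𝓝 (ENNReal.ofReal T * ((∫⁻ g, ENNReal.ofReal (√(g ⬝ᵥ g)) ∂(gam (Fin (n + 1)))) *
      (Ph n (θ * s ^ 2))⁻¹))) := by
    apply ENNReal.Tendsto.mul hTt (Or.inl hT0) _ (Or.inr ENNReal.ofReal_ne_top)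
    exact ENNReal.Tendsto.const_mul hI (Or.inl (ENNReal.inv_ne_zero.mpr (Ph_ne_top _ _)))
  apply ge_of_tendsto hlim
  filter_upwards [hHQ c hc0 hclim] with k hk
  exact main_c hθ (hc0 k) (hc1 k) hs hk B hB

theorem ev_one {s T : ℝ} (hT : 0 < T) (hTn : T ^ 2 * (n + 1 : ℕ) < 1) (c : ℕ → ℝ)
    (hc0 : ∀ k, 0 < c k) (hclim : Tendsto c atTop (𝓝 1)) :
    ∀ᶠ k in atTop, ∀ q, 0 ≤ q → q ≤ s ^ 2 →
      HQ n (T / c k) q (Ph n ((1 - 1 / (n + 1 : ℕ)) * q)) := by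
  have h1 : Tendsto (fun k => (T / c k) ^ 2 * (n + 1 : ℕ)) atTop
      (𝓝 ((T / 1) ^ 2 * (n + 1 : ℕ))) := by
    have h2 := hclim.inv₀ one_ne_zero
    have h3 := ((h2.const_mul T).pow 2).mul_const ((n + 1 : ℕ) : ℝ)
    simpa [div_eq_mul_inv] using h3
  rw [div_one] at h1
  filter_upwards [h1.eventually (gt_mem_nhds hTn)] with k hk q _ _
  exact HQ_one (div_pos hT (hc0 k)) hk.le

theorem ev_two {s T : ℝ} (hT : 0 < T) (hTn : T ^ 2 * ((n + 1 : ℕ) + 1 + s ^ 2) < 1) (c : ℕ → ℝ)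
    (hc0 : ∀ k, 0 < c k) (hclim : Tendsto c atTop (𝓝 1)) :
    ∀ᶠ k in atTop, ∀ q, 0 ≤ q → q ≤ s ^ 2 → HQ n (T / c k) q (Ph n (1 * q)) := by
  have h1 : Tendsto (fun k => (T / c k) ^ 2 * ((n + 1 : ℕ) + 1 + s ^ 2)) atTop
      (𝓝 ((T / 1) ^ 2 * ((n + 1 : ℕ) + 1 + s ^ 2))) := by
    have h2 := hclim.inv₀ one_ne_zero
    have h3 := ((h2.const_mul T).pow 2).mul_const (((n + 1 : ℕ) : ℝ) + 1 + s ^ 2)
    simpa [div_eq_mul_inv] using h3
  rw [div_one] at h1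
  filter_upwards [h1.eventually (gt_mem_nhds hTn)] with k hk q hq0 hq
  apply HQ_two (div_pos hT (hc0 k)) hq0
  refine le_trans ?_ hk.le
  apply mul_le_mul_of_nonneg_left _ (sq_nonneg _)
  linarith

theorem ae_det_ne_zero {m : ℕ} (B : Matrix (Fin m) (Fin m) ℝ) :
    gam2 (Fin m) (Fin m) {G | (B + Matrix.of G).det = 0} = 0 := by
  rw [gam2_eq]
  apply withDensity_absolutelyContinuous
  have h1 : {G : Fin m → Fin m → ℝ | (B + Matrix.of G).det = 0} =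
      (fun G : Fin m → Fin m → ℝ => (fun i j => B i j : Fin m → Fin m → ℝ) + G) ⁻¹'
        {G | dt G = 0} := rfl
  rw [h1, measure_preimage_add]
  exact volume_dt_zero m

/-- the statement for the smallest singular value, normalised -/
theorem main_sing {θ s T : ℝ} (hθ : 0 ≤ θ) (hs : 0 ≤ s) (hT : 0 < T)
    (hHQ : ∀ c : ℕ → ℝ, (∀ k, 0 < c k) → Tendsto c atTop (𝓝 1) →
      ∀ᶠ k in atTop, ∀ q, 0 ≤ q → q ≤ s ^ 2 → HQ n (T / c k) q (Ph n (θ * q)))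
    (B : Matrix (Fin (n + 1)) (Fin (n + 1)) ℝ)
    (hB : ∀ v, s ^ 2 * (v ⬝ᵥ v) ≤ (B *ᵥ v) ⬝ᵥ (B *ᵥ v)) :
    gam2 (Fin (n + 1)) (Fin (n + 1)) {G | ∃ u : Fin (n + 1) → ℝ, u ⬝ᵥ u = 1 ∧
      ((B + Matrix.of G) *ᵥ u) ⬝ᵥ ((B + Matrix.of G) *ᵥ u) ≤ T ^ 2} ≤
    ENNReal.ofReal T * ((∫⁻ g, ENNReal.ofReal (√(g ⬝ᵥ g)) ∂(gam (Fin (n + 1)))) *
      (Ph n (θ * s ^ 2))⁻¹) := by
  refine le_trans ?_ (main_lim hθ hs hT hHQ B (transpose_bound B s hB))
  set E := {G : Fin (n + 1) → Fin (n + 1) → ℝ | ∃ v : Fin (n + 1) → ℝ, v ⬝ᵥ v ≤ 1 ∧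
      1 ≤ T ^ 2 * (((B + Matrix.of G)⁻¹ *ᵥ v) ⬝ᵥ ((B + Matrix.of G)⁻¹ *ᵥ v))} with hE
  have hsub : {G : Fin (n + 1) → Fin (n + 1) → ℝ | ∃ u : Fin (n + 1) → ℝ, u ⬝ᵥ u = 1 ∧
      ((B + Matrix.of G) *ᵥ u) ⬝ᵥ ((B + Matrix.of G) *ᵥ u) ≤ T ^ 2} ⊆
      E ∪ {G | (B + Matrix.of G).det = 0} := by
    rintro G ⟨u, hu, hle⟩
    by_cases hd : (B + Matrix.of G).det = 0
    · exact Or.inr hd
    · refine Or.inl ⟨T⁻¹ • ((B + Matrix.of G) *ᵥ u), ?_, ?_⟩
      · rw [smul_dotProduct, dotProduct_smul, smul_eq_mul, smul_eq_mul]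
        have hT2 : 0 < T ^ 2 := by positivity
        calc T⁻¹ * (T⁻¹ * (((B + Matrix.of G) *ᵥ u) ⬝ᵥ ((B + Matrix.of G) *ᵥ u))) =
            (((B + Matrix.of G) *ᵥ u) ⬝ᵥ ((B + Matrix.of G) *ᵥ u)) / T ^ 2 := by
              field_simp
          _ ≤ 1 := (div_le_one hT2).mpr hle
      · rw [mulVec_smul, mulVec_mulVec,
          Matrix.nonsing_inv_mul _ (isUnit_iff_ne_zero.mpr hd), one_mulVec, smul_dotProduct,
          dotProduct_smul, smul_eq_mul, smul_eq_mul, hu]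
        apply le_of_eq
        field_simp
  calc _ ≤ _ := measure_mono hsub
    _ ≤ _ := measure_union_le _ _
    _ = _ := by rw [ae_det_ne_zero, add_zero]

end Pool.Agent.SSZ
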