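import Pool.Agent.Lib.SSZ.Det

/-! Measurability of the two conditions. -/

set_option autoImplicit false

open MeasureTheory ProbabilityTheory Matrix Set
open scoped ENNReal

namespace Pool.Agent.SSZ

theorem meas_inv_entry {d : ℕ} (i j : Fin d) :
    Measurable (fun G : Fin d → Fin d → ℝ => (Matrix.of G)⁻¹ i j) := by
  have h1 : (fun G : Fin d → Fin d → ℝ => (Matrix.of G)⁻¹ i j) =
      fun G => ((Matrix.of G).det)⁻¹ * (Matrix.adjugate (Matrix.of G)) i j := by
    ext G
    rw [Matrix.inv_def, Ring.inverse_eq_inv']
    rfl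
  have hof : Continuous (fun G : Fin d → Fin d → ℝ => Matrix.of G) := continuous_id
  rw [h1]
  apply Measurable.mul
  · exact (Continuous.matrix_det hof).measurable.inv
  · exact ((Continuous.matrix_adjugate hof).matrix_elem i j).measurable

variable {α : Type*} [MeasurableSpace α] {n : ℕ}

theorem meas_inv {M : α → Fin n → Fin n → ℝ} (hM : Measurable M) (i j : Fin n) :
    Measurable (fun a => (Matrix.of (M a))⁻¹ i j) :=
  (meas_inv_entry i j).comp hM

theorem meas_dot {x y : α → Fin n → ℝ} (hx : Measurable x) (hy : Measurable y) :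
    Measurable (fun a => x a ⬝ᵥ y a) := by
  unfold dotProduct
  apply Finset.measurable_sum
  intro i _
  exact ((measurable_pi_apply i).comp hx).mul ((measurable_pi_apply i).comp hy)

theorem meas_inv_mulVec {M : α → Fin n → Fin n → ℝ} (hM : Measurable M) {x : α → Fin n → ℝ}
    (hx : Measurable x) : Measurable (fun a => (Matrix.of (M a))⁻¹ *ᵥ x a) := by
  apply measurable_pi_lambda
  intro i
  unfold Matrix.mulVec dotProduct
  apply Finset.measurable_sum
  intro j _
  exact (meas_inv hM i j).mul ((measurable_pi_apply j).comp hx)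

theorem meas_vecMul_inv {M : α → Fin n → Fin n → ℝ} (hM : Measurable M) {x : α → Fin n → ℝ}
    (hx : Measurable x) : Measurable (fun a => x a ᵥ* (Matrix.of (M a))⁻¹) := by
  apply measurable_pi_lambda
  intro i
  unfold Matrix.vecMul dotProduct
  apply Finset.measurable_sum
  intro j _
  exact ((measurable_pi_apply j).comp hx).mul (meas_inv hM j i)

theorem meas_reg {M : α → Fin n → Fin n → ℝ} (hM : Measurable M) {h : α → Fin n → ℝ}
    (hh : Measurable h) (c T : ℝ) : MeasurableSet {a | Reg c T (Matrix.of (M a)) (h a)} := by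
  have h1 := meas_inv_mulVec hM hh
  have h2 := meas_vecMul_inv hM h1
  unfold Reg
  apply MeasurableSet.inter
  · exact measurableSet_le (((meas_dot hh hh).const_mul _).mul (meas_dot h2 h2))
      ((meas_dot h1 h1).pow_const 2)
  · exact measurableSet_le ((meas_dot hh hh).const_mul _) ((meas_dot h1 h1).const_mul _)

theorem meas_cap {M : α → Fin n → Fin n → ℝ} (hM : Measurable M) {h g : α → Fin n → ℝ}
    (hh : Measurable h) (hg : Measurable g) (c : ℝ) :
    MeasurableSet {a | Cap c (Matrix.of (M a)) (h a) (g a)} := by
  have h2 := meas_vecMul_inv hM hg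
  unfold Cap
  apply MeasurableSet.inter
  · exact measurableSet_lt measurable_const (meas_dot h2 h2)
  · exact measurableSet_le (((meas_dot hh hh).const_mul _).mul (meas_dot h2 h2))
      ((meas_dot hh h2).pow_const 2)

end Pool.Agent.SSZ
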