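import Pool.Agent.Lib.SSZ.Basic

/-! The spherical mean `Ph` and the lower bound for the rank-one Gaussian integral. -/

set_option autoImplicit false

open MeasureTheory ProbabilityTheory Matrix Set
open scoped ENNReal

namespace Pool.Agent.SSZ

open Pool.Agent.Lib.MP_da621d_pr (gam gam2 phi c0 gam_eq phi_eq measurable_phi tr measurable_tr
  map_tr_gam2 phi_pos c0_pos)

theorem cons_dot {n : ℕ} (u v : ℝ) (h k : Fin n → ℝ) :
    (Fin.cons u h : Fin (n + 1) → ℝ) ⬝ᵥ (Fin.cons v k : Fin (n + 1) → ℝ) = u * v + h ⬝ᵥ k := by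
  simp [dotProduct, Fin.sum_univ_succ]

theorem dot_self_nonneg {ι : Type*} [Fintype ι] (x : ι → ℝ) : 0 ≤ x ⬝ᵥ x :=
  Finset.sum_nonneg fun _ _ => mul_self_nonneg _

theorem orth_dot {ι : Type*} [Fintype ι] [DecidableEq ι] {O : Matrix ι ι ℝ}
    (hO : O ∈ Matrix.orthogonalGroup ι ℝ) (x y : ι → ℝ) : (O *ᵥ x) ⬝ᵥ (O *ᵥ y) = x ⬝ᵥ y := by
  have h1 : Oᵀ * O = 1 := (Matrix.mem_orthogonalGroup_iff' ι ℝ).mp hO
  rw [dotProduct_mulVec, vecMul_mulVec, h1, vecMul_one]

/-! ### the spherical mean -/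

/-- the quotient `z₀²/(2|z|²)` -/
noncomputable def qt {n : ℕ} (z : Fin (n + 2) → ℝ) : ℝ := z 0 ^ 2 / (2 * (z ⬝ᵥ z))

theorem qt_nonneg {n : ℕ} (z : Fin (n + 2) → ℝ) : 0 ≤ qt z := by
  have := dot_self_nonneg z
  unfold qt
  positivity

theorem sq_le_dot {ι : Type*} [Fintype ι] (z : ι → ℝ) (i : ι) : z i ^ 2 ≤ z ⬝ᵥ z := by
  rw [pow_two]
  exact Finset.single_le_sum (f := fun i => z i * z i) (fun i _ => mul_self_nonneg _)
    (Finset.mem_univ i)

theorem qt_le {n : ℕ} (z : Fin (n + 2) → ℝ) : qt z ≤ 1 / 2 := by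
  have h := dot_self_nonneg z
  unfold qt
  rcases h.lt_or_eq with h1 | h1
  · rw [div_le_div_iff₀ (by linarith) (by norm_num)]
    have := sq_le_dot z 0
    linarith
  · rw [← h1]; norm_num

theorem measurable_dot {ι : Type*} [Fintype ι] : Measurable (fun z : ι → ℝ => z ⬝ᵥ z) := by
  unfold dotProduct; fun_prop

theorem measurable_qt {n : ℕ} : Measurable (qt (n := n)) := by
  unfold qt
  exact ((measurable_pi_apply 0).pow_const 2).div (measurable_dot.const_mul 2)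

/-- mean of `exp(t y₁²/2)` over the unit sphere of `ℝ^(n+2)` -/
noncomputable def Ph (n : ℕ) (t : ℝ) : ℝ≥0∞ :=
  ∫⁻ z, ENNReal.ofReal (Real.exp (t * qt z)) ∂(gam (Fin (n + 2)))

theorem Ph_mono (n : ℕ) {t t' : ℝ} (h : t ≤ t') : Ph n t ≤ Ph n t' := by
  apply lintegral_mono
  intro z
  apply ENNReal.ofReal_le_ofReal
  exact Real.exp_le_exp.mpr (mul_le_mul_of_nonneg_right h (qt_nonneg z))

theorem one_le_Ph (n : ℕ) {t : ℝ} (h : 0 ≤ t) : 1 ≤ Ph n t := by
  have h1 : Ph n 0 = 1 := by simp [Ph]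
  rw [← h1]; exact Ph_mono n h

theorem Ph_le (n : ℕ) {t t' : ℝ} (h : t' ≤ t) :
    Ph n t ≤ ENNReal.ofReal (Real.exp ((t - t') / 2)) * Ph n t' := by
  unfold Ph
  rw [← lintegral_const_mul' _ _ ENNReal.ofReal_ne_top]
  apply lintegral_mono
  intro z
  simp only
  rw [← ENNReal.ofReal_mul (Real.exp_pos _).le, ← Real.exp_add]
  apply ENNReal.ofReal_le_ofReal
  apply Real.exp_le_exp.mpr
  nlinarith [qt_le z, qt_nonneg z]

theorem Ph_ne_top (n : ℕ) (t : ℝ) : Ph n t ≠ ⊤ := by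
  rcases le_total 0 t with h | h
  · have h0 : Ph n 0 = 1 := by simp [Ph]
    have h1 := Ph_le n h
    rw [h0, mul_one] at h1
    exact ne_top_of_le_ne_top ENNReal.ofReal_ne_top h1
  · have h0 : Ph n 0 = 1 := by simp [Ph]
    have h1 := Ph_mono n h
    rw [h0] at h1
    exact ne_top_of_le_ne_top ENNReal.one_ne_top h1

theorem Ph_eq_ofReal (n : ℕ) (t : ℝ) :
    Ph n t = ENNReal.ofReal (∫ z, Real.exp (t * qt z) ∂(gam (Fin (n + 2)))) := by
  unfold Ph
  rw [ofReal_integral_eq_lintegral_ofReal]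
  · refine ⟨(Real.measurable_exp.comp (measurable_qt.const_mul t)).aestronglyMeasurable, ?_⟩
    rw [hasFiniteIntegral_iff_ofReal (ae_of_all _ fun z => (Real.exp_pos _).le)]
    exact (Ph_ne_top n t).lt_top
  · exact ae_of_all _ fun z => (Real.exp_pos _).le

/-! ### polar coordinates -/

theorem lintegral_g1 (F : ℝ → ℝ≥0∞) (hF : Measurable F) :
    ∫⁻ u, F u ∂(gaussianReal 0 1) =
      ∫⁻ u, ENNReal.ofReal (c0 * Real.exp (-(u ^ 2) / 2)) * F u := by
  have h1 : gaussianReal 0 1 = (volume : Measure ℝ).withDensity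
      (fun x => ENNReal.ofReal (c0 * Real.exp (-(x ^ 2) / 2))) := by
    rw [gaussianReal_of_var_ne_zero _ one_ne_zero]
    congr 1
    funext x
    simp [gaussianPDF, gaussianPDFReal, c0]
  rw [h1, lintegral_withDensity_eq_lintegral_mul _ (by fun_prop) hF]
  rfl

theorem polar (F : ℝ → ℝ≥0∞) (hF : Measurable F) :
    ∫⁻ u, ∫⁻ v, F (√(u ^ 2 + v ^ 2)) ∂(gaussianReal 0 1) ∂(gaussianReal 0 1) =
      ∫⁻ r in Ioi (0 : ℝ), ENNReal.ofReal (r * Real.exp (-(r ^ 2) / 2)) * F r := by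
  have e1 : ∫⁻ u, ∫⁻ v, F (√(u ^ 2 + v ^ 2)) ∂(gaussianReal 0 1) ∂(gaussianReal 0 1) =
      ∫⁻ p : ℝ × ℝ, ENNReal.ofReal (c0 ^ 2 * Real.exp (-(p.1 ^ 2 + p.2 ^ 2) / 2)) *
        F (√(p.1 ^ 2 + p.2 ^ 2)) := by
    have hm : Measurable (fun u : ℝ => ∫⁻ v, F (√(u ^ 2 + v ^ 2)) ∂(gaussianReal 0 1)) := by
      apply Measurable.lintegral_prod_right' (f := fun p : ℝ × ℝ => F (√(p.1 ^ 2 + p.2 ^ 2)))
      fun_prop
    rw [lintegral_g1 _ hm, Measure.volume_eq_prod, lintegral_prod _ (by fun_prop)]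
    apply lintegral_congr
    intro u
    rw [lintegral_g1 (fun v => F (√(u ^ 2 + v ^ 2))) (by fun_prop),
      ← lintegral_const_mul' _ _ ENNReal.ofReal_ne_top]
    apply lintegral_congr
    intro v
    simp only
    rw [← mul_assoc, ← ENNReal.ofReal_mul (by have := c0_pos; positivity)]
    congr 2
    rw [show -(u ^ 2 + v ^ 2) / 2 = -(u ^ 2) / 2 + -(v ^ 2) / 2 by ring, Real.exp_add]
    ring
  rw [e1, ← lintegral_comp_polarCoord_symm, polarCoord_target, Measure.volume_eq_prod,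
    ← Measure.prod_restrict, lintegral_prod _ (by
      have : Measurable (fun p : ℝ × ℝ => polarCoord.symm p) := by
        simp only [polarCoord_symm_apply]; fun_prop
      simp only [polarCoord_symm_apply]
      fun_prop)]
  apply setLIntegral_congr_fun measurableSet_Ioi
  intro r hr
  have hr' : (0 : ℝ) < r := hr
  simp only [polarCoord_symm_apply]
  have h2 : ∀ θ : ℝ, (r * Real.cos θ) ^ 2 + (r * Real.sin θ) ^ 2 = r ^ 2 := by
    intro θ
    have := Real.sin_sq_add_cos_sq θ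
    linear_combination r ^ 2 * this
  simp only [h2, Real.sqrt_sq hr'.le, smul_eq_mul]
  rw [lintegral_const, Measure.restrict_apply MeasurableSet.univ, univ_inter, Real.volume_Ioo,
    ← mul_assoc, mul_right_comm, ← ENNReal.ofReal_mul hr'.le,
    ← ENNReal.ofReal_mul (by have := c0_pos; positivity)]
  congr 2
  have h3 : c0 ^ 2 * (2 * Real.pi) = 1 := by
    unfold c0
    rw [inv_pow, Real.sq_sqrt (by positivity)]
    field_simp
  linear_combination (r * Real.exp (-(r ^ 2) / 2)) * h3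

theorem abs_split (F : ℝ → ℝ≥0∞) (hF : Measurable F) :
    ∫⁻ x, ENNReal.ofReal |x| * F x ∂(gaussianReal 0 1) =
      ENNReal.ofReal c0 *
        ∫⁻ u, ∫⁻ v, (F (√(u ^ 2 + v ^ 2)) + F (-√(u ^ 2 + v ^ 2)))
          ∂(gaussianReal 0 1) ∂(gaussianReal 0 1) := by
  rw [polar (fun r => F r + F (-r)) (by fun_prop), lintegral_g1 _ (by fun_prop),
    ← lintegral_const_mul' _ _ ENNReal.ofReal_ne_top]
  set K : ℝ → ℝ≥0∞ := fun x => ENNReal.ofReal (c0 * Real.exp (-(x ^ 2) / 2)) *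
    (ENNReal.ofReal |x| * F x) with hK
  have hKm : Measurable K := by rw [hK]; fun_prop
  have h1 : ∫⁻ x, K x = (∫⁻ x in Ioi (0 : ℝ), K x) + ∫⁻ x in Iic (0 : ℝ), K x := by
    rw [← lintegral_add_compl K (measurableSet_Ioi (a := (0 : ℝ))), compl_Ioi]
  have h2 : ∫⁻ x in Iic (0 : ℝ), K x = ∫⁻ x in Ioi (0 : ℝ), K (-x) := by
    rw [setLIntegral_congr Ioi_ae_eq_Ici, ← lintegral_indicator measurableSet_Iic,
      ← lintegral_indicator measurableSet_Ici,
      ← lintegral_neg_eq_self ((Iic (0 : ℝ)).indicator K)]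
    apply lintegral_congr
    intro x
    by_cases hx : 0 ≤ x
    · rw [indicator_of_mem (show -x ∈ Iic (0 : ℝ) by simpa using hx),
        indicator_of_mem (show x ∈ Ici (0 : ℝ) from hx)]
    · rw [indicator_of_notMem (show -x ∉ Iic (0 : ℝ) by simpa using hx),
        indicator_of_notMem (show x ∉ Ici (0 : ℝ) from hx)]
  have h3 : (∫⁻ x, ENNReal.ofReal (c0 * Real.exp (-(x ^ 2) / 2)) * (ENNReal.ofReal |x| * F x))
      = ∫⁻ x, K x := rfl
  rw [h3, h1, h2, ← lintegral_add_left hKm]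
  apply setLIntegral_congr_fun measurableSet_Ioi
  intro r hr
  have hr' : (0 : ℝ) < r := hr
  simp only [hK, abs_neg, abs_of_pos hr', neg_sq]
  rw [← mul_assoc, ← mul_assoc, ← mul_add, ← ENNReal.ofReal_mul (by have := c0_pos; positivity),
    ← mul_assoc, ← ENNReal.ofReal_mul c0_pos.le]
  congr 2
  ring

end Pool.Agent.SSZ
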