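import Pool.Agent.Lib.SSZ.Sph

/-! Comparison of the density of the row in the direction `w` with Gaussian directions. -/

set_option autoImplicit false

open MeasureTheory ProbabilityTheory Matrix Set
open scoped ENNReal

namespace Pool.Agent.SSZ

open Pool.Agent.Lib.MP_da621d_pr (gam gam2 phi c0 gam_eq phi_eq measurable_phi tr measurable_tr
  map_tr_gam2 phi_pos c0_pos)

theorem phi_dot {ι : Type*} [Fintype ι] (x : ι → ℝ) :
    phi x = c0 ^ (Fintype.card ι) * Real.exp (-(x ⬝ᵥ x) / 2) := by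
  rw [phi_eq]
  simp only [dotProduct, pow_two]

theorem dot_expand {ι : Type*} [Fintype ι] (t : ℝ) (g p : ι → ℝ) :
    (t • g - p) ⬝ᵥ (t • g - p) = t ^ 2 * (g ⬝ᵥ g) - 2 * t * (p ⬝ᵥ g) + p ⬝ᵥ p := by
  simp only [sub_dotProduct, dotProduct_sub, smul_dotProduct, dotProduct_smul, smul_eq_mul,
    dotProduct_comm g p]
  ring

theorem Q1_aux (a T : ℝ) :
    ∫⁻ τ in Icc (-T) T, ENNReal.ofReal (Real.exp (τ * a)) ≤
      ENNReal.ofReal (2 * T * Real.exp (a ^ 2 * T ^ 2 / 2)) := by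
  set f : ℝ → ℝ≥0∞ := fun τ => ENNReal.ofReal (Real.exp (τ * a)) with hf
  have hfm : Measurable f := by rw [hf]; fun_prop
  have h1 : ∫⁻ τ in Icc (-T) T, f (-τ) = ∫⁻ τ in Icc (-T) T, f τ := by
    rw [← lintegral_indicator measurableSet_Icc, ← lintegral_indicator measurableSet_Icc,
      ← lintegral_neg_eq_self ((Icc (-T) T).indicator f)]
    apply lintegral_congr
    intro x
    by_cases hx : x ∈ Icc (-T) T
    · have hx' : -x ∈ Icc (-T) T := ⟨by linarith [hx.2], by linarith [hx.1]⟩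
      rw [indicator_of_mem hx, indicator_of_mem hx']
    · have hx' : -x ∉ Icc (-T) T := fun h => hx ⟨by linarith [h.2], by linarith [h.1]⟩
      rw [indicator_of_notMem hx, indicator_of_notMem hx']
  have h2 : 2 * ∫⁻ τ in Icc (-T) T, f τ ≤
      2 * ENNReal.ofReal (2 * T * Real.exp (a ^ 2 * T ^ 2 / 2)) := by
    calc 2 * ∫⁻ τ in Icc (-T) T, f τ = ∫⁻ τ in Icc (-T) T, (f τ + f (-τ)) := by
          rw [lintegral_add_left hfm, h1, two_mul]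
      _ ≤ ∫⁻ _ in Icc (-T) T, ENNReal.ofReal (2 * Real.exp (a ^ 2 * T ^ 2 / 2)) := by
          apply setLIntegral_mono' measurableSet_Icc
          intro x hx
          simp only [hf]
          rw [← ENNReal.ofReal_add (Real.exp_pos _).le (Real.exp_pos _).le]
          apply ENNReal.ofReal_le_ofReal
          have h3 := Real.cosh_le_exp_half_sq (x * a)
          rw [Real.cosh_eq] at h3
          have h4 : Real.exp ((x * a) ^ 2 / 2) ≤ Real.exp (a ^ 2 * T ^ 2 / 2) := by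
            apply Real.exp_le_exp.mpr
            have h5 : x ^ 2 ≤ T ^ 2 := by
              apply sq_le_sq'
              · exact hx.1
              · exact hx.2
            have := mul_le_mul_of_nonneg_left h5 (sq_nonneg a)
            nlinarith
          rw [neg_mul]
          linarith
      _ = 2 * ENNReal.ofReal (2 * T * Real.exp (a ^ 2 * T ^ 2 / 2)) := by
          rw [lintegral_const, Measure.restrict_apply MeasurableSet.univ, univ_inter,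
            Real.volume_Icc, ← ENNReal.ofReal_mul (by positivity),
            show (2 : ℝ≥0∞) = ENNReal.ofReal 2 by simp, ← ENNReal.ofReal_mul (by norm_num)]
          congr 1
          ring
  exact (ENNReal.mul_le_mul_iff_right (by norm_num) (by norm_num)).mp h2

theorem Q1 {n : ℕ} (w p : Fin (n + 1) → ℝ) (hw : w ⬝ᵥ w = 1) (T : ℝ) (hT : 0 < T) :
    ∫⁻ τ in {τ : ℝ | τ ^ 2 ≤ T ^ 2}, ENNReal.ofReal (phi (τ • w - p)) ≤
      ENNReal.ofReal (c0 ^ (n + 1) * Real.exp (-(p ⬝ᵥ p) / 2)) *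
        ENNReal.ofReal (2 * T * Real.exp ((p ⬝ᵥ w) ^ 2 * T ^ 2 / 2)) := by
  have hs : {τ : ℝ | τ ^ 2 ≤ T ^ 2} = Icc (-T) T := by
    ext τ
    change τ ^ 2 ≤ T ^ 2 ↔ (-T ≤ τ ∧ τ ≤ T)
    constructor
    · intro h
      exact abs_le.mp (abs_le_of_sq_le_sq h hT.le)
    · rintro ⟨h1, h2⟩
      exact sq_le_sq' h1 h2
  rw [hs]
  calc ∫⁻ τ in Icc (-T) T, ENNReal.ofReal (phi (τ • w - p)) ≤
      ∫⁻ τ in Icc (-T) T, ENNReal.ofReal (c0 ^ (n + 1) * Real.exp (-(p ⬝ᵥ p) / 2)) *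
        ENNReal.ofReal (Real.exp (τ * (p ⬝ᵥ w))) := by
        apply lintegral_mono
        intro τ
        simp only
        rw [← ENNReal.ofReal_mul (by have := c0_pos; positivity)]
        apply ENNReal.ofReal_le_ofReal
        rw [phi_dot, Fintype.card_fin, dot_expand, hw, mul_assoc (c0 ^ (n + 1)), ← Real.exp_add]
        apply mul_le_mul_of_nonneg_left _ (pow_pos c0_pos _).le
        apply Real.exp_le_exp.mpr
        nlinarith [sq_nonneg τ]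
    _ = ENNReal.ofReal (c0 ^ (n + 1) * Real.exp (-(p ⬝ᵥ p) / 2)) *
        ∫⁻ τ in Icc (-T) T, ENNReal.ofReal (Real.exp (τ * (p ⬝ᵥ w))) := by
        rw [lintegral_const_mul' _ _ ENNReal.ofReal_ne_top]
    _ ≤ _ := by
        apply mul_le_mul_right
        exact Q1_aux _ T

theorem Q2 {n : ℕ} (g p : Fin (n + 1) → ℝ) (hg : 0 < g ⬝ᵥ g) :
    ∫⁻ ρ : ℝ, ENNReal.ofReal (phi (ρ • g - p)) =
      ENNReal.ofReal (c0 ^ (n + 1) * Real.exp (-(p ⬝ᵥ p) / 2)) *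
        (ENNReal.ofReal (c0⁻¹ / √(g ⬝ᵥ g)) *
          ENNReal.ofReal (Real.exp ((p ⬝ᵥ g) ^ 2 / (2 * (g ⬝ᵥ g))))) := by
  set G := g ⬝ᵥ g with hG
  set b := p ⬝ᵥ g with hb
  have h1 : ∀ ρ : ℝ, ENNReal.ofReal (phi (ρ • g - p)) =
      ENNReal.ofReal (c0 ^ (n + 1) * Real.exp (-(p ⬝ᵥ p) / 2) * Real.exp (b ^ 2 / (2 * G))) *
        ENNReal.ofReal (Real.exp (-(G / 2) * (ρ + -(b / G)) ^ 2)) := by
    intro ρ
    rw [← ENNReal.ofReal_mul (by have := c0_pos; positivity)]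
    congr 1
    rw [phi_dot, Fintype.card_fin, dot_expand, ← hG, ← hb, mul_assoc (c0 ^ (n + 1)),
      mul_assoc (c0 ^ (n + 1)), ← Real.exp_add, ← Real.exp_add]
    congr 2
    field_simp
    ring
  simp_rw [h1]
  rw [lintegral_const_mul' _ _ ENNReal.ofReal_ne_top,
    lintegral_add_right_eq_self (fun ρ => ENNReal.ofReal (Real.exp (-(G / 2) * ρ ^ 2))) (-(b / G)),
    ← ofReal_integral_eq_lintegral_ofReal (integrable_exp_neg_mul_sq (by positivity))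
      (ae_of_all _ fun _ => (Real.exp_pos _).le), integral_gaussian]
  have h2 : √(Real.pi / (G / 2)) = c0⁻¹ / √G := by
    unfold c0
    rw [inv_inv, ← Real.sqrt_div' _ hg.le]
    congr 1
    field_simp
  rw [h2, ENNReal.ofReal_mul (by have := c0_pos; positivity), mul_assoc]
  congr 1
  rw [mul_comm]

/-- the comparison, with the constant `Φ`, for all vectors `p` with `|p|² ≥ q` -/
def HQ (n : ℕ) (T q : ℝ) (Φ : ℝ≥0∞) : Prop :=
  ∀ w p : Fin (n + 1) → ℝ, w ⬝ᵥ w = 1 → q ≤ p ⬝ᵥ p →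
    Φ * ∫⁻ τ in {τ : ℝ | τ ^ 2 ≤ T ^ 2}, ENNReal.ofReal (phi (τ • w - p)) ≤
    ENNReal.ofReal T * ∫⁻ g, ENNReal.ofReal (√(g ⬝ᵥ g)) * (ENNReal.ofReal |g ⬝ᵥ w| *
      ∫⁻ ρ : ℝ, ENNReal.ofReal (phi (ρ • g - p))) ∂(gam (Fin (n + 1)))

theorem Q_gen {n : ℕ} (w p : Fin (n + 1) → ℝ) (hw : w ⬝ᵥ w = 1) (T : ℝ) (hT : 0 < T) (Φ : ℝ≥0∞)
    (hE : ENNReal.ofReal (2 * c0) * (ENNReal.ofReal (Real.exp ((p ⬝ᵥ w) ^ 2 * T ^ 2 / 2)) * Φ) ≤
      ∫⁻ g, ENNReal.ofReal |g ⬝ᵥ w| * ENNReal.ofReal (Real.exp ((p ⬝ᵥ g) ^ 2 / (2 * (g ⬝ᵥ g))))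
      ∂(gam (Fin (n + 1)))) :
    Φ * ∫⁻ τ in {τ : ℝ | τ ^ 2 ≤ T ^ 2}, ENNReal.ofReal (phi (τ • w - p)) ≤
    ENNReal.ofReal T * ∫⁻ g, ENNReal.ofReal (√(g ⬝ᵥ g)) * (ENNReal.ofReal |g ⬝ᵥ w| *
      ∫⁻ ρ : ℝ, ENNReal.ofReal (phi (ρ • g - p))) ∂(gam (Fin (n + 1))) := by
  set K := ENNReal.ofReal (c0 ^ (n + 1) * Real.exp (-(p ⬝ᵥ p) / 2)) with hK
  have h1 : ∫⁻ g, ENNReal.ofReal (√(g ⬝ᵥ g)) * (ENNReal.ofReal |g ⬝ᵥ w| *
      ∫⁻ ρ : ℝ, ENNReal.ofReal (phi (ρ • g - p))) ∂(gam (Fin (n + 1))) =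
      K * (ENNReal.ofReal c0⁻¹ * ∫⁻ g, ENNReal.ofReal |g ⬝ᵥ w| *
        ENNReal.ofReal (Real.exp ((p ⬝ᵥ g) ^ 2 / (2 * (g ⬝ᵥ g)))) ∂(gam (Fin (n + 1)))) := by
    rw [← lintegral_const_mul' _ _ ENNReal.ofReal_ne_top,
      ← lintegral_const_mul' _ _ (by rw [hK]; exact ENNReal.ofReal_ne_top)]
    apply lintegral_congr_ae
    filter_upwards [ae_dot_pos (n := n)] with g hg
    have hsq : 0 < √(g ⬝ᵥ g) := Real.sqrt_pos.mpr hg
    rw [Q2 g p hg, ← hK]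
    have h2 : ENNReal.ofReal (c0⁻¹ / √(g ⬝ᵥ g)) = ENNReal.ofReal c0⁻¹ *
        (ENNReal.ofReal (√(g ⬝ᵥ g)))⁻¹ := by
      rw [div_eq_mul_inv, ENNReal.ofReal_mul (inv_pos.mpr c0_pos).le, ENNReal.ofReal_inv_of_pos hsq]
    rw [h2]
    have h3 : ENNReal.ofReal (√(g ⬝ᵥ g)) * (ENNReal.ofReal (√(g ⬝ᵥ g)))⁻¹ = 1 :=
      ENNReal.mul_inv_cancel (ENNReal.ofReal_pos.mpr hsq).ne' ENNReal.ofReal_ne_top
    calc _ = (ENNReal.ofReal (√(g ⬝ᵥ g)) * (ENNReal.ofReal (√(g ⬝ᵥ g)))⁻¹) *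
        (K * (ENNReal.ofReal c0⁻¹ * (ENNReal.ofReal |g ⬝ᵥ w| *
        ENNReal.ofReal (Real.exp ((p ⬝ᵥ g) ^ 2 / (2 * (g ⬝ᵥ g))))))) := by ring
      _ = _ := by rw [h3, one_mul]
  rw [h1]
  have h5 := Q1 w p hw T hT
  rw [← hK] at h5
  set X := Real.exp ((p ⬝ᵥ w) ^ 2 * T ^ 2 / 2) with hX
  calc Φ * ∫⁻ τ in {τ : ℝ | τ ^ 2 ≤ T ^ 2}, ENNReal.ofReal (phi (τ • w - p)) ≤
      Φ * (K * ENNReal.ofReal (2 * T * X)) := by gcongr
    _ = ENNReal.ofReal T * (K * (ENNReal.ofReal c0⁻¹ *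
        (ENNReal.ofReal (2 * c0) * (ENNReal.ofReal X * Φ)))) := by
        have h6 : ENNReal.ofReal (2 * T * X) = ENNReal.ofReal T * (ENNReal.ofReal c0⁻¹ *
            (ENNReal.ofReal (2 * c0) * ENNReal.ofReal X)) := by
          have hc := c0_pos
          rw [← ENNReal.ofReal_mul (by positivity), ← ENNReal.ofReal_mul (by positivity),
            ← ENNReal.ofReal_mul (by positivity)]
          congr 1
          field_simp
        rw [h6]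
        ring
    _ ≤ _ := by gcongr

theorem theta_nonneg (n : ℕ) : (0 : ℝ) ≤ 1 - 1 / (n + 1 : ℕ) := by
  rw [sub_nonneg, div_le_one (by positivity)]
  push_cast
  linarith [(Nat.cast_nonneg n : (0 : ℝ) ≤ n)]

/-- first form: `T² N ≤ 1` and the factor `1 - 1/N` -/
theorem HQ_one {n : ℕ} {T q : ℝ} (hT : 0 < T) (hT2 : T ^ 2 * (n + 1 : ℕ) ≤ 1) :
    HQ n T q (Ph n ((1 - 1 / (n + 1 : ℕ)) * q)) := by
  intro w p hw hq
  apply Q_gen w p hw T hT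
  refine le_trans ?_ (E_ineq w p hw)
  apply mul_le_mul_right
  apply mul_le_mul'
  · apply ENNReal.ofReal_le_ofReal
    apply Real.exp_le_exp.mpr
    rw [div_le_div_iff₀ (by norm_num) (by positivity)]
    have := mul_le_mul_of_nonneg_left hT2 (sq_nonneg (p ⬝ᵥ w))
    nlinarith
  · exact Ph_mono n (mul_le_mul_of_nonneg_left hq (theta_nonneg n))

/-- second form: `T² (N + 1 + q) ≤ 1`, without the factor `1 - 1/N` -/
theorem HQ_two {n : ℕ} {T q : ℝ} (hT : 0 < T) (hq0 : 0 ≤ q)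
    (hT2 : T ^ 2 * ((n + 1 : ℕ) + 1 + q) ≤ 1) : HQ n T q (Ph n (1 * q)) := by
  intro w p hw hq
  rw [one_mul]
  apply Q_gen w p hw T hT
  exact E_ineq' w p hw hq0 hq hT2

end Pool.Agent.SSZ
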