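import Pool.Agent.Lib.SSZ.Meas
import Pool.Agent.Lib.SSZ.Q

/-! The inequality with all rows but the first fixed. -/

set_option autoImplicit false

open MeasureTheory ProbabilityTheory Matrix Set
open scoped ENNReal

namespace Pool.Agent.SSZ

open Pool.Agent.Lib.MP_da621d_pr (gam gam2 phi c0 gam_eq phi_eq measurable_phi tr measurable_tr
  map_tr_gam2 phi_pos c0_pos)

variable {n : ℕ}

/-- the matrix with first row `z` and the other rows `R` -/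
def cm (z : Fin (n + 1) → ℝ) (R : Fin n → Fin (n + 1) → ℝ) :
    Matrix (Fin (n + 1)) (Fin (n + 1)) ℝ :=
  Matrix.of (Fin.cons z R : Fin (n + 1) → Fin (n + 1) → ℝ)

/-- the vector of cofactors of the first row -/
def om (R : Fin n → Fin (n + 1) → ℝ) : Fin (n + 1) → ℝ := fun j =>
  (-1) ^ (j : ℕ) * ((cm 0 R).submatrix Fin.succ j.succAbove).det

theorem det_cm (z : Fin (n + 1) → ℝ) (R : Fin n → Fin (n + 1) → ℝ) :
    (cm z R).det = z ⬝ᵥ om R := by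
  rw [Matrix.det_succ_row_zero]
  unfold dotProduct
  apply Finset.sum_congr rfl
  intro j _
  have h1 : (cm z R).submatrix Fin.succ j.succAbove = (cm 0 R).submatrix Fin.succ j.succAbove := by
    ext a b
    simp [cm]
  rw [h1]
  have h2 : cm z R 0 j = z j := by simp [cm]
  rw [h2, om]
  ring

theorem om_row (R : Fin n → Fin (n + 1) → ℝ) (i : Fin n) : R i ⬝ᵥ om R = 0 := by
  rw [← det_cm]
  apply Matrix.det_zero_of_row_eq (i := 0) (j := i.succ) (Fin.succ_ne_zero i).symm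
  simp [cm]
  rfl

theorem vecMul_of_dot (R : Fin n → Fin (n + 1) → ℝ) (d : Fin n → ℝ) :
    (d ᵥ* Matrix.of R) ⬝ᵥ om R = 0 := by
  rw [← dotProduct_mulVec]
  have : Matrix.of R *ᵥ om R = 0 := by
    funext i
    exact om_row R i
  rw [this, dotProduct_zero]

theorem cons_vecMul_cm (t : ℝ) (d : Fin n → ℝ) (z : Fin (n + 1) → ℝ)
    (R : Fin n → Fin (n + 1) → ℝ) :
    (Fin.cons t d : Fin (n + 1) → ℝ) ᵥ* cm z R = t • z + d ᵥ* Matrix.of R := by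
  funext j
  simp only [Matrix.vecMul, dotProduct, cm, Matrix.of_apply, Fin.sum_univ_succ, Fin.cons_zero,
    Fin.cons_succ, Pi.add_apply, Pi.smul_apply, smul_eq_mul]

theorem cov (z : Fin (n + 1) → ℝ) (R : Fin n → Fin (n + 1) → ℝ) (hz : z ⬝ᵥ om R ≠ 0)
    (F : (Fin (n + 1) → ℝ) → ℝ≥0∞) (hF : Measurable F) :
    ∫⁻ r, F r = ENNReal.ofReal |z ⬝ᵥ om R| *
      ∫⁻ t : ℝ, ∫⁻ d : Fin n → ℝ, F (t • z + d ᵥ* Matrix.of R) := by
  rw [← det_cm] at hz ⊢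
  rw [lintegral_vecMul (cm z R) hz F hF]
  congr 1
  have hm : Measurable (fun y : Fin (n + 1) → ℝ => y ᵥ* cm z R) := by
    apply Continuous.measurable
    unfold Matrix.vecMul dotProduct
    fun_prop
  rw [lintegral_vol_cons (fun y => F (y ᵥ* cm z R)) (hF.comp hm)]
  simp only [cons_vecMul_cm]

/-- solving `y M = z` -/
theorem solve (z : Fin (n + 1) → ℝ) (R : Fin n → Fin (n + 1) → ℝ) (hz : z ⬝ᵥ om R ≠ 0)
    (t : ℝ) (ht : t ≠ 0) (d : Fin n → ℝ) :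
    z ᵥ* (cm (t • z + d ᵥ* Matrix.of R) R)⁻¹ = (Fin.cons t⁻¹ (-(t⁻¹ • d)) : Fin (n + 1) → ℝ) := by
  set M := cm (t • z + d ᵥ* Matrix.of R) R with hM
  have hd : M.det ≠ 0 := by
    rw [hM, det_cm, add_dotProduct, smul_dotProduct, vecMul_of_dot, add_zero, smul_eq_mul]
    exact mul_ne_zero ht hz
  have h1 : (Fin.cons t⁻¹ (-(t⁻¹ • d)) : Fin (n + 1) → ℝ) ᵥ* M = z := by
    rw [hM, cons_vecMul_cm, smul_add, smul_smul, inv_mul_cancel₀ ht, one_smul, neg_vecMul,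
      smul_vecMul, add_assoc, add_neg_cancel, add_zero]
  rw [← h1, vecMul_vecMul, Matrix.mul_nonsing_inv _ (isUnit_iff_ne_zero.mpr hd), vecMul_one]

theorem solve' (w : Fin (n + 1) → ℝ) (R : Fin n → Fin (n + 1) → ℝ) (hw : w ⬝ᵥ w = 1)
    (hR : ∀ i, R i ⬝ᵥ w = 0) (hz : w ⬝ᵥ om R ≠ 0) (t : ℝ) (ht : t ≠ 0) (d : Fin n → ℝ) :
    (cm (t • w + d ᵥ* Matrix.of R) R)⁻¹ *ᵥ (Pi.single 0 1) = t⁻¹ • w := by
  set M := cm (t • w + d ᵥ* Matrix.of R) R with hM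
  have hd : M.det ≠ 0 := by
    rw [hM, det_cm, add_dotProduct, smul_dotProduct, vecMul_of_dot, add_zero, smul_eq_mul]
    exact mul_ne_zero ht hz
  have h1 : M *ᵥ (t⁻¹ • w) = Pi.single 0 1 := by
    funext i
    refine Fin.cases ?_ (fun i => ?_) i
    · have h2 : Matrix.of R *ᵥ w = 0 := by
        funext i; exact hR i
      have h3 : (M *ᵥ (t⁻¹ • w)) 0 = (t • w + d ᵥ* Matrix.of R) ⬝ᵥ (t⁻¹ • w) := rfl
      rw [h3, add_dotProduct, smul_dotProduct, dotProduct_smul, dotProduct_smul, hw,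
        ← dotProduct_mulVec, h2]
      simp [ht]
    · have h3 : (M *ᵥ (t⁻¹ • w)) i.succ = R i ⬝ᵥ (t⁻¹ • w) := rfl
      rw [h3, dotProduct_smul, hR i]
      simp
  rw [← h1, mulVec_mulVec, Matrix.nonsing_inv_mul _ (isUnit_iff_ne_zero.mpr hd), one_mulVec]

theorem reg_row (w : Fin (n + 1) → ℝ) (R : Fin n → Fin (n + 1) → ℝ) (hw : w ⬝ᵥ w = 1)
    (hR : ∀ i, R i ⬝ᵥ w = 0) (hz : w ⬝ᵥ om R ≠ 0) (t : ℝ) (d : Fin n → ℝ) {c T : ℝ} (hc : 0 < c)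
    (h : Reg c T (cm (t • w + d ᵥ* Matrix.of R) R) (Pi.single 0 1)) :
    c ^ 2 * (1 + d ⬝ᵥ d) ≤ 1 ∧ c ^ 2 * t ^ 2 ≤ T ^ 2 := by
  have he : (Pi.single 0 1 : Fin (n + 1) → ℝ) ⬝ᵥ (Pi.single 0 1) = 1 := by simp
  by_cases ht : t = 0
  · exfalso
    refine not_reg_of_det hc ?_ (h := Pi.single 0 1) (by rw [he]; norm_num) h
    rw [det_cm, add_dotProduct, smul_dotProduct, vecMul_of_dot, ht]
    simp
  · unfold Reg at h
    rw [solve' w R hw hR hz t ht d, smul_vecMul, solve w R hz t ht d, he] at h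
    simp only [smul_dotProduct, dotProduct_smul, smul_eq_mul, cons_dot, hw, neg_dotProduct_neg] at h
    obtain ⟨h1, h2⟩ := h
    have ht2 : 0 < t ^ 2 := by positivity
    have ht4 : 0 < t ^ 4 := by positivity
    constructor
    · have h3 := mul_le_mul_of_nonneg_left h1 ht4.le
      have e1 : t ^ 4 * (c ^ 2 * 1 * (t⁻¹ * (t⁻¹ * (t⁻¹ * t⁻¹ + t⁻¹ * (t⁻¹ * (d ⬝ᵥ d)))))) =
          c ^ 2 * (1 + d ⬝ᵥ d) := by field_simp
      have e2 : t ^ 4 * (t⁻¹ * (t⁻¹ * 1)) ^ 2 = 1 := by field_simp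
      rw [e1, e2] at h3
      exact h3
    · have h3 := mul_le_mul_of_nonneg_left h2 ht2.le
      have e2 : t ^ 2 * (T ^ 2 * (t⁻¹ * (t⁻¹ * 1))) = T ^ 2 := by field_simp
      rw [e2] at h3
      linarith

theorem cap_row (z : Fin (n + 1) → ℝ) (R : Fin n → Fin (n + 1) → ℝ) (hz : z ⬝ᵥ om R ≠ 0)
    (t : ℝ) (ht : t ≠ 0) (d : Fin n → ℝ) {c : ℝ} (h : c ^ 2 * (1 + d ⬝ᵥ d) ≤ 1) :
    Cap c (cm (t • z + d ᵥ* Matrix.of R) R) (Pi.single 0 1) z := by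
  have he : (Pi.single 0 1 : Fin (n + 1) → ℝ) ⬝ᵥ (Pi.single 0 1) = 1 := by simp
  unfold Cap
  rw [solve z R hz t ht d, he]
  simp only [smul_dotProduct, dotProduct_smul, smul_eq_mul, cons_dot, neg_dotProduct_neg,
    single_dotProduct, one_mul, Fin.cons_zero]
  have hd := dot_self_nonneg d
  have ht2 : 0 < t ^ 2 := by positivity
  have e0 : t⁻¹ * t⁻¹ + t⁻¹ * (t⁻¹ * (d ⬝ᵥ d)) = (t⁻¹) ^ 2 * (1 + d ⬝ᵥ d) := by ring
  rw [e0]
  constructor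
  · positivity
  · calc c ^ 2 * 1 * (t⁻¹ ^ 2 * (1 + d ⬝ᵥ d)) = t⁻¹ ^ 2 * (c ^ 2 * (1 + d ⬝ᵥ d)) := by ring
      _ ≤ t⁻¹ ^ 2 * 1 := mul_le_mul_of_nonneg_left h (sq_nonneg _)
      _ = _ := by ring

end Pool.Agent.SSZ
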