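import Pool.Agent.Lib.SSZ.Rows

/-! The inequality with all rows but the first fixed. -/

set_option autoImplicit false

open MeasureTheory ProbabilityTheory Matrix Set
open scoped ENNReal

namespace Pool.Agent.SSZ

open Pool.Agent.Lib.MP_da621d_pr (gam gam2 phi c0 gam_eq phi_eq measurable_phi tr measurable_tr
  map_tr_gam2 phi_pos c0_pos)

variable {n : ℕ}

theorem measurable_vecMul_const {m k : ℕ} (A : Matrix (Fin m) (Fin k) ℝ) :
    Measurable (fun d : Fin m → ℝ => d ᵥ* A) := by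
  apply Continuous.measurable
  unfold Matrix.vecMul dotProduct
  fun_prop

theorem measurable_cm (R : Fin n → Fin (n + 1) → ℝ) :
    Measurable (fun r : Fin (n + 1) → ℝ => (Fin.cons r R : Fin (n + 1) → Fin (n + 1) → ℝ)) := by
  apply measurable_pi_lambda
  intro i
  refine Fin.cases ?_ (fun i => ?_) i
  · simp only [Fin.cons_zero]
    exact measurable_id
  · simp

theorem meas_reg_row (R : Fin n → Fin (n + 1) → ℝ) (c T : ℝ) (h : Fin (n + 1) → ℝ) :
    MeasurableSet {r | Reg c T (cm r R) h} :=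
  meas_reg (measurable_cm R) measurable_const c T

theorem meas_cap_row (R : Fin n → Fin (n + 1) → ℝ) (c : ℝ) (h g : Fin (n + 1) → ℝ) :
    MeasurableSet {r | Cap c (cm r R) h g} :=
  meas_cap (measurable_cm R) measurable_const measurable_const c

theorem rows_upper (R : Fin n → Fin (n + 1) → ℝ) (b w : Fin (n + 1) → ℝ) {c T : ℝ} (hc : 0 < c)
    (hw : w ⬝ᵥ w = 1) (hR : ∀ i, R i ⬝ᵥ w = 0) (hz : w ⬝ᵥ om R ≠ 0) :
    ∫⁻ r, ENNReal.ofReal (phi (r - b)) *
        {r | Reg c T (cm r R) (Pi.single 0 1)}.indicator 1 r ≤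
      ENNReal.ofReal |w ⬝ᵥ om R| * ∫⁻ d : Fin n → ℝ,
        {d : Fin n → ℝ | c ^ 2 * (1 + d ⬝ᵥ d) ≤ 1}.indicator 1 d *
        ∫⁻ t in {t : ℝ | t ^ 2 ≤ (T / c) ^ 2},
          ENNReal.ofReal (phi (t • w - (b - d ᵥ* Matrix.of R))) := by
  have hm1 : Measurable (fun r : Fin (n + 1) → ℝ => ENNReal.ofReal (phi (r - b)) *
        {r | Reg c T (cm r R) (Pi.single 0 1)}.indicator 1 r) := by
    apply Measurable.mul
    · exact (measurable_phi.comp (by fun_prop)).ennreal_ofReal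
    · exact measurable_one.indicator (meas_reg_row R c T _)
  rw [cov w R hz _ hm1]
  apply mul_le_mul_right
  have hpd := measurable_vecMul_const (Matrix.of R)
  have hD : MeasurableSet {d : Fin n → ℝ | c ^ 2 * (1 + d ⬝ᵥ d) ≤ 1} :=
    measurableSet_le ((measurable_dot.const_add 1).const_mul _) measurable_const
  have hTs : MeasurableSet {t : ℝ | t ^ 2 ≤ (T / c) ^ 2} :=
    measurableSet_le (by fun_prop) measurable_const
  have hm2 : Measurable (Function.uncurry (fun (t : ℝ) (d : Fin n → ℝ) =>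
      {d : Fin n → ℝ | c ^ 2 * (1 + d ⬝ᵥ d) ≤ 1}.indicator (1 : (Fin n → ℝ) → ℝ≥0∞) d *
      ({t : ℝ | t ^ 2 ≤ (T / c) ^ 2}.indicator (1 : ℝ → ℝ≥0∞) t *
        ENNReal.ofReal (phi (t • w - (b - d ᵥ* Matrix.of R)))))) := by
    apply Measurable.mul
    · exact (measurable_one.indicator hD).comp measurable_snd
    · apply Measurable.mul
      · exact (measurable_one.indicator hTs).comp measurable_fst
      · refine (measurable_phi.comp ?_).ennreal_ofReal
        exact (measurable_fst.smul_const w).sub ((hpd.comp measurable_snd).const_sub b)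
  calc ∫⁻ t : ℝ, ∫⁻ d : Fin n → ℝ, ENNReal.ofReal (phi (t • w + d ᵥ* Matrix.of R - b)) *
        {r | Reg c T (cm r R) (Pi.single 0 1)}.indicator 1 (t • w + d ᵥ* Matrix.of R) ≤
      ∫⁻ t : ℝ, ∫⁻ d : Fin n → ℝ,
        {d : Fin n → ℝ | c ^ 2 * (1 + d ⬝ᵥ d) ≤ 1}.indicator (1 : (Fin n → ℝ) → ℝ≥0∞) d *
      ({t : ℝ | t ^ 2 ≤ (T / c) ^ 2}.indicator (1 : ℝ → ℝ≥0∞) t *
        ENNReal.ofReal (phi (t • w - (b - d ᵥ* Matrix.of R)))) := by
        apply lintegral_mono
        intro t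
        apply lintegral_mono
        intro d
        simp only
        by_cases hr : Reg c T (cm (t • w + d ᵥ* Matrix.of R) R) (Pi.single 0 1)
        · obtain ⟨h1, h2⟩ := reg_row w R hw hR hz t d hc hr
          have h3 : t ^ 2 ≤ (T / c) ^ 2 := by
            rw [div_pow, le_div_iff₀ (by positivity)]; linarith
          rw [indicator_of_mem (show t • w + d ᵥ* Matrix.of R ∈
              {r | Reg c T (cm r R) (Pi.single 0 1)} from hr),
            indicator_of_mem (show d ∈ {d : Fin n → ℝ | c ^ 2 * (1 + d ⬝ᵥ d) ≤ 1} from h1),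
            indicator_of_mem (show t ∈ {t : ℝ | t ^ 2 ≤ (T / c) ^ 2} from h3)]
          simp only [Pi.one_apply, one_mul, mul_one]
          apply le_of_eq
          congr 2
          abel
        · rw [indicator_of_notMem (show t • w + d ᵥ* Matrix.of R ∉
              {r | Reg c T (cm r R) (Pi.single 0 1)} from hr), mul_zero]
          exact zero_le
    _ = ∫⁻ d : Fin n → ℝ, ∫⁻ t : ℝ,
        {d : Fin n → ℝ | c ^ 2 * (1 + d ⬝ᵥ d) ≤ 1}.indicator (1 : (Fin n → ℝ) → ℝ≥0∞) d *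
      ({t : ℝ | t ^ 2 ≤ (T / c) ^ 2}.indicator (1 : ℝ → ℝ≥0∞) t *
        ENNReal.ofReal (phi (t • w - (b - d ᵥ* Matrix.of R)))) :=
        lintegral_lintegral_swap hm2.aemeasurable
    _ ≤ _ := by
        apply lintegral_mono
        intro d
        simp only
        rw [lintegral_const_mul' _ _ (by
          by_cases hd : d ∈ {d : Fin n → ℝ | c ^ 2 * (1 + d ⬝ᵥ d) ≤ 1}
          · rw [indicator_of_mem hd]; simp
          · rw [indicator_of_notMem hd]; simp)]
        apply mul_le_mul_right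
        rw [← lintegral_indicator hTs]
        apply lintegral_mono
        intro t
        simp only
        by_cases ht : t ∈ {t : ℝ | t ^ 2 ≤ (T / c) ^ 2}
        · rw [indicator_of_mem ht, indicator_of_mem ht, Pi.one_apply, one_mul]
        · rw [indicator_of_notMem ht, zero_mul]
          exact zero_le

theorem rows_lower (R : Fin n → Fin (n + 1) → ℝ) (b g : Fin (n + 1) → ℝ) (c : ℝ) :
    ENNReal.ofReal |g ⬝ᵥ om R| * ∫⁻ d : Fin n → ℝ,
        {d : Fin n → ℝ | c ^ 2 * (1 + d ⬝ᵥ d) ≤ 1}.indicator 1 d *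
        ∫⁻ t : ℝ, ENNReal.ofReal (phi (t • g - (b - d ᵥ* Matrix.of R))) ≤
    ∫⁻ r, ENNReal.ofReal (phi (r - b)) *
        {r | Cap c (cm r R) (Pi.single 0 1) g}.indicator 1 r := by
  by_cases hz : g ⬝ᵥ om R = 0
  · rw [hz, abs_zero, ENNReal.ofReal_zero, zero_mul]
    exact zero_le
  have hm1 : Measurable (fun r : Fin (n + 1) → ℝ => ENNReal.ofReal (phi (r - b)) *
        {r | Cap c (cm r R) (Pi.single 0 1) g}.indicator 1 r) := by
    apply Measurable.mul
    · exact (measurable_phi.comp (by fun_prop)).ennreal_ofReal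
    · exact measurable_one.indicator (meas_cap_row R c _ _)
  rw [cov g R hz _ hm1]
  apply mul_le_mul_right
  have hpd := measurable_vecMul_const (Matrix.of R)
  have hD : MeasurableSet {d : Fin n → ℝ | c ^ 2 * (1 + d ⬝ᵥ d) ≤ 1} :=
    measurableSet_le ((measurable_dot.const_add 1).const_mul _) measurable_const
  have hm2 : Measurable (Function.uncurry (fun (d : Fin n → ℝ) (t : ℝ) =>
      {d : Fin n → ℝ | c ^ 2 * (1 + d ⬝ᵥ d) ≤ 1}.indicator (1 : (Fin n → ℝ) → ℝ≥0∞) d *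
        ENNReal.ofReal (phi (t • g - (b - d ᵥ* Matrix.of R))))) := by
    apply Measurable.mul
    · exact (measurable_one.indicator hD).comp measurable_fst
    · refine (measurable_phi.comp ?_).ennreal_ofReal
      exact (measurable_snd.smul_const g).sub ((hpd.comp measurable_fst).const_sub b)
  calc ∫⁻ d : Fin n → ℝ, {d : Fin n → ℝ | c ^ 2 * (1 + d ⬝ᵥ d) ≤ 1}.indicator 1 d *
        ∫⁻ t : ℝ, ENNReal.ofReal (phi (t • g - (b - d ᵥ* Matrix.of R))) =
      ∫⁻ d : Fin n → ℝ, ∫⁻ t : ℝ,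
        {d : Fin n → ℝ | c ^ 2 * (1 + d ⬝ᵥ d) ≤ 1}.indicator (1 : (Fin n → ℝ) → ℝ≥0∞) d *
        ENNReal.ofReal (phi (t • g - (b - d ᵥ* Matrix.of R))) := by
        apply lintegral_congr
        intro d
        rw [lintegral_const_mul' _ _ (by
          by_cases hd : d ∈ {d : Fin n → ℝ | c ^ 2 * (1 + d ⬝ᵥ d) ≤ 1}
          · rw [indicator_of_mem hd]; simp
          · rw [indicator_of_notMem hd]; simp)]
    _ = ∫⁻ t : ℝ, ∫⁻ d : Fin n → ℝ,
        {d : Fin n → ℝ | c ^ 2 * (1 + d ⬝ᵥ d) ≤ 1}.indicator (1 : (Fin n → ℝ) → ℝ≥0∞) d *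
        ENNReal.ofReal (phi (t • g - (b - d ᵥ* Matrix.of R))) :=
        lintegral_lintegral_swap hm2.aemeasurable
    _ ≤ _ := by
        apply lintegral_mono_ae
        have h0 : ∀ᵐ t : ℝ, t ≠ 0 := by
          rw [ae_iff]; simp
        filter_upwards [h0] with t ht
        apply lintegral_mono
        intro d
        simp only
        by_cases hd : c ^ 2 * (1 + d ⬝ᵥ d) ≤ 1
        · have h1 := cap_row g R hz t ht d hd
          rw [indicator_of_mem (show d ∈ {d : Fin n → ℝ | c ^ 2 * (1 + d ⬝ᵥ d) ≤ 1} from hd),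
            indicator_of_mem (show t • g + d ᵥ* Matrix.of R ∈
              {r | Cap c (cm r R) (Pi.single 0 1) g} from h1)]
          simp only [Pi.one_apply, one_mul, mul_one]
          apply le_of_eq
          congr 2
          abel
        · rw [indicator_of_notMem (show d ∉ {d : Fin n → ℝ | c ^ 2 * (1 + d ⬝ᵥ d) ≤ 1} from hd),
            zero_mul]
          exact zero_le

theorem rows (R : Fin n → Fin (n + 1) → ℝ) (b : Fin (n + 1) → ℝ) {c T q : ℝ} (hc : 0 < c)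
    {Φ : ℝ≥0∞} (hΦt : Φ ≠ ⊤) (hHQ : HQ n (T / c) q Φ)
    (hq : ∀ d : Fin n → ℝ, c ^ 2 * (1 + d ⬝ᵥ d) ≤ 1 →
      q ≤ (b - d ᵥ* Matrix.of R) ⬝ᵥ (b - d ᵥ* Matrix.of R)) :
    Φ * ∫⁻ r, ENNReal.ofReal (phi (r - b)) *
        {r | Reg c T (cm r R) (Pi.single 0 1)}.indicator 1 r ≤
    ENNReal.ofReal (T / c) * ∫⁻ g, ENNReal.ofReal (√(g ⬝ᵥ g)) *
      (∫⁻ r, ENNReal.ofReal (phi (r - b)) *
        {r | Cap c (cm r R) (Pi.single 0 1) g}.indicator 1 r) ∂(gam (Fin (n + 1))) := by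
  by_cases hom : om R = 0
  · have h1 : ∀ r : Fin (n + 1) → ℝ, ¬ Reg c T (cm r R) (Pi.single 0 1) := by
      intro r
      apply not_reg_of_det hc
      · rw [det_cm, hom, dotProduct_zero]
      · simp
    have h2 : ∫⁻ r, ENNReal.ofReal (phi (r - b)) *
        {r | Reg c T (cm r R) (Pi.single 0 1)}.indicator 1 r = 0 := by
      rw [← lintegral_zero]
      apply lintegral_congr
      intro r
      rw [indicator_of_notMem (show r ∉ {r | Reg c T (cm r R) (Pi.single 0 1)} from h1 r),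
        mul_zero]
    rw [h2, mul_zero]
    exact zero_le
  set W : ℝ := √(om R ⬝ᵥ om R) with hW
  have hoo : 0 < om R ⬝ᵥ om R := by
    rcases (dot_self_nonneg (om R)).lt_or_eq with h3 | h3
    · exact h3
    · exact absurd (dotProduct_self_eq_zero.mp h3.symm) hom
  have hW0 : 0 < W := Real.sqrt_pos.mpr hoo
  have hW2 : W ^ 2 = om R ⬝ᵥ om R := Real.sq_sqrt hoo.le
  set w : Fin (n + 1) → ℝ := W⁻¹ • om R with hwd
  have hw : w ⬝ᵥ w = 1 := by
    rw [hwd, smul_dotProduct, dotProduct_smul, smul_eq_mul, smul_eq_mul, ← hW2]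
    field_simp
  have hR : ∀ i, R i ⬝ᵥ w = 0 := by
    intro i
    rw [hwd, dotProduct_smul, om_row, smul_zero]
  have hwo : w ⬝ᵥ om R = W := by
    rw [hwd, smul_dotProduct, smul_eq_mul, ← hW2]
    field_simp
  have hgo : ∀ g : Fin (n + 1) → ℝ, |W| * |g ⬝ᵥ w| = |g ⬝ᵥ om R| := by
    intro g
    rw [← abs_mul, hwd, dotProduct_smul, smul_eq_mul]
    congr 1
    field_simp
  have h1 := rows_upper R b w (T := T) hc hw hR (by rw [hwo]; exact hW0.ne')
  rw [hwo] at h1
  set p : (Fin n → ℝ) → (Fin (n + 1) → ℝ) := fun d => b - d ᵥ* Matrix.of R with hp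
  have hpm : Measurable p := (measurable_vecMul_const (Matrix.of R)).const_sub b
  have hD : MeasurableSet {d : Fin n → ℝ | c ^ 2 * (1 + d ⬝ᵥ d) ≤ 1} :=
    measurableSet_le ((measurable_dot.const_add 1).const_mul _) measurable_const
  set χ : (Fin n → ℝ) → ℝ≥0∞ := {d : Fin n → ℝ | c ^ 2 * (1 + d ⬝ᵥ d) ≤ 1}.indicator 1 with hχ
  have hχm : Measurable χ := measurable_one.indicator hD
  have hχt : ∀ d, χ d ≠ ⊤ := by
    intro d
    by_cases hd : d ∈ {d : Fin n → ℝ | c ^ 2 * (1 + d ⬝ᵥ d) ≤ 1}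
    · rw [hχ, indicator_of_mem hd]; simp
    · rw [hχ, indicator_of_notMem hd]; simp
  have h2 : ∀ d, Φ * (χ d * ∫⁻ t in {t : ℝ | t ^ 2 ≤ (T / c) ^ 2},
        ENNReal.ofReal (phi (t • w - p d))) ≤
      χ d * (ENNReal.ofReal (T / c) * ∫⁻ g, ENNReal.ofReal (√(g ⬝ᵥ g)) *
        (ENNReal.ofReal |g ⬝ᵥ w| *
        ∫⁻ ρ : ℝ, ENNReal.ofReal (phi (ρ • g - p d))) ∂(gam (Fin (n + 1)))) := by
    intro d
    by_cases hd : d ∈ {d : Fin n → ℝ | c ^ 2 * (1 + d ⬝ᵥ d) ≤ 1}
    · have h3 : χ d = 1 := by rw [hχ, indicator_of_mem hd]; rfl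
      rw [h3, one_mul, one_mul]
      exact hHQ w (p d) hw (hq d hd)
    · have h3 : χ d = 0 := by rw [hχ, indicator_of_notMem hd]
      rw [h3]; simp
  have hm3 : Measurable (fun q : (Fin n → ℝ) × (Fin (n + 1) → ℝ) =>
      ∫⁻ ρ : ℝ, ENNReal.ofReal (phi (ρ • q.2 - p q.1))) := by
    apply Measurable.lintegral_prod_right' (f := fun q : ((Fin n → ℝ) × (Fin (n + 1) → ℝ)) × ℝ =>
      ENNReal.ofReal (phi (q.2 • q.1.2 - p q.1.1)))
    refine (measurable_phi.comp ?_).ennreal_ofReal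
    exact (measurable_snd.smul (measurable_snd.comp measurable_fst)).sub
      (hpm.comp (measurable_fst.comp measurable_fst))
  have hm4 : Measurable (Function.uncurry (fun (d : Fin n → ℝ) (g : Fin (n + 1) → ℝ) =>
      χ d * (ENNReal.ofReal (√(g ⬝ᵥ g)) * (ENNReal.ofReal |g ⬝ᵥ w| *
        ∫⁻ ρ : ℝ, ENNReal.ofReal (phi (ρ • g - p d)))))) := by
    apply (hχm.comp measurable_fst).mul
    apply Measurable.mul
    · exact ((measurable_dot.comp measurable_snd).sqrt).ennreal_ofReal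
    · apply Measurable.mul _ hm3
      have : Measurable (fun g : Fin (n + 1) → ℝ => g ⬝ᵥ w) := by unfold dotProduct; fun_prop
      exact ((this.comp measurable_snd).norm).ennreal_ofReal
  calc Φ * ∫⁻ r, ENNReal.ofReal (phi (r - b)) *
        {r | Reg c T (cm r R) (Pi.single 0 1)}.indicator 1 r ≤
      Φ * (ENNReal.ofReal |W| * ∫⁻ d : Fin n → ℝ, χ d *
        ∫⁻ t in {t : ℝ | t ^ 2 ≤ (T / c) ^ 2}, ENNReal.ofReal (phi (t • w - p d))) := by
        gcongr
    _ = ENNReal.ofReal |W| * ∫⁻ d : Fin n → ℝ, Φ * (χ d *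
        ∫⁻ t in {t : ℝ | t ^ 2 ≤ (T / c) ^ 2}, ENNReal.ofReal (phi (t • w - p d))) := by
        rw [lintegral_const_mul' _ _ hΦt]; ring
    _ ≤ ENNReal.ofReal |W| * ∫⁻ d : Fin n → ℝ, χ d * (ENNReal.ofReal (T / c) *
        ∫⁻ g, ENNReal.ofReal (√(g ⬝ᵥ g)) * (ENNReal.ofReal |g ⬝ᵥ w| *
        ∫⁻ ρ : ℝ, ENNReal.ofReal (phi (ρ • g - p d))) ∂(gam (Fin (n + 1)))) := by
        apply mul_le_mul_right
        exact lintegral_mono h2
    _ = ENNReal.ofReal |W| * (ENNReal.ofReal (T / c) * ∫⁻ d : Fin n → ℝ, ∫⁻ g, χ d *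
        (ENNReal.ofReal (√(g ⬝ᵥ g)) * (ENNReal.ofReal |g ⬝ᵥ w| *
        ∫⁻ ρ : ℝ, ENNReal.ofReal (phi (ρ • g - p d)))) ∂(gam (Fin (n + 1)))) := by
        congr 1
        rw [← lintegral_const_mul' _ _ ENNReal.ofReal_ne_top]
        apply lintegral_congr
        intro d
        rw [lintegral_const_mul' _ _ (hχt d)]
        ring
    _ = ENNReal.ofReal |W| * (ENNReal.ofReal (T / c) * ∫⁻ g, (∫⁻ d : Fin n → ℝ, χ d *
        (ENNReal.ofReal (√(g ⬝ᵥ g)) * (ENNReal.ofReal |g ⬝ᵥ w| *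
        ∫⁻ ρ : ℝ, ENNReal.ofReal (phi (ρ • g - p d))))) ∂(gam (Fin (n + 1)))) := by
        rw [lintegral_lintegral_swap hm4.aemeasurable]
    _ = ENNReal.ofReal (T / c) * ∫⁻ g, ENNReal.ofReal (√(g ⬝ᵥ g)) *
        (ENNReal.ofReal |g ⬝ᵥ om R| * ∫⁻ d : Fin n → ℝ, χ d *
        ∫⁻ ρ : ℝ, ENNReal.ofReal (phi (ρ • g - p d))) ∂(gam (Fin (n + 1))) := by
        rw [mul_left_comm]
        congr 1
        rw [← lintegral_const_mul' _ _ ENNReal.ofReal_ne_top]
        apply lintegral_congr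
        intro g
        rw [← hgo g, ENNReal.ofReal_mul (abs_nonneg _)]
        have e1 : ∫⁻ d : Fin n → ℝ, χ d * (ENNReal.ofReal (√(g ⬝ᵥ g)) *
            (ENNReal.ofReal |g ⬝ᵥ w| * ∫⁻ ρ : ℝ, ENNReal.ofReal (phi (ρ • g - p d)))) =
            (ENNReal.ofReal (√(g ⬝ᵥ g)) * ENNReal.ofReal |g ⬝ᵥ w|) * ∫⁻ d : Fin n → ℝ, χ d *
              ∫⁻ ρ : ℝ, ENNReal.ofReal (phi (ρ • g - p d)) := by
          rw [← lintegral_const_mul' _ _ (ENNReal.mul_ne_top ENNReal.ofReal_ne_top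
            ENNReal.ofReal_ne_top)]
          apply lintegral_congr
          intro d
          ring
        rw [e1]
        ring
    _ ≤ _ := by
        apply mul_le_mul_right
        apply lintegral_mono
        intro g
        apply mul_le_mul_right
        exact rows_lower R b g c

end Pool.Agent.SSZ
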