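import Pool.Agent.Lib.SSZ.E

/-! Rotation identity on the sphere and the second form of the inequality `(E)`. -/

set_option autoImplicit false

open MeasureTheory ProbabilityTheory Matrix Set Filter
open scoped ENNReal

namespace Pool.Agent.SSZ

open Pool.Agent.Lib.MP_da621d_pr (gam gam2 phi c0 gam_eq phi_eq measurable_phi tr measurable_tr
  map_tr_gam2 phi_pos c0_pos)

theorem gam_linear {ι : Type*} [Fintype ι] [DecidableEq ι] (f : (ι → ℝ) →ₗ[ℝ] (ι → ℝ))
    (hf : ∀ x, f x ⬝ᵥ f x = x ⬝ᵥ x) : MeasurePreserving (fun x => f x) (gam ι) (gam ι) := by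
  have hpol : ∀ x y, f x ⬝ᵥ f y = x ⬝ᵥ y := by
    intro x y
    have h1 := hf (x + y)
    rw [map_add, add_dotProduct, dotProduct_add, dotProduct_add, add_dotProduct, dotProduct_add,
      dotProduct_add, hf, hf, dotProduct_comm (f y), dotProduct_comm y x] at h1
    linarith
  set O := LinearMap.toMatrix' f with hO
  have hOf : ∀ x, O *ᵥ x = f x := fun x => LinearMap.toMatrix'_mulVec f x
  have hmem : O ∈ Matrix.orthogonalGroup ι ℝ := by
    rw [Matrix.mem_orthogonalGroup_iff']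
    ext i j
    have h1 : (Oᵀ * O) i j = (O *ᵥ Pi.single i 1) ⬝ᵥ (O *ᵥ Pi.single j 1) := by
      rw [mulVec_single_one, mulVec_single_one]
      rfl
    change (Oᵀ * O) i j = _
    rw [h1, hOf, hOf, hpol, single_dotProduct, one_mul, Matrix.one_apply, Pi.single_apply]
  have h2 := gam_orth O hmem
  simp_rw [hOf] at h2
  exact h2

variable {n : ℕ}

/-- rotation in the plane of the first two coordinates -/
noncomputable def rho (φ : ℝ) : (Fin (n + 2) → ℝ) →ₗ[ℝ] (Fin (n + 2) → ℝ) where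
  toFun z := Fin.cons (Real.cos φ * z 0 - Real.sin φ * z 1)
    (Fin.cons (Real.sin φ * z 0 + Real.cos φ * z 1) (fun i : Fin n => z i.succ.succ))
  map_add' x y := by
    funext i
    refine Fin.cases ?_ (fun i => ?_) i
    · simp; ring
    · refine Fin.cases ?_ (fun i => ?_) i
      · simp; ring
      · simp
  map_smul' c x := by
    funext i
    refine Fin.cases ?_ (fun i => ?_) i
    · simp; ring
    · refine Fin.cases ?_ (fun i => ?_) i
      · simp; ring
      · simp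

theorem rho_zero (φ : ℝ) (z : Fin (n + 2) → ℝ) :
    rho φ z 0 = Real.cos φ * z 0 - Real.sin φ * z 1 := rfl

theorem rho_one (φ : ℝ) (z : Fin (n + 2) → ℝ) :
    rho φ z 1 = Real.sin φ * z 0 + Real.cos φ * z 1 := rfl

theorem dot_split (z : Fin (n + 2) → ℝ) :
    z ⬝ᵥ z = z 0 ^ 2 + z 1 ^ 2 + ∑ i : Fin n, z i.succ.succ ^ 2 := by
  unfold dotProduct
  rw [Fin.sum_univ_succ, Fin.sum_univ_succ]
  simp only [pow_two]
  rw [← add_assoc]
  rfl

theorem rho_dot (φ : ℝ) (z : Fin (n + 2) → ℝ) : rho φ z ⬝ᵥ rho φ z = z ⬝ᵥ z := by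
  rw [dot_split, dot_split z, rho_zero, rho_one]
  have h1 : ∀ i : Fin n, rho φ z i.succ.succ = z i.succ.succ := fun i => rfl
  simp only [h1]
  have := Real.sin_sq_add_cos_sq φ
  linear_combination (z 0 ^ 2 + z 1 ^ 2) * this

theorem rho_preserving (φ : ℝ) :
    MeasurePreserving (fun z : Fin (n + 2) → ℝ => rho φ z) (gam (Fin (n + 2)))
      (gam (Fin (n + 2))) := gam_linear (rho φ) (rho_dot φ)

/-- auxiliary function -/
noncomputable def Faux (t : ℝ) (z : Fin (n + 2) → ℝ) : ℝ :=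
  z 0 * z 1 / (z ⬝ᵥ z) * Real.exp (t * (z 0 ^ 2 / (2 * (z ⬝ᵥ z))))

theorem measurable_Faux (t : ℝ) : Measurable (Faux (n := n) t) := by
  unfold Faux dotProduct; fun_prop

theorem hasDeriv_aux (t q a b φ : ℝ) :
    HasDerivAt (fun φ => (Real.cos φ * a - Real.sin φ * b) * (Real.sin φ * a + Real.cos φ * b) / q *
      Real.exp (t * ((Real.cos φ * a - Real.sin φ * b) ^ 2 / (2 * q))))
      ((((Real.cos φ * a - Real.sin φ * b) ^ 2 - (Real.sin φ * a + Real.cos φ * b) ^ 2) / q -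
        t * ((Real.cos φ * a - Real.sin φ * b) ^ 2 * (Real.sin φ * a + Real.cos φ * b) ^ 2 / q ^ 2))
        * Real.exp (t * ((Real.cos φ * a - Real.sin φ * b) ^ 2 / (2 * q)))) φ := by
  have hA : HasDerivAt (fun φ => Real.cos φ * a - Real.sin φ * b)
      (-(Real.sin φ * a + Real.cos φ * b)) φ := by
    have h1 := ((Real.hasDerivAt_cos φ).mul_const a).sub ((Real.hasDerivAt_sin φ).mul_const b)
    refine h1.congr_deriv ?_
    ring
  have hB : HasDerivAt (fun φ => Real.sin φ * a + Real.cos φ * b)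
      (Real.cos φ * a - Real.sin φ * b) φ := by
    have h1 := ((Real.hasDerivAt_sin φ).mul_const a).add ((Real.hasDerivAt_cos φ).mul_const b)
    refine h1.congr_deriv ?_
    ring
  have h2 := (((hA.mul hB).div_const q)).mul
    ((((hA.pow 2).div_const (2 * q)).const_mul t).exp)
  refine h2.congr_deriv ?_
  simp only [Nat.cast_ofNat, Nat.add_one_sub_one, pow_one, Pi.mul_apply, Pi.pow_apply]
  by_cases hq : q = 0
  · simp [hq]
  · field_simp
    ring

/-- the squared coordinates of the direction -/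
noncomputable def ys (i : Fin (n + 2)) (z : Fin (n + 2) → ℝ) : ℝ := z i ^ 2 / (z ⬝ᵥ z)

theorem ys_nonneg (i : Fin (n + 2)) (z : Fin (n + 2) → ℝ) : 0 ≤ ys i z := by
  have := dot_self_nonneg z
  unfold ys; positivity

theorem ys_le (i : Fin (n + 2)) (z : Fin (n + 2) → ℝ) : ys i z ≤ 1 := by
  unfold ys
  exact div_le_one_of_le₀ (sq_le_dot z i) (dot_self_nonneg z)

theorem measurable_ys (i : Fin (n + 2)) : Measurable (ys (n := n) i) := by
  unfold ys
  exact ((measurable_pi_apply i).pow_const 2).div measurable_dot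

theorem exp_half (t : ℝ) (z : Fin (n + 2) → ℝ) :
    Real.exp (t * (z 0 ^ 2 / (2 * (z ⬝ᵥ z)))) = Real.exp (t * ys 0 z / 2) := by
  congr 1
  unfold ys
  by_cases h : z ⬝ᵥ z = 0
  · rw [h]; simp
  · field_simp

theorem integrable_bdd {f : (Fin (n + 2) → ℝ) → ℝ} (hf : Measurable f) {C : ℝ}
    (hC : ∀ z, |f z| ≤ C) : Integrable f (gam (Fin (n + 2))) :=
  Integrable.of_bound hf.aestronglyMeasurable C (ae_of_all _ hC)

theorem rot_id (t : ℝ) :
    ∫ z : Fin (n + 2) → ℝ, (ys 0 z - ys 1 z - t * (ys 0 z * ys 1 z)) * Real.exp (t * ys 0 z / 2)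
      ∂(gam (Fin (n + 2))) = 0 := by
  set G : ℝ → (Fin (n + 2) → ℝ) → ℝ := fun φ z => Faux t (rho φ z) with hG
  set A : ℝ → (Fin (n + 2) → ℝ) → ℝ := fun φ z => Real.cos φ * z 0 - Real.sin φ * z 1 with hA
  set B : ℝ → (Fin (n + 2) → ℝ) → ℝ := fun φ z => Real.sin φ * z 0 + Real.cos φ * z 1 with hB
  set G' : ℝ → (Fin (n + 2) → ℝ) → ℝ := fun φ z =>
    (((A φ z) ^ 2 - (B φ z) ^ 2) / (z ⬝ᵥ z) -
      t * ((A φ z) ^ 2 * (B φ z) ^ 2 / (z ⬝ᵥ z) ^ 2)) *
      Real.exp (t * ((A φ z) ^ 2 / (2 * (z ⬝ᵥ z)))) with hG'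
  have hGe : ∀ φ z, G φ z = A φ z * B φ z / (z ⬝ᵥ z) *
      Real.exp (t * ((A φ z) ^ 2 / (2 * (z ⬝ᵥ z)))) := by
    intro φ z
    simp only [hG, Faux, rho_dot, rho_zero, rho_one, hA, hB]
  have hAB : ∀ φ z, A φ z ^ 2 + B φ z ^ 2 ≤ z ⬝ᵥ z := by
    intro φ z
    rw [dot_split]
    have h1 : 0 ≤ ∑ i : Fin n, z i.succ.succ ^ 2 := Finset.sum_nonneg fun i _ => sq_nonneg _
    have h2 : A φ z ^ 2 + B φ z ^ 2 = z 0 ^ 2 + z 1 ^ 2 := by
      simp only [hA, hB]
      have := Real.sin_sq_add_cos_sq φ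
      linear_combination (z 0 ^ 2 + z 1 ^ 2) * this
    linarith
  have hconst : ∀ φ, ∫ z, G φ z ∂(gam (Fin (n + 2))) = ∫ z, Faux t z ∂(gam (Fin (n + 2))) := by
    intro φ
    have h1 := (rho_preserving (n := n) φ).map_eq
    conv_rhs => rw [← h1]
    rw [integral_map (rho_preserving (n := n) φ).measurable.aemeasurable
      (measurable_Faux t).aestronglyMeasurable]
  have hder := hasDerivAt_integral_of_dominated_loc_of_deriv_le (μ := gam (Fin (n + 2)))
    (F := G) (F' := G') (x₀ := 0) (s := univ) (bound := fun _ => (1 + |t|) * Real.exp (|t| / 2))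
    Filter.univ_mem
    (Filter.Eventually.of_forall fun φ =>
      ((measurable_Faux t).comp (rho_preserving φ).measurable).aestronglyMeasurable)
    (by
      apply integrable_bdd ((measurable_Faux t).comp (rho_preserving 0).measurable)
        (C := 1 * Real.exp (|t| / 2))
      intro z
      change |G 0 z| ≤ _
      rw [hGe, abs_mul, Real.abs_exp]
      have hq := dot_self_nonneg z
      apply mul_le_mul _ _ (Real.exp_pos _).le zero_le_one
      · rw [abs_div, abs_of_nonneg hq]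
        apply div_le_one_of_le₀ _ hq
        have h1 := hAB 0 z
        rw [abs_mul]
        nlinarith [sq_nonneg (|A 0 z| - |B 0 z|), sq_abs (A 0 z), sq_abs (B 0 z),
          sq_nonneg (A 0 z), sq_nonneg (B 0 z)]
      · apply Real.exp_le_exp.mpr
        have h2 : A 0 z ^ 2 / (2 * (z ⬝ᵥ z)) ≤ 1 / 2 := by
          rcases hq.lt_or_eq with h | h
          · rw [div_le_div_iff₀ (by positivity) (by norm_num)]
            nlinarith [hAB 0 z, sq_nonneg (B 0 z)]
          · rw [← h]; norm_num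
        have h3 : 0 ≤ A 0 z ^ 2 / (2 * (z ⬝ᵥ z)) := by positivity
        nlinarith [le_abs_self t, abs_nonneg t])
    (by
      apply Measurable.aestronglyMeasurable
      simp only [hG', hA, hB, dotProduct]
      fun_prop)
    (ae_of_all _ fun z φ _ => by
      have hq := dot_self_nonneg z
      have hab := hAB φ z
      rw [Real.norm_eq_abs]
      simp only [hG']
      rw [abs_mul, Real.abs_exp]
      set α := A φ z ^ 2 / (z ⬝ᵥ z) with hα
      set β := B φ z ^ 2 / (z ⬝ᵥ z) with hβ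
      have hα0 : 0 ≤ α := by positivity
      have hβ0 : 0 ≤ β := by positivity
      have hαβ : α + β ≤ 1 := by
        rw [hα, hβ, ← add_div]
        exact div_le_one_of_le₀ hab hq
      have e1 : (A φ z ^ 2 - B φ z ^ 2) / (z ⬝ᵥ z) = α - β := by rw [sub_div]
      have e2 : A φ z ^ 2 * B φ z ^ 2 / (z ⬝ᵥ z) ^ 2 = α * β := by
        rw [hα, hβ, div_mul_div_comm, ← pow_two]
      have e3 : A φ z ^ 2 / (2 * (z ⬝ᵥ z)) = α / 2 := by
        rw [hα, div_div, mul_comm]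
      rw [e1, e2, e3]
      apply mul_le_mul _ _ (Real.exp_pos _).le (by positivity)
      · have h1 : |α - β| ≤ 1 := by rw [abs_le]; constructor <;> linarith
        have h2 : |t * (α * β)| ≤ |t| := by
          rw [abs_mul, abs_of_nonneg (mul_nonneg hα0 hβ0)]
          apply mul_le_of_le_one_right (abs_nonneg t)
          nlinarith
        calc |α - β - t * (α * β)| ≤ |α - β| + |t * (α * β)| := abs_sub _ _
          _ ≤ 1 + |t| := add_le_add h1 h2
      · apply Real.exp_le_exp.mpr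
        nlinarith [le_abs_self t, abs_nonneg t])
    (integrable_const _)
    (ae_of_all _ fun z φ _ => by
      have h1 := hasDeriv_aux t (z ⬝ᵥ z) (z 0) (z 1) φ
      have h2 : (fun φ => G φ z) = fun φ => (Real.cos φ * z 0 - Real.sin φ * z 1) *
          (Real.sin φ * z 0 + Real.cos φ * z 1) / (z ⬝ᵥ z) *
          Real.exp (t * ((Real.cos φ * z 0 - Real.sin φ * z 1) ^ 2 / (2 * (z ⬝ᵥ z)))) := by
        funext φ
        exact hGe φ z
      rw [h2]
      exact h1)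
  have h3 := hder.2
  simp_rw [hconst] at h3
  have h4 := h3.unique (hasDerivAt_const (0 : ℝ) _)
  rw [← h4]
  apply integral_congr_ae
  refine ae_of_all _ fun z => ?_
  simp only [hG', hA, hB, Real.cos_zero, Real.sin_zero, one_mul, zero_mul, sub_zero, zero_add]
  rw [exp_half]
  unfold ys
  congr 1
  rw [sub_div, div_mul_div_comm, ← pow_two]

theorem ys_perm (σ : Fin (n + 2) ≃ Fin (n + 2)) (i : Fin (n + 2)) (z : Fin (n + 2) → ℝ) :
    ys i (fun k => z (σ k)) = ys (σ i) z := by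
  unfold ys
  rw [perm_dot]

theorem measurable_exp_ys (t : ℝ) :
    Measurable (fun z : Fin (n + 2) → ℝ => Real.exp (t * ys 0 z / 2)) :=
  (((measurable_ys 0).const_mul t).div_const 2).exp

theorem exp_ys_le {t : ℝ} (z : Fin (n + 2) → ℝ) (i : Fin (n + 2)) :
    Real.exp (t * ys i z / 2) ≤ Real.exp (|t| / 2) := by
  apply Real.exp_le_exp.mpr
  nlinarith [ys_nonneg i z, ys_le i z, le_abs_self t, abs_nonneg t]

theorem integrable_exp_ys (t : ℝ) :
    Integrable (fun z : Fin (n + 2) → ℝ => Real.exp (t * ys 0 z / 2)) (gam (Fin (n + 2))) :=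
  integrable_bdd (measurable_exp_ys t) (C := Real.exp (|t| / 2)) fun z => by
    rw [Real.abs_exp]; exact exp_ys_le z 0

theorem integrable_ys_exp (i : Fin (n + 2)) (t : ℝ) :
    Integrable (fun z : Fin (n + 2) → ℝ => ys i z * Real.exp (t * ys 0 z / 2))
      (gam (Fin (n + 2))) :=
  integrable_bdd ((measurable_ys i).mul (measurable_exp_ys t)) (C := 1 * Real.exp (|t| / 2))
    fun z => by
    rw [abs_mul, Real.abs_exp, abs_of_nonneg (ys_nonneg i z)]
    exact mul_le_mul (ys_le i z) (exp_ys_le z 0) (Real.exp_pos _).le zero_le_one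

theorem int_ys_succ (j : Fin (n + 1)) (t : ℝ) :
    ∫ z : Fin (n + 2) → ℝ, ys j.succ z * Real.exp (t * ys 0 z / 2) ∂(gam (Fin (n + 2))) =
    ∫ z : Fin (n + 2) → ℝ, ys 1 z * Real.exp (t * ys 0 z / 2) ∂(gam (Fin (n + 2))) := by
  set σ : Fin (n + 2) ≃ Fin (n + 2) := Equiv.swap 1 j.succ with hσ
  have hs1 : σ 1 = j.succ := by rw [hσ, Equiv.swap_apply_left]
  have hs0 : σ 0 = 0 :=
    Equiv.swap_apply_of_ne_of_ne (by simp) (Fin.succ_ne_zero j).symm
  have h1 := (gam_perm σ).map_eq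
  have hme : Measurable (fun z : Fin (n + 2) → ℝ => ys 1 z * Real.exp (t * ys 0 z / 2)) :=
    (measurable_ys 1).mul (measurable_exp_ys t)
  have h2 : ∫ z : Fin (n + 2) → ℝ, ys 1 z * Real.exp (t * ys 0 z / 2)
      ∂(Measure.map (fun (z : Fin (n + 2) → ℝ) i => z (σ i)) (gam (Fin (n + 2)))) =
      ∫ z : Fin (n + 2) → ℝ, ys 1 (fun i => z (σ i)) *
        Real.exp (t * ys 0 (fun i => z (σ i)) / 2) ∂(gam (Fin (n + 2))) :=
    integral_map (gam_perm σ).measurable.aemeasurable hme.aestronglyMeasurable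
  rw [h1] at h2
  rw [h2]
  simp only [ys_perm, hs1, hs0]

theorem sum_ys (z : Fin (n + 2) → ℝ) (hz : 0 < z ⬝ᵥ z) :
    ys 0 z + ∑ j : Fin (n + 1), ys j.succ z = 1 := by
  unfold ys
  rw [← Finset.sum_div, ← add_div, div_eq_one_iff_eq hz.ne']
  unfold dotProduct
  rw [Fin.sum_univ_succ (f := fun i => z i * z i)]
  simp only [pow_two]

theorem F_ineq {t : ℝ} (ht : 0 ≤ t) :
    ∫ z : Fin (n + 2) → ℝ, Real.exp (t * ys 0 z / 2) ∂(gam (Fin (n + 2))) ≤
      ((n + 1 : ℕ) + 1 + t) *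
      ∫ z : Fin (n + 2) → ℝ, ys 1 z * Real.exp (t * ys 0 z / 2) ∂(gam (Fin (n + 2))) := by
  have h1 : ∫ z : Fin (n + 2) → ℝ, Real.exp (t * ys 0 z / 2) ∂(gam (Fin (n + 2))) =
      (∫ z : Fin (n + 2) → ℝ, ys 0 z * Real.exp (t * ys 0 z / 2) ∂(gam (Fin (n + 2)))) +
      (n + 1 : ℕ) *
      ∫ z : Fin (n + 2) → ℝ, ys 1 z * Real.exp (t * ys 0 z / 2) ∂(gam (Fin (n + 2))) := by
    have h2 : ∫ z : Fin (n + 2) → ℝ, Real.exp (t * ys 0 z / 2) ∂(gam (Fin (n + 2))) =
        ∫ z : Fin (n + 2) → ℝ, (ys 0 z * Real.exp (t * ys 0 z / 2) +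
          ∑ j : Fin (n + 1), ys j.succ z * Real.exp (t * ys 0 z / 2)) ∂(gam (Fin (n + 2))) := by
      apply integral_congr_ae
      filter_upwards [ae_dot_pos (n := n + 1)] with z hz
      rw [← Finset.sum_mul, ← add_mul, sum_ys z hz, one_mul]
    rw [h2, integral_add (integrable_ys_exp 0 t)
      (integrable_finsetSum _ fun j _ => integrable_ys_exp j.succ t),
      integral_finsetSum _ fun j _ => integrable_ys_exp j.succ t,
      Finset.sum_congr rfl fun j _ => int_ys_succ j t]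
    simp
  have h3 := rot_id (n := n) t
  have hint : Integrable (fun z : Fin (n + 2) → ℝ => ys 0 z * ys 1 z *
      Real.exp (t * ys 0 z / 2)) (gam (Fin (n + 2))) :=
    integrable_bdd (((measurable_ys 0).mul (measurable_ys 1)).mul (measurable_exp_ys t))
      (C := 1 * Real.exp (|t| / 2)) fun z => by
      rw [abs_mul, Real.abs_exp, abs_of_nonneg (mul_nonneg (ys_nonneg 0 z) (ys_nonneg 1 z))]
      exact mul_le_mul (mul_le_one₀ (ys_le 0 z) (ys_nonneg 1 z) (ys_le 1 z)) (exp_ys_le z 0)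
        (Real.exp_pos _).le zero_le_one
  have h4 : ∫ z : Fin (n + 2) → ℝ, (ys 0 z - ys 1 z - t * (ys 0 z * ys 1 z)) *
      Real.exp (t * ys 0 z / 2) ∂(gam (Fin (n + 2))) =
      (∫ z : Fin (n + 2) → ℝ, ys 0 z * Real.exp (t * ys 0 z / 2) ∂(gam (Fin (n + 2)))) -
      (∫ z : Fin (n + 2) → ℝ, ys 1 z * Real.exp (t * ys 0 z / 2) ∂(gam (Fin (n + 2)))) -
      t * ∫ z : Fin (n + 2) → ℝ, ys 0 z * ys 1 z * Real.exp (t * ys 0 z / 2)
        ∂(gam (Fin (n + 2))) := by
    have e1 := integral_sub (integrable_ys_exp (n := n) 0 t) (integrable_ys_exp 1 t)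
    have hi1 : Integrable (fun z : Fin (n + 2) → ℝ => ys 0 z * Real.exp (t * ys 0 z / 2) -
        ys 1 z * Real.exp (t * ys 0 z / 2)) (gam (Fin (n + 2))) :=
      (integrable_ys_exp 0 t).sub (integrable_ys_exp 1 t)
    have e2 := integral_sub hi1 (hint.const_mul t)
    rw [e1, integral_const_mul] at e2
    rw [← e2]
    apply integral_congr_ae
    refine ae_of_all _ fun z => ?_
    simp only
    ring
  rw [h4] at h3
  have h5 : ∫ z : Fin (n + 2) → ℝ, ys 0 z * ys 1 z * Real.exp (t * ys 0 z / 2)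
        ∂(gam (Fin (n + 2))) ≤
      ∫ z : Fin (n + 2) → ℝ, ys 1 z * Real.exp (t * ys 0 z / 2) ∂(gam (Fin (n + 2))) := by
    apply integral_mono hint (integrable_ys_exp 1 t)
    intro z
    apply mul_le_mul_of_nonneg_right _ (Real.exp_pos _).le
    exact mul_le_of_le_one_left (ys_nonneg 1 z) (ys_le 0 z)
  have h6 := mul_le_mul_of_nonneg_left h5 ht
  rw [h1]
  linarith

theorem Ph_eq_ys (n : ℕ) (t : ℝ) : Ph n t = ENNReal.ofReal
    (∫ z : Fin (n + 2) → ℝ, Real.exp (t * ys 0 z / 2) ∂(gam (Fin (n + 2)))) := by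
  rw [Ph_eq_ofReal]
  congr 1
  apply integral_congr_ae
  exact ae_of_all _ fun z => exp_half t z

theorem E_step4' {α P t T : ℝ} (hα : 0 ≤ α) (ht : 0 ≤ t) (htP : t ≤ P)
    (hT : T ^ 2 * ((n + 1 : ℕ) + 1 + t) ≤ 1) :
    ENNReal.ofReal (Real.exp (α * T ^ 2 / 2)) * Ph n t ≤
    ∫⁻ u, ∫⁻ x, ENNReal.ofReal (Real.exp ((α * u ^ 2 + P * x 0 ^ 2) / (2 * (u ^ 2 + x ⬝ᵥ x))))
      ∂(gam (Fin (n + 1))) ∂(gaussianReal 0 1) := by
  rw [E_step3 α P 0, Ph_eq_ys, ← ENNReal.ofReal_mul (Real.exp_pos _).le]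
  have hm : Measurable (fun z : Fin (n + 2) → ℝ =>
      Real.exp (α * ys 1 z / 2) * Real.exp (t * ys 0 z / 2)) :=
    (((measurable_ys 1).const_mul α).div_const 2).exp.mul (measurable_exp_ys t)
  have hint : Integrable (fun z : Fin (n + 2) → ℝ =>
      Real.exp (α * ys 1 z / 2) * Real.exp (t * ys 0 z / 2)) (gam (Fin (n + 2))) :=
    integrable_bdd hm (C := Real.exp (|α| / 2) * Real.exp (|t| / 2)) fun z => by
      rw [abs_mul, Real.abs_exp, Real.abs_exp]
      exact mul_le_mul (exp_ys_le z 1) (exp_ys_le z 0) (Real.exp_pos _).le (Real.exp_pos _).le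
  have h1 : ENNReal.ofReal (∫ z : Fin (n + 2) → ℝ,
      Real.exp (α * ys 1 z / 2) * Real.exp (t * ys 0 z / 2) ∂(gam (Fin (n + 2)))) ≤
      ∫⁻ z, ENNReal.ofReal (Real.exp ((α * z (0 : Fin (n + 1)).succ ^ 2 + P * z 0 ^ 2) /
        (2 * (z ⬝ᵥ z)))) ∂(gam (Fin (n + 2))) := by
    rw [ofReal_integral_eq_lintegral_ofReal hint (ae_of_all _ fun z => by positivity)]
    apply lintegral_mono
    intro z
    apply ENNReal.ofReal_le_ofReal
    rw [← Real.exp_add]
    apply Real.exp_le_exp.mpr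
    have e1 : (α * z (0 : Fin (n + 1)).succ ^ 2 + P * z 0 ^ 2) / (2 * (z ⬝ᵥ z)) =
        α * ys 1 z / 2 + P * ys 0 z / 2 := by
      have e2 : z (0 : Fin (n + 1)).succ = z 1 := rfl
      rw [e2]
      unfold ys
      by_cases h : z ⬝ᵥ z = 0
      · rw [h]; simp
      · field_simp
    rw [e1]
    have := mul_le_mul_of_nonneg_right htP (ys_nonneg 0 z)
    linarith
  refine le_trans ?_ h1
  apply ENNReal.ofReal_le_ofReal
  have hF := F_ineq (n := n) ht
  set I0 := ∫ z : Fin (n + 2) → ℝ, Real.exp (t * ys 0 z / 2) ∂(gam (Fin (n + 2))) with hI0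
  set I1 := ∫ z : Fin (n + 2) → ℝ, ys 1 z * Real.exp (t * ys 0 z / 2) ∂(gam (Fin (n + 2)))
    with hI1
  have hI10 : 0 ≤ I1 := integral_nonneg fun z => mul_nonneg (ys_nonneg 1 z) (Real.exp_pos _).le
  have hTI : T ^ 2 * I0 ≤ I1 := by
    calc T ^ 2 * I0 ≤ T ^ 2 * (((n + 1 : ℕ) + 1 + t) * I1) :=
          mul_le_mul_of_nonneg_left hF (sq_nonneg T)
      _ = (T ^ 2 * ((n + 1 : ℕ) + 1 + t)) * I1 := by ring
      _ ≤ 1 * I1 := mul_le_mul_of_nonneg_right hT hI10
      _ = I1 := one_mul _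
  have h2 : ∫ z : Fin (n + 2) → ℝ, Real.exp (α * T ^ 2 / 2) *
      ((1 - α * T ^ 2 / 2) * Real.exp (t * ys 0 z / 2) +
        α / 2 * (ys 1 z * Real.exp (t * ys 0 z / 2))) ∂(gam (Fin (n + 2))) ≤
      ∫ z : Fin (n + 2) → ℝ,
        Real.exp (α * ys 1 z / 2) * Real.exp (t * ys 0 z / 2) ∂(gam (Fin (n + 2))) := by
    apply integral_mono
      ((((integrable_exp_ys t).const_mul _).add ((integrable_ys_exp 1 t).const_mul _)).const_mul _)
      hint
    intro z
    simp only [Pi.add_apply]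
    have h3 := Real.add_one_le_exp (α * ys 1 z / 2 - α * T ^ 2 / 2)
    have h4 : Real.exp (α * ys 1 z / 2) = Real.exp (α * T ^ 2 / 2) *
        Real.exp (α * ys 1 z / 2 - α * T ^ 2 / 2) := by
      rw [← Real.exp_add]; congr 1; ring
    rw [h4, mul_assoc]
    apply mul_le_mul_of_nonneg_left _ (Real.exp_pos _).le
    calc _ = (α * ys 1 z / 2 - α * T ^ 2 / 2 + 1) * Real.exp (t * ys 0 z / 2) := by ring
      _ ≤ _ := mul_le_mul_of_nonneg_right h3 (Real.exp_pos _).le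
  rw [integral_const_mul, integral_add ((integrable_exp_ys t).const_mul _)
    ((integrable_ys_exp 1 t).const_mul _), integral_const_mul, integral_const_mul, ← hI0,
    ← hI1] at h2
  refine le_trans ?_ h2
  apply mul_le_mul_of_nonneg_left _ (Real.exp_pos _).le
  have := mul_le_mul_of_nonneg_left hTI hα
  nlinarith

/-- second form of `(E)` -/
theorem E_ineq' (w p : Fin (n + 1) → ℝ) (hw : w ⬝ᵥ w = 1) {t T : ℝ} (ht : 0 ≤ t)
    (htp : t ≤ p ⬝ᵥ p) (hT : T ^ 2 * ((n + 1 : ℕ) + 1 + t) ≤ 1) :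
    ENNReal.ofReal (2 * c0) * (ENNReal.ofReal (Real.exp ((p ⬝ᵥ w) ^ 2 * T ^ 2 / 2)) *
      Ph n t) ≤
    ∫⁻ g, ENNReal.ofReal |g ⬝ᵥ w| * ENNReal.ofReal (Real.exp ((p ⬝ᵥ g) ^ 2 / (2 * (g ⬝ᵥ g))))
      ∂(gam (Fin (n + 1))) := by
  obtain ⟨O, hO, h1⟩ := exists_orth' w
  rw [hw, Real.sqrt_one] at h1
  set q := O *ᵥ p with hq
  have hqa : q 0 = p ⬝ᵥ w := by
    rw [dotProduct_comm, h1 p, one_mul]
  have hqq : q ⬝ᵥ q = p ⬝ᵥ p := orth_dot hO p p
  have h2 : ∫⁻ g, ENNReal.ofReal |g ⬝ᵥ w| * ENNReal.ofReal (Real.exp ((p ⬝ᵥ g) ^ 2 /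
      (2 * (g ⬝ᵥ g)))) ∂(gam (Fin (n + 1))) =
      ∫⁻ g, ENNReal.ofReal |g 0| * ENNReal.ofReal (Real.exp ((q ⬝ᵥ g) ^ 2 / (2 * (g ⬝ᵥ g))))
      ∂(gam (Fin (n + 1))) := by
    rw [← (gam_orth O hO).lintegral_comp (f := fun g => ENNReal.ofReal |g 0| *
      ENNReal.ofReal (Real.exp ((q ⬝ᵥ g) ^ 2 / (2 * (g ⬝ᵥ g)))))
      (by unfold dotProduct; fun_prop)]
    apply lintegral_congr
    intro g
    simp only [hq, orth_dot hO]
    rw [dotProduct_comm g w, h1 g, one_mul]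
  rw [h2]
  refine le_trans ?_ (E_step1 q)
  apply mul_le_mul_right
  simp_rw [E_step2 q (q 0 ^ 2)]
  refine le_trans ?_ (E_step4' (sq_nonneg (q 0)) ht (by rw [hqq]; exact htp) hT)
  rw [hqa]

end Pool.Agent.SSZ
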